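import Mathlib
import Pool.Agent.Helper322.LT.QLink

/-!
# Every recursively enumerable language is given by a two-letter queue system with a morphic start

For a recursively enumerable language `L` over `Fin t` there are a finite alphabet `Fin K`, words
`P x y`, a word `p0` and a morphism `z` such that `w ∈ L` if and only if
`x₁ y₁ x₂ y₂ ⋯ xₙ yₙ e = p0 z(w) P x₁ y₁ ⋯ P xₙ yₙ` for some letters and some `e` of length at most
one.
-/

set_option autoImplicit false

namespace Pool.R570.EPC

open Turing StateTransition Relation Pool.Agent.Helper322.LT Pool.Agent.Helper322.LT.Queue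
open Turing.PartrecToTM2 (trNat trList)
open Pool.Agent.Helper322.LT.Univ (sym finite_states trNat_rec)

/-! ### machines for partial recursive functions -/

theorem exists_machine_of (f : ℕ →. ℕ) (hf : Partrec f) :
    ∃ (Λ : Type) (_ : Inhabited Λ) (_ : Finite Λ)
      (M : TM0.Machine (TM2to1.Γ' PartrecToTM2.K' (fun _ => PartrecToTM2.Γ')) Λ),
      ∀ n, (StateTransition.eval (TM0.step M)
        (TM0.init (sym true .cons :: (trNat n).reverse.map (sym false)))).Dom ↔ (f n).Dom := by
  classical
  obtain ⟨c, hc⟩ : ∃ c : ToPartrec.Code, ∀ n : ℕ, (c.eval [n]).Dom ↔ (f n).Dom := by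
    obtain ⟨c, hc⟩ := ToPartrec.Code.exists_code (Nat.Partrec'.part_iff₁.2 hf)
    refine ⟨c, fun n => ?_⟩
    have := hc ⟨[n], rfl⟩
    simp only at this
    rw [this]
    simp [List.Vector.head]
  let inst : Inhabited PartrecToTM2.Λ' :=
    ⟨PartrecToTM2.trNormal c PartrecToTM2.Cont'.halt⟩
  let M2 := PartrecToTM2.tr
  let M1 := TM2to1.tr M2
  let M0 := TM1to0.tr M1
  have s2 : @TM2.Supports _ _ _ _ inst M2 (PartrecToTM2.codeSupp c PartrecToTM2.Cont'.halt) :=
    PartrecToTM2.tr_supports c PartrecToTM2.Cont'.halt
  have s1 := TM2to1.tr_supports M2 s2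
  have s0 := TM1to0.tr_supports M1 s1
  obtain ⟨Λ, i1, i2, M, hM⟩ := finite_states M0 _ (Finset.finite_toSet _) s0
  refine ⟨Λ, i1, i2, M, fun n => ?_⟩
  rw [hM, ← hc]
  have h2 := PartrecToTM2.tr_eval c [n]
  have h2' : (StateTransition.eval (TM2.step PartrecToTM2.tr)
      (PartrecToTM2.init c [n])).Dom ↔ (c.eval [n]).Dom := by
    rw [h2]; rfl
  rw [← h2']
  have h1 := StateTransition.tr_eval_dom (TM2to1.tr_respects M2)
    (TM2to1.trCfg_init (K := PartrecToTM2.K') (Γ := fun _ => PartrecToTM2.Γ')
      (Λ := PartrecToTM2.Λ') (σ := Option PartrecToTM2.Γ') PartrecToTM2.K'.main (trList [n]))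
  have e1 : (TM2.init PartrecToTM2.K'.main (trList [n]) :
      TM2.Cfg (fun _ : PartrecToTM2.K' => PartrecToTM2.Γ') PartrecToTM2.Λ'
        (Option PartrecToTM2.Γ')) = PartrecToTM2.init c [n] := by
    unfold TM2.init PartrecToTM2.init
    congr 1
    funext k
    cases k <;> rfl
  rw [e1] at h1
  rw [← h1]
  have h0 := StateTransition.tr_eval_dom (TM1to0.tr_respects M1)
    (a₁ := TM1.init (TM2to1.trInit PartrecToTM2.K'.main (trList [n]))) rfl
  rw [← h0]
  have e2 : TM2to1.trInit (Γ := fun _ => PartrecToTM2.Γ') PartrecToTM2.K'.main (trList [n]) =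
      sym true .cons :: (trNat n).reverse.map (sym false) := by
    have : (trList [n]).reverse = PartrecToTM2.Γ'.cons :: (trNat n).reverse := by simp
    unfold TM2to1.trInit
    rw [this]
    rfl
  rw [← e2]
  rfl

/-! ### binary numbers of words -/

/-- the binary digit of a bit -/
def dig (b : Bool) : PartrecToTM2.Γ' := if b then .bit1 else .bit0

theorem trNat_bit (b : Bool) (m : ℕ) (hm : m ≠ 0) : trNat (Nat.bit b m) = dig b :: trNat m := by
  have h : Nat.bit b m ≠ 0 := by
    cases b <;> simp [Nat.bit] ; omega
  obtain ⟨k, hk⟩ := Nat.exists_eq_succ_of_ne_zero h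
  rw [hk, Nat.succ_eq_add_one, trNat_rec, ← Nat.succ_eq_add_one, ← hk]
  have h1 : Nat.bit b m / 2 = m := Nat.bit_div_two b m
  rw [h1]
  congr 1
  cases b <;> simp [Nat.bit, dig] 
  

/-- the number `1 b₁ ⋯ bₙ` in binary -/
def num (l : List Bool) : ℕ := l.foldl (fun n b => Nat.bit b n) 1

theorem num_concat (l : List Bool) (b : Bool) : num (l ++ [b]) = Nat.bit b (num l) := by
  simp [num]

theorem num_ne_zero (l : List Bool) : num l ≠ 0 := by
  induction l using List.reverseRecOn with
  | nil => simp [num]
  | append_singleton l b ih =>
    rw [num_concat]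
    cases b <;> simp [Nat.bit, ih]

theorem trNat_num (l : List Bool) : (trNat (num l)).reverse = dig true :: l.map dig := by
  induction l using List.reverseRecOn with
  | nil => 
    have : trNat (num []) = [dig true] := by
      simp [num, dig, PartrecToTM2.trNat, PartrecToTM2.trNum]
      rfl
    rw [this]; rfl
  | append_singleton l b ih =>
    rw [num_concat, trNat_bit b _ (num_ne_zero l), List.reverse_cons, ih]
    simp

theorem num_injective : Function.Injective num := by
  intro l
  induction l using List.reverseRecOn with
  | nil =>
    intro l' h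
    rcases List.eq_nil_or_concat l' with rfl | ⟨l', b, rfl⟩
    · rfl
    · exfalso
      rw [List.concat_eq_append, num_concat] at h
      have h1 := num_ne_zero l'
      have h2 : num [] = 1 := rfl
      rw [h2] at h
      cases b <;> simp [Nat.bit] at h <;> omega
  | append_singleton l b ih =>
    intro l' h
    rcases List.eq_nil_or_concat l' with rfl | ⟨l', b', rfl⟩
    · exfalso
      rw [num_concat] at h
      have h1 := num_ne_zero l
      have h2 : num [] = 1 := rfl
      rw [h2] at h
      cases b <;> simp [Nat.bit] at h <;> omega
    · rw [List.concat_eq_append] at h ⊢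
      rw [num_concat, num_concat] at h
      have h1 : num l = num l' := by
        have := congrArg (· / 2) h
        simpa [Nat.bit_div_two] using this
      have h2 : b = b' := by
        rw [h1] at h
        cases b <;> cases b' <;> simp [Nat.bit] at h ⊢
      rw [ih h1, h2]

variable {t : ℕ}

/-- the block of a letter -/
def blk (a : Fin t) : List Bool := (List.range (2 * t)).map (fun i => decide (i = 2 * a.1))

theorem blk_length (a : Fin t) : (blk a).length = 2 * t := by simp [blk]

theorem blk_injective : Function.Injective (blk (t := t)) := by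
  intro a b h
  have h1 : (blk a)[2 * a.1]? = some true := by
    rw [blk, List.getElem?_map, List.getElem?_range (by have := a.2; omega)]
    simp
  rw [h, blk, List.getElem?_map, List.getElem?_range (by have := a.2; omega)] at h1
  have h2 : 2 * a.1 = 2 * b.1 := by simpa using h1
  exact Fin.ext (by omega)

/-- the bits of a word -/
def bits (w : List (Fin t)) : List Bool := w.flatMap blk

theorem bits_injective : Function.Injective (bits (t := t)) := by
  intro w
  induction w with
  | nil =>
    intro w' h
    cases w' with
    | nil => rfl
    | cons a w' =>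
      exfalso
      have := congrArg List.length h
      simp only [bits, List.flatMap_nil, List.length_nil, List.flatMap_cons, List.length_append,
        blk_length] at this
      have := a.2
      omega
  | cons a w ih =>
    intro w' h
    cases w' with
    | nil =>
      exfalso
      have := congrArg List.length h
      simp only [bits, List.flatMap_nil, List.length_nil, List.flatMap_cons, List.length_append,
        blk_length] at this
      have := a.2
      omega
    | cons b w' =>
      simp only [bits, List.flatMap_cons] at h
      obtain ⟨h1, h2⟩ := List.append_inj h (by rw [blk_length, blk_length])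
      rw [blk_injective h1, ih h2]

theorem bits_length (w : List (Fin t)) : (bits w).length = 2 * (t * w.length) := by
  induction w with
  | nil => simp [bits]
  | cons a w ih =>
    have : bits (a :: w) = blk a ++ bits w := rfl
    rw [this, List.length_append, ih, blk_length, List.length_cons]
    ring

theorem primrec_wnum : Primrec (fun w : List (Fin t) => num (bits w)) := by
  unfold num bits
  have hb : Primrec (fun a : Fin t => blk a) := by
    unfold blk
    refine Primrec.list_map (Primrec.const _) ?_
    refine Primrec₂.mk ?_
    refine PrimrecPred.decide ?_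
    exact Primrec.eq.comp Primrec.snd (Primrec.nat_mul.comp (Primrec.const 2)
      (Primrec.fin_val.comp Primrec.fst))
  have hf : Primrec (fun w : List (Fin t) => w.flatMap blk) :=
    Primrec.list_flatMap Primrec.id (hb.comp Primrec.snd).to₂
  refine Primrec.list_foldl (h := fun _ p => Nat.bit p.2 p.1) hf (Primrec.const 1) ?_
  refine Primrec₂.mk ?_
  have h1 : Primrec (fun p : List (Fin t) × ℕ × Bool => 2 * p.2.1 + (if p.2.2 = true then 1 else 0)) :=
    Primrec.nat_add.comp (Primrec.nat_mul.comp (Primrec.const 2) (Primrec.fst.comp Primrec.snd))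
      (Primrec.ite (Primrec.eq.comp (Primrec.snd.comp Primrec.snd) (Primrec.const true))
        (Primrec.const 1) (Primrec.const 0))
  refine h1.of_eq fun p => ?_
  rcases p with ⟨_, n, b⟩
  cases b <;> simp [Nat.bit]

/-- the partial function on numbers whose domain contains the number of `w` iff `w ∈ L` -/
theorem exists_partial (L : List (Fin t) → Prop) (hL : REPred L) :
    ∃ f : ℕ →. ℕ, Partrec f ∧ ∀ w, (f (num (bits w))).Dom ↔ L w := by
  classical
  -- search for the word
  let test : ℕ → ℕ → Bool := fun n e =>
    match (Encodable.decode e : Option (List (Fin t))) with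
    | some w => decide (num (bits w) = n)
    | none => false
  have htest : Primrec₂ test := by
    refine Primrec₂.mk ?_
    have h1 : Primrec (fun p : ℕ × ℕ => (Encodable.decode p.2 : Option (List (Fin t)))) :=
      Primrec.decode.comp Primrec.snd
    have h2 : Primrec₂ (fun (p : ℕ × ℕ) (w : List (Fin t)) => decide (num (bits w) = p.1)) := by
      refine Primrec₂.mk (PrimrecPred.decide ?_)
      exact Primrec.eq.comp (primrec_wnum.comp Primrec.snd) (Primrec.fst.comp Primrec.fst)
    refine (Primrec.option_casesOn h1 (Primrec.const false) h2).of_eq fun p => ?_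
    simp only [test]
    rcases (Encodable.decode p.2 : Option (List (Fin t))) with _ | w <;> rfl
  let g : ℕ →. ℕ := fun n => Nat.rfind (fun e => Part.some (test n e))
  have hg : Partrec g := by
    exact Partrec.rfind htest.to_comp.partrec₂
  let h : ℕ →. List (Fin t) := fun n => (g n).bind fun e =>
    (Part.ofOption (Encodable.decode e : Option (List (Fin t))))
  have hh : Partrec h := by
    refine Partrec.bind hg ?_
    exact (Computable.ofOption (Computable.decode.comp Computable.snd))
  refine ⟨fun n => (h n).bind fun w => (Part.assert (L w) fun _ => Part.some ()).map fun _ => 0, ?_, ?_⟩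
  · refine Partrec.bind hh ?_
    have h1 : Partrec (fun w : List (Fin t) => Part.assert (L w) fun _ => Part.some ()) := hL
    have h2 := h1.map (g := fun _ _ => (0 : ℕ)) (Computable.const 0).to₂
    exact h2.comp Computable.snd
  · intro w
    have hmem : w ∈ h (num (bits w)) := by
      have hd : (Nat.rfind (fun e => Part.some (test (num (bits w)) e))).Dom := by
        rw [Nat.rfind_dom']
        refine ⟨Encodable.encode w, ?_, fun {m} _ => trivial⟩
        simp [test]
      have hm := Part.get_mem hd
      have hs := Nat.rfind_spec hm
      simp only [Part.mem_some_iff] at hs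
      have hdec : (Encodable.decode ((Nat.rfind (fun e => Part.some (test (num (bits w)) e))).get hd) :
          Option (List (Fin t))) = some w := by
        simp only [test] at hs
        rcases hdc : (Encodable.decode ((Nat.rfind (fun e => Part.some (test (num (bits w)) e))).get hd) :
          Option (List (Fin t))) with _ | w'
        · simp only [test] at hdc
          rw [hdc] at hs
          exact absurd hs (by simp)
        · simp only [test] at hdc
          rw [hdc] at hs
          have h3 : num (bits w') = num (bits w) := by simpa using hs.symm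
          rw [bits_injective (num_injective h3)]
      refine Part.mem_bind_iff.2 ⟨_, hm, ?_⟩
      rw [hdec]
      exact Part.mem_some _
    have he : h (num (bits w)) = Part.some w := Part.eq_some_iff.2 hmem
    simp only [he, Part.bind_some]
    constructor
    · intro hd
      exact hd.1
    · intro hw
      exact ⟨hw, trivial⟩

/-! ### streams -/

theorem dom_iff_stream {S : Type} (P : S → S → List S) (w : List S) :
    (StateTransition.eval (qf P) w).Dom ↔
      ∃ (ps : List (S × S)) (e : List S), e.length ≤ 1 ∧
        ps.flatMap (fun q => [q.1, q.2]) ++ e = w ++ ps.flatMap (fun q => P q.1 q.2) := by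
  constructor
  · intro hd
    obtain ⟨b, hb⟩ := Part.dom_iff_mem.1 hd
    obtain ⟨hr, hn⟩ := StateTransition.mem_eval.1 hb
    have hb0 : b = [] := by
      rcases b with _ | ⟨x, _ | ⟨y, t⟩⟩
      · rfl
      · simp [qf] at hn
      · simp [qf] at hn
    subst hb0
    clear hd hb hn
    induction hr using ReflTransGen.head_induction_on with
    | refl => exact ⟨[], [], by simp, by simp⟩
    | @head a c hac _ ih =>
      obtain ⟨ps, e, he, h⟩ := ih
      rcases a with _ | ⟨x, _ | ⟨y, s⟩⟩
      · simp [qf] at hac
      · exact ⟨[], [x], by simp, by simp⟩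
      · have hc : c = s ++ P x y := by simpa [qf] using hac.symm
        subst hc
        refine ⟨(x, y) :: ps, e, he, ?_⟩
        simp only [List.flatMap_cons, List.cons_append, List.nil_append]
        rw [h]
        simp
  · rintro ⟨ps, e, he, h⟩
    induction ps generalizing w with
    | nil =>
      simp only [List.flatMap_nil, List.nil_append, List.append_nil] at h
      subst h
      rcases e with _ | ⟨x, _ | ⟨y, s⟩⟩
      · exact Part.dom_iff_mem.2 ⟨[], StateTransition.mem_eval.2 ⟨ReflTransGen.refl, rfl⟩⟩
      · exact Part.dom_iff_mem.2 ⟨[], StateTransition.mem_eval.2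
          ⟨ReflTransGen.single (by exact rfl), rfl⟩⟩
      · simp at he
    | cons q ps ih =>
      rcases w with _ | ⟨x, _ | ⟨y, s⟩⟩
      · exact Part.dom_iff_mem.2 ⟨[], StateTransition.mem_eval.2 ⟨ReflTransGen.refl, rfl⟩⟩
      · exact Part.dom_iff_mem.2 ⟨[], StateTransition.mem_eval.2
          ⟨ReflTransGen.single (by exact rfl), rfl⟩⟩
      · simp only [List.flatMap_cons, List.cons_append, List.nil_append, List.cons.injEq] at h
        obtain ⟨h1, h2, h3⟩ := h
        have h4 := ih (s ++ P x y) (by rw [h3, ← h1, ← h2]; simp)
        rwa [StateTransition.reaches_eval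
            (ReflTransGen.single (by exact rfl) : Reaches (qf P) (x :: y :: s) (s ++ P x y))]

/-- The representation of recursively enumerable languages. -/
theorem exists_stream (L : List (Fin t) → Prop) (hL : REPred L) :
    ∃ (K : ℕ) (P : Fin K → Fin K → List (Fin K)) (p0 : List (Fin K)) (z : Fin t → List (Fin K)),
      ∀ w, L w ↔ ∃ (ps : List (Fin K × Fin K)) (e : List (Fin K)), e.length ≤ 1 ∧
        ps.flatMap (fun q => [q.1, q.2]) ++ e =
          p0 ++ w.flatMap z ++ ps.flatMap (fun q => P q.1 q.2) := by
  classical
  obtain ⟨f, hf, hfL⟩ := exists_partial L hL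
  obtain ⟨Λ, i1, i2, M, hM⟩ := exists_machine_of f hf
  let S := Queue.Sym (TM2to1.Γ' PartrecToTM2.K' (fun _ => PartrecToTM2.Γ')) Λ
  have fK : Finite PartrecToTM2.K' := by
    refine Finite.of_injective (fun k : PartrecToTM2.K' => match k with
      | .main => (0 : Fin 4)
      | .rev => 1
      | .aux => 2
      | .stack => 3) ?_
    intro a b h
    cases a <;> cases b <;> simp_all
  have fG : Finite (TM2to1.Γ' PartrecToTM2.K' (fun _ => PartrecToTM2.Γ')) :=
    inferInstanceAs (Finite (Bool × (PartrecToTM2.K' → Option PartrecToTM2.Γ')))
  have fS : Finite S := inferInstanceAs (Finite (Queue.Sym _ _))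
  let _ : Fintype S := Fintype.ofFinite S
  let e := Fintype.equivFin S
  let P : S → S → List S := Queue.prod M
  let p0 : List S := [Queue.Sym.mark, Queue.Sym.head default (sym true .cons),
    Queue.Sym.cell (sym false (dig true))]
  let z : Fin t → List S := fun a => (blk a).map (fun b => Queue.Sym.cell (sym false (dig b)))
  refine ⟨Fintype.card S, mapP P e, p0.map e, fun a => (z a).map e, fun w => ?_⟩
  rw [← dom_iff_stream, ← hfL w, ← hM]
  have h1 : p0.map e ++ w.flatMap (fun a => (z a).map e) = (p0 ++ w.flatMap z).map e := by
    rw [List.map_append, List.map_flatMap]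
  rw [h1, eval_map_iff]
  have h2 : p0 ++ w.flatMap z = initWord (sym true .cons ::
      (trNat (num (bits w))).reverse.map (sym false)) := by
    rw [trNat_num]
    unfold initWord
    rw [if_pos]
    · simp only [p0, List.headI_cons, List.tail_cons, List.map_cons, List.cons_append,
        List.nil_append, List.map_map, z]
      congr 3
      simp only [bits, List.map_flatMap]
      rfl
    · simp only [List.map_cons, List.length_cons, List.length_map, bits_length]
      omega
  rw [h2]
  exact (eval_rep_iff M (rep_init (sym true .cons ::
      (trNat (num (bits w))).reverse.map (sym false)) (by simp))).symm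

end Pool.R570.EPC
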