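import Pool.Agent.R570.ET0LDefs

/-!
# k-restricted ET0L systems: the compilation of a finite control program
-/

namespace Pool.Agent.R570.ET0L

/-! ## Basic facts about steps -/

section Basic

variable {S S' : Type}

theorem step_nil (h : S → Set (List S')) (y : List S') : Step h [] y ↔ y = [] := by
  constructor
  · rintro ⟨ws, hw, rfl⟩
    rw [List.forall₂_nil_left_iff] at hw
    subst hw; rfl
  · rintro rfl
    exact ⟨[], List.Forall₂.nil, rfl⟩

theorem step_cons (h : S → Set (List S')) (c : S) (x : List S) (y : List S') :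
    Step h (c :: x) y ↔ ∃ w ∈ h c, ∃ y', Step h x y' ∧ y = w ++ y' := by
  constructor
  · rintro ⟨ws, hw, rfl⟩
    rw [List.forall₂_cons_left_iff] at hw
    obtain ⟨w, ws', hw1, hw2, rfl⟩ := hw
    exact ⟨w, hw1, ws'.flatten, ⟨ws', hw2, rfl⟩, by simp⟩
  · rintro ⟨w, hw, y', ⟨ws, hws, rfl⟩, rfl⟩
    exact ⟨w :: ws, List.Forall₂.cons hw hws, by simp⟩

theorem step_append (h : S → Set (List S')) (a b : List S) (y : List S') :
    Step h (a ++ b) y ↔ ∃ c d, y = c ++ d ∧ Step h a c ∧ Step h b d := by
  induction a generalizing y with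
  | nil =>
    simp only [List.nil_append, step_nil]
    constructor
    · intro hy; exact ⟨[], y, rfl, rfl, hy⟩
    · rintro ⟨c, d, rfl, rfl, hd⟩; simpa using hd
  | cons s a ih =>
    simp only [List.cons_append, step_cons]
    constructor
    · rintro ⟨w, hw, y', hy', rfl⟩
      obtain ⟨c, d, rfl, hc, hd⟩ := (ih y').1 hy'
      exact ⟨w ++ c, d, by simp, ⟨w, hw, c, hc, rfl⟩, hd⟩
    · rintro ⟨c, d, rfl, ⟨w, hw, y', hy', rfl⟩, hd⟩
      exact ⟨w, hw, y' ++ d, (ih _).2 ⟨y', d, rfl, hy', hd⟩, by simp⟩

theorem step_det (h : S → Set (List S')) (f : S → List S') (x : List S) (y : List S') (hf : ∀ s ∈ x, h s = {f s}) :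
    Step h x y ↔ y = x.flatMap f := by
  induction x generalizing y with
  | nil => simp [step_nil]
  | cons s x ih =>
    rw [step_cons, hf s (by simp)]
    have ih' := fun y => ih y (fun s hs => hf s (by simp [hs]))
    constructor
    · rintro ⟨w, hw, y', hy', rfl⟩
      rw [Set.mem_singleton_iff] at hw
      rw [ih'] at hy'
      subst hw hy'
      simp
    · rintro rfl
      exact ⟨f s, rfl, x.flatMap f, (ih' _).2 rfl, by simp⟩

theorem step_det_map (h : S → Set (List S')) (f : S → S') (x : List S) (y : List S') (hf : ∀ s ∈ x, h s = {[f s]}) :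
    Step h x y ↔ y = x.map f := by
  rw [step_det h (fun s => [f s]) x y hf]
  have : ∀ l : List S, l.flatMap (fun s => [f s]) = l.map f := by
    intro l
    induction l with
    | nil => rfl
    | cons a l ih => rw [List.flatMap_cons, ih]; rfl
  rw [this]

theorem step_mem (h : Table S) (d : S) (hd : h d = {[d]}) (x y : List S) (hxy : Step h x y)
    (hdx : d ∈ x) : d ∈ y := by
  induction x generalizing y with
  | nil => simp at hdx
  | cons s x ih =>
    rw [step_cons] at hxy
    obtain ⟨w, hw, y', hy', rfl⟩ := hxy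
    rw [List.mem_append]
    rcases List.mem_cons.1 hdx with rfl | h1
    · rw [hd, Set.mem_singleton_iff] at hw
      left; subst hw; simp
    · right; exact ih y' hy' h1

theorem step_mem' (h : Table S) (s d : S) (hd : h s = {[d]}) (x y : List S) (hxy : Step h x y)
    (hdx : s ∈ x) : d ∈ y := by
  induction x generalizing y with
  | nil => simp at hdx
  | cons s' x ih =>
    rw [step_cons] at hxy
    obtain ⟨w, hw, y', hy', rfl⟩ := hxy
    rw [List.mem_append]
    rcases List.mem_cons.1 hdx with rfl | h1
    · rw [hd, Set.mem_singleton_iff] at hw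
      left; subst hw; simp
    · right; exact ih y' hy' h1

theorem step_comp {S'' : Type} (h : S → Set (List S')) (g : S' → Set (List S''))
    (x : List S) (y : List S'') :
    Step (fun s => {w | ∃ v ∈ h s, Step g v w}) x y ↔ ∃ u, Step h x u ∧ Step g u y := by
  induction x generalizing y with
  | nil =>
    simp only [step_nil]
    constructor
    · rintro rfl; exact ⟨[], rfl, (step_nil g _).2 rfl⟩
    · rintro ⟨u, rfl, hu⟩; exact (step_nil g _).1 hu
  | cons s x ih =>
    simp only [step_cons]
    constructor
    · rintro ⟨w, ⟨v, hv, hw⟩, y', hy', rfl⟩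
      obtain ⟨u, hu, hy⟩ := (ih y').1 hy'
      exact ⟨v ++ u, ⟨v, hv, u, hu, rfl⟩, (step_append g _ _ _).2 ⟨w, y', rfl, hw, hy⟩⟩
    · rintro ⟨_, ⟨v, hv, u, hu, rfl⟩, hy⟩
      obtain ⟨w, y', rfl, hw, hy'⟩ := (step_append g _ _ _).1 hy
      exact ⟨w, ⟨v, hv, hw⟩, y', (ih y').2 ⟨u, hu, hy'⟩, rfl⟩

theorem step_image {S'' : Type} (h : S → Set (List S')) (f : S' → S'')
    (x : List S) (y : List S'') :
    Step (fun s => (List.map f) '' (h s)) x y ↔ ∃ u, Step h x u ∧ y = u.map f := by
  induction x generalizing y with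
  | nil =>
    simp only [step_nil]
    constructor
    · rintro rfl; exact ⟨[], rfl, rfl⟩
    · rintro ⟨u, rfl, rfl⟩; rfl
  | cons s x ih =>
    simp only [step_cons]
    constructor
    · rintro ⟨w, ⟨v, hv, rfl⟩, y', hy', rfl⟩
      obtain ⟨u, hu, rfl⟩ := (ih y').1 hy'
      exact ⟨v ++ u, ⟨v, hv, u, hu, rfl⟩, by simp⟩
    · rintro ⟨_, ⟨v, hv, u, hu, rfl⟩, rfl⟩
      exact ⟨v.map f, ⟨v, hv, rfl⟩, u.map f, (ih _).2 ⟨u, hu, rfl⟩, by simp⟩

end Basic

/-! ## Programs -/

/-- A finite control program acting on words over `W ⊕ T`: the instruction `a` leads from the state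
`src a` to the state `dst a` and rewrites the letter `letter a` (if there is one) by the finite
set of words `sub a`. -/
structure Prog (T : Type) where
  W : Type
  Q : Type
  Ix : Type
  finW : Finite W
  finQ : Finite Q
  finIx : Finite Ix
  src : Ix → Q
  dst : Ix → Q
  ne : ∀ a, src a ≠ dst a
  letter : Ix → Option W
  sub : Ix → Set (List (W ⊕ T))
  sub_ok : ∀ a, (sub a).Finite ∧ (sub a).Nonempty
  q0 : Q
  qf : Q
  start : List (W ⊕ T)
  start_ne : start ≠ []
  q0_ne : q0 ≠ qf

variable {T : Type}

open Classical in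
/-- The table rewriting the letter `l` (if there is one) by the words of `A`, and nothing else. -/
noncomputable def mkTab {W T : Type} (l : Option W) (A : Set (List (W ⊕ T))) : Table (W ⊕ T) :=
  fun s => match s with
  | Sum.inl x => if l = some x then A else {[Sum.inl x]}
  | Sum.inr t => {[Sum.inr t]}

/-- The substitution of an instruction. -/
noncomputable def Prog.tab (P : Prog T) (a : P.Ix) : Table (P.W ⊕ T) :=
  mkTab (P.letter a) (P.sub a)

def Prog.Rew (P : Prog T) (c d : P.Q × List (P.W ⊕ T)) : Prop :=
  ∃ a, P.src a = c.1 ∧ P.dst a = d.1 ∧ Step (P.tab a) c.2 d.2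

def Prog.Reach (P : Prog T) (c : P.Q × List (P.W ⊕ T)) : Prop :=
  Relation.ReflTransGen P.Rew (P.q0, P.start) c

def Prog.language (P : Prog T) : Set (List T) :=
  {w | P.Reach (P.qf, w.map Sum.inr)}

/-- In the final state only terminal letters and letters that no instruction rewrites occur. -/
def Prog.Clean (P : Prog T) : Prop :=
  ∀ x, P.Reach (P.qf, x) → ∀ n, Sum.inl n ∈ x → ∀ a, P.letter a ≠ some n

/-- The nonterminal letters of the compiled system. -/
inductive NT (W Q : Type) : Type
  | w (x : W) : NT W Q
  | z (q : Q) : NT W Q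
  | dead : NT W Q

instance {W Q : Type} [Finite W] [Finite Q] : Finite (NT W Q) := by
  have : Function.Surjective (fun s : (W ⊕ Q) ⊕ Unit => (match s with
    | Sum.inl (Sum.inl x) => NT.w x
    | Sum.inl (Sum.inr q) => NT.z q
    | Sum.inr _ => NT.dead : NT W Q)) := by
    intro s
    cases s with
    | w x => exact ⟨Sum.inl (Sum.inl x), rfl⟩
    | z q => exact ⟨Sum.inl (Sum.inr q), rfl⟩
    | dead => exact ⟨Sum.inr (), rfl⟩
  exact Finite.of_surjective _ this

/-- Work letters inside the compiled alphabet. -/
def emb {W Q T : Type} : W ⊕ T → NT W Q ⊕ T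
  | Sum.inl x => Sum.inl (NT.w x)
  | Sum.inr t => Sum.inr t

theorem emb_inj {W Q T : Type} : Function.Injective (emb : W ⊕ T → NT W Q ⊕ T) := by
  intro a b h
  cases a <;> cases b <;> simp_all [emb]

/-- Control letters inside the compiled alphabet. -/
def zz {W Q T : Type} (q : Q) : NT W Q ⊕ T := Sum.inl (NT.z q)

open Classical in
/-- The table of an instruction: absence of the letter `z (src a)` is checked, `z (dst a)` is
renamed `z (src a)`, and the work letter is rewritten. -/
noncomputable def ctab (P : Prog T) (a : P.Ix) : Table (NT P.W P.Q ⊕ T) := fun s =>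
  match s with
  | Sum.inl (NT.w x) =>
      if P.letter a = some x then (P.sub a).image (List.map emb) else {[Sum.inl (NT.w x)]}
  | Sum.inl (NT.z q) =>
      if q = P.src a then {[Sum.inl NT.dead]}
      else if q = P.dst a then {[Sum.inl (NT.z (P.src a))]} else {[Sum.inl (NT.z q)]}
  | Sum.inl NT.dead => {[Sum.inl NT.dead]}
  | Sum.inr t => {[Sum.inr t]}

open Classical in
/-- The table erasing the control letter `z q` in the final state. -/
noncomputable def etab (P : Prog T) (q : P.Q) : Table (NT P.W P.Q ⊕ T) := fun s =>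
  match s with
  | Sum.inl (NT.w x) => {[Sum.inl (NT.w x)]}
  | Sum.inl (NT.z q') =>
      if q' = P.qf then {[Sum.inl NT.dead]}
      else if q' = q then {[]} else {[Sum.inl (NT.z q')]}
  | Sum.inl NT.dead => {[Sum.inl NT.dead]}
  | Sum.inr t => {[Sum.inr t]}

/-- Sentential forms: a work word followed by the control letters. -/
def form {W Q T : Type} (x : List (W ⊕ T)) (z : List Q) : List (NT W Q ⊕ T) :=
  x.map emb ++ z.map zz

theorem ctab_work (P : Prog T) (a : P.Ix) (x : List (P.W ⊕ T)) (u : List (NT P.W P.Q ⊕ T)) :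
    Step (ctab P a) (x.map emb) u ↔ ∃ x', Step (P.tab a) x x' ∧ u = x'.map emb := by
  induction x generalizing u with
  | nil =>
    simp only [List.map_nil, step_nil]
    constructor
    · rintro rfl; exact ⟨[], rfl, rfl⟩
    · rintro ⟨x', rfl, rfl⟩; rfl
  | cons s x ih =>
    simp only [List.map_cons, step_cons]
    constructor
    · rintro ⟨w, hw, y', hy', rfl⟩
      obtain ⟨x', hx', rfl⟩ := (ih y').1 hy'
      cases s with
      | inl n =>
        by_cases hn : P.letter a = some n
        · simp only [emb, ctab, hn, if_true] at hw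
          obtain ⟨v, hv, rfl⟩ := hw
          exact ⟨v ++ x', ⟨v, by simpa [Prog.tab, mkTab, hn] using hv, x', hx', rfl⟩, by simp⟩
        · simp only [emb, ctab, hn, if_false, Set.mem_singleton_iff] at hw
          subst hw
          exact ⟨[Sum.inl n] ++ x', ⟨[Sum.inl n], by simp [Prog.tab, mkTab, hn], x', hx', rfl⟩,
            by simp [emb]⟩
      | inr t =>
        simp only [emb, ctab, Set.mem_singleton_iff] at hw
        subst hw
        exact ⟨[Sum.inr t] ++ x', ⟨[Sum.inr t], by simp [Prog.tab, mkTab], x', hx', rfl⟩,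
            by simp [emb]⟩
    · rintro ⟨x', ⟨w, hw, y', hy', rfl⟩, rfl⟩
      refine ⟨w.map emb, ?_, y'.map emb, (ih _).2 ⟨y', hy', rfl⟩, by simp⟩
      cases s with
      | inl n =>
        by_cases hn : P.letter a = some n
        · simp only [Prog.tab, mkTab, hn, if_true] at hw
          simp only [emb, ctab, hn, if_true]
          exact ⟨w, hw, rfl⟩
        · simp only [Prog.tab, mkTab, hn, if_false, Set.mem_singleton_iff] at hw
          subst hw
          simp [emb, ctab, hn]
      | inr t =>
        simp only [Prog.tab, mkTab, Set.mem_singleton_iff] at hw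
        subst hw
        simp [emb, ctab]

open Classical in
theorem ctab_control (P : Prog T) (a : P.Ix) (z : List P.Q) (hz : P.src a ∉ z)
    (u : List (NT P.W P.Q ⊕ T)) :
    Step (ctab P a) (z.map zz) u ↔
      u = (z.map (fun q => if q = P.dst a then P.src a else q)).map zz := by
  induction z generalizing u with
  | nil => simp [step_nil]
  | cons q z ih =>
    rw [List.mem_cons, not_or] at hz
    simp only [List.map_cons, step_cons]
    have key : ctab P a (zz q) = {[zz (if q = P.dst a then P.src a else q)]} := by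
      have : ¬ (q = P.src a) := fun h => hz.1 h.symm
      by_cases hd : q = P.dst a
      · subst hd
        simp [ctab, zz, this]
      · simp [ctab, zz, this, hd]
    rw [key]
    constructor
    · rintro ⟨w, hw, y', hy', rfl⟩
      rw [Set.mem_singleton_iff] at hw
      rw [ih hz.2] at hy'
      subst hw hy'
      rfl
    · rintro rfl
      exact ⟨_, rfl, _, (ih hz.2 _).2 rfl, rfl⟩

theorem etab_work (P : Prog T) (q : P.Q) (x : List (P.W ⊕ T)) (u : List (NT P.W P.Q ⊕ T)) :
    Step (etab P q) (x.map emb) u ↔ u = x.map emb := by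
  rw [step_det_map (etab P q) id]
  · simp
  · intro s hs
    rw [List.mem_map] at hs
    obtain ⟨n, -, rfl⟩ := hs
    cases n <;> simp [emb, etab]

open Classical in
theorem etab_control (P : Prog T) (q : P.Q) (z : List P.Q) (hz : P.qf ∉ z)
    (u : List (NT P.W P.Q ⊕ T)) :
    Step (etab P q) (z.map zz) u ↔ u = (z.filter (fun q' => q' ≠ q)).map zz := by
  induction z generalizing u with
  | nil => simp [step_nil]
  | cons q' z ih =>
    rw [List.mem_cons, not_or] at hz
    simp only [List.map_cons, step_cons]
    have hne : ¬ (q' = P.qf) := fun h => hz.1 h.symm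
    by_cases hd : q' = q
    · subst hd
      have key : etab P q' (zz q') = {[]} := by simp [etab, zz, hne]
      rw [key]
      constructor
      · rintro ⟨w, hw, y', hy', rfl⟩
        rw [Set.mem_singleton_iff] at hw
        rw [ih hz.2] at hy'
        subst hw hy'
        simp
      · rintro rfl
        exact ⟨[], rfl, _, (ih hz.2 _).2 rfl, by simp⟩
    · have key : etab P q (zz q') = {[zz q']} := by simp [etab, zz, hne, hd]
      rw [key]
      constructor
      · rintro ⟨w, hw, y', hy', rfl⟩
        rw [Set.mem_singleton_iff] at hw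
        rw [ih hz.2] at hy'
        subst hw hy'
        simp [hd]
      · rintro rfl
        exact ⟨[zz q'], rfl, _, (ih hz.2 _).2 rfl, by simp [hd]⟩

/-- All states but one, as a list. -/
theorem exists_states (P : Prog T) :
    ∃ z : List P.Q, z.Nodup ∧ ∀ q, q ∈ z ↔ q ≠ P.q0 := by
  classical
  haveI := P.finQ
  haveI := Fintype.ofFinite P.Q
  refine ⟨(Finset.univ.erase P.q0).toList, Finset.nodup_toList _, fun q => ?_⟩
  simp

/-- The control letters of the starting word. -/
noncomputable def z0 (P : Prog T) : List P.Q := (exists_states P).choose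

theorem z0_spec (P : Prog T) : (z0 P).Nodup ∧ ∀ q, q ∈ z0 P ↔ q ≠ P.q0 :=
  (exists_states P).choose_spec

/-- The compiled system. -/
noncomputable def compile (P : Prog T) : System T where
  N := NT P.W P.Q
  finite_N := by haveI := P.finW; haveI := P.finQ; infer_instance
  tables := Set.range (ctab P) ∪ Set.range (etab P)
  tables_finite := by
    haveI := P.finIx; haveI := P.finQ
    exact (Set.finite_range _).union (Set.finite_range _)
  tables_nonempty := ⟨etab P P.q0, Or.inr ⟨_, rfl⟩⟩
  entries := by
    classical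
    rintro h (⟨a, rfl⟩ | ⟨q, rfl⟩) c
    · obtain ⟨c | q | _⟩ | t := c
      · by_cases hn : P.letter a = some c
        · simp only [ctab, hn, if_true]
          exact ⟨(P.sub_ok a).1.image _, (P.sub_ok a).2.image _⟩
        · simp [ctab, hn]
      · simp only [ctab]
        split_ifs <;> simp
      · simp [ctab]
      · simp [ctab]
    · obtain ⟨c | q' | _⟩ | t := c
      · simp [etab]
      · simp only [etab]
        split_ifs <;> simp
      · simp [etab]
      · simp [etab]
  start := form P.start (z0 P)
  start_ne := by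
    have := P.start_ne
    simp [form, this]

theorem encard_le_three {α : Type} {s : Set α} (a b c : α) (h : s ⊆ {a, b, c}) :
    s.encard ≤ (3 : ℕ) := by
  refine (Set.encard_le_encard h).trans ?_
  refine (Set.encard_insert_le _ _).trans ?_
  have h1 : ({b, c} : Set α).encard ≤ 2 := by
    refine (Set.encard_insert_le _ _).trans ?_
    rw [Set.encard_singleton]; norm_num
  calc ({b, c} : Set α).encard + 1 ≤ 2 + 1 := by gcongr
    _ = ((3 : ℕ) : ℕ∞) := by norm_num

theorem compile_restricted (P : Prog T) : (compile P).Restricted 3 := by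
  classical
  rintro h (⟨a, rfl⟩ | ⟨q, rfl⟩)
  · -- instruction
    have key : ∀ w0 : NT P.W P.Q ⊕ T, (∀ x, P.letter a = some x → w0 = Sum.inl (NT.w x)) →
        {c | ctab P a c ≠ {[c]}} ⊆ {w0, zz (P.src a), zz (P.dst a)} := by
      intro w0 hw0 c hc
      replace hc : ctab P a c ≠ {[c]} := hc
      simp only [Set.mem_insert_iff, Set.mem_singleton_iff]
      obtain ⟨c | q | _⟩ | t := c
      · by_cases hn : P.letter a = some c
        · left; exact (hw0 c hn).symm
        · exact absurd (by simp [ctab, hn]) hc
      · right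
        by_cases h1 : q = P.src a
        · left; rw [h1]; rfl
        · by_cases h2 : q = P.dst a
          · right; rw [h2]; rfl
          · exact absurd (by simp [ctab, h1, h2]) hc
      · exact absurd (by simp [ctab]) hc
      · exact absurd (by simp [ctab]) hc
    rcases hl : P.letter a with _ | x
    · exact encard_le_three _ _ _ (key (zz (P.src a)) (by intro x hx; rw [hl] at hx; cases hx))
    · exact encard_le_three _ _ _ (key (Sum.inl (NT.w x))
        (by intro y hy; rw [hl] at hy; cases hy; rfl))
  · -- eraser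
    refine encard_le_three (α := NT P.W P.Q ⊕ T) (zz P.qf) (zz P.qf) (zz q) ?_
    intro c hc
    replace hc : etab P q c ≠ {[c]} := hc
    simp only [Set.mem_insert_iff, Set.mem_singleton_iff]
    obtain ⟨c | q' | _⟩ | t := c
    · exact absurd (by simp [etab]) hc
    · by_cases h1 : q' = P.qf
      · left; rw [h1]; rfl
      · by_cases h2 : q' = q
        · right; right; rw [h2]; rfl
        · exact absurd (by simp [etab, h1, h2]) hc
    · exact absurd (by simp [etab]) hc
    · exact absurd (by simp [etab]) hc

/-! ### Soundness of the compilation -/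

/-- The invariant of the derivations of the compiled system. -/
def Good (P : Prog T) (u : List (NT P.W P.Q ⊕ T)) : Prop :=
  Sum.inl NT.dead ∈ u ∨
  (∃ q x z, P.Reach (q, x) ∧ z.Nodup ∧ (∀ q', q' ∈ z ↔ q' ≠ q) ∧ u = form x z) ∨
  (∃ x z, P.Reach (P.qf, x) ∧ u = form x z)

theorem good_start (P : Prog T) : Good P (form P.start (z0 P)) :=
  Or.inr (Or.inl ⟨P.q0, P.start, z0 P, Relation.ReflTransGen.refl, (z0_spec P).1, (z0_spec P).2,
    rfl⟩)

open Classical in
theorem rename_spec (Q : Type) (i j : Q) (hij : i ≠ j) (z : List Q) (hz : z.Nodup)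
    (hm : ∀ q', q' ∈ z ↔ q' ≠ i) :
    (z.map (fun q => if q = j then i else q)).Nodup ∧
      ∀ q', q' ∈ z.map (fun q => if q = j then i else q) ↔ q' ≠ j := by
  constructor
  · apply List.Nodup.map_on _ hz
    intro a ha b hb hab
    rw [hm] at ha hb
    by_cases h1 : a = j <;> by_cases h2 : b = j
    · rw [h1, h2]
    · simp only [h1, h2, if_true, if_false] at hab
      exact absurd hab.symm hb
    · simp only [h1, h2, if_true, if_false] at hab
      exact absurd hab ha
    · simpa [h1, h2] using hab
  · intro q'
    rw [List.mem_map]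
    constructor
    · rintro ⟨a, ha, rfl⟩
      by_cases h1 : a = j
      · simp [h1, hij]
      · simp [h1]
    · intro hq
      by_cases h1 : q' = i
      · exact ⟨j, (hm j).2 (fun h => hij h.symm), by simp [h1]⟩
      · exact ⟨q', (hm q').2 h1, by simp [hq]⟩

theorem dead_fixed (P : Prog T) (h : Table (NT P.W P.Q ⊕ T)) (hh : h ∈ (compile P).tables) :
    h (Sum.inl NT.dead) = {[Sum.inl NT.dead]} := by
  rcases hh with ⟨a, rfl⟩ | ⟨q, rfl⟩ <;> simp [ctab, etab]

theorem form_step (P : Prog T) (h : Table (NT P.W P.Q ⊕ T)) (x : List (P.W ⊕ T)) (z : List P.Q)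
    (u : List (NT P.W P.Q ⊕ T)) (hu : Step h (form x z) u) :
    ∃ c d, u = c ++ d ∧ Step h (x.map emb) c ∧ Step h (z.map zz) d :=
  (step_append h _ _ _).1 hu

theorem tab_inert (P : Prog T) (a : P.Ix) (x y : List (P.W ⊕ T))
    (hx : ∀ n, Sum.inl n ∈ x → ∀ a, P.letter a ≠ some n) (h : Step (P.tab a) x y) : y = x := by
  rw [step_det_map (P.tab a) id] at h
  · simpa using h
  · intro s hs
    cases s with
    | inl n => simp [Prog.tab, mkTab, hx n hs a]
    | inr t => simp [Prog.tab, mkTab]

theorem good_step (P : Prog T) (hP : P.Clean) (u u' : List (NT P.W P.Q ⊕ T)) (hu : Good P u)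
    (h : (compile P).Rew u u') : Good P u' := by
  classical
  obtain ⟨h, hh, hst⟩ := h
  rcases hu with hu | ⟨q, x, z, hr, hz, hm, rfl⟩ | ⟨x, z, hr, rfl⟩
  · left
    exact step_mem h _ (dead_fixed P h hh) u u' hst hu
  · obtain ⟨c, d, rfl, hc, hd⟩ := form_step P h x z u' hst
    rcases hh with ⟨a, rfl⟩ | ⟨q1, rfl⟩
    · rw [ctab_work] at hc
      obtain ⟨x', hx', rfl⟩ := hc
      by_cases hs : P.src a ∈ z
      · left
        rw [List.mem_append]; right
        exact step_mem' (ctab P a) (zz (P.src a)) (Sum.inl NT.dead) (by simp [ctab, zz]) _ _ hd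
          (List.mem_map.2 ⟨_, hs, rfl⟩)
      · right; left
        rw [ctab_control P a z hs] at hd
        have hq : P.src a = q := by
          by_contra hne
          exact hs ((hm _).2 hne)
        subst hq
        obtain ⟨h1, h2⟩ := rename_spec P.Q (P.src a) (P.dst a) (P.ne a) z hz hm
        refine ⟨P.dst a, x', _, hr.tail ⟨a, rfl, rfl, hx'⟩, h1, h2, ?_⟩
        rw [hd]; rfl
    · rw [etab_work] at hc
      by_cases hs : P.qf ∈ z
      · left
        rw [List.mem_append]; right
        exact step_mem' (etab P q1) (zz P.qf) (Sum.inl NT.dead) (by simp [etab, zz]) _ _ hd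
          (List.mem_map.2 ⟨_, hs, rfl⟩)
      · right; right
        rw [etab_control P q1 z hs] at hd
        have hq : P.qf = q := by
          by_contra hne
          exact hs ((hm _).2 hne)
        subst hq
        exact ⟨x, _, hr, by rw [hc, hd]; rfl⟩
  · obtain ⟨c, d, rfl, hc, hd⟩ := form_step P h x z u' hst
    rcases hh with ⟨a, rfl⟩ | ⟨q1, rfl⟩
    · rw [ctab_work] at hc
      obtain ⟨x', hx', rfl⟩ := hc
      have hxx : x' = x := tab_inert P a x x' (fun n hn => hP x hr n hn) hx'
      subst hxx
      by_cases hs : P.src a ∈ z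
      · left
        rw [List.mem_append]; right
        exact step_mem' (ctab P a) (zz (P.src a)) (Sum.inl NT.dead) (by simp [ctab, zz]) _ _ hd
          (List.mem_map.2 ⟨_, hs, rfl⟩)
      · right; right
        rw [ctab_control P a z hs] at hd
        exact ⟨x', _, hr, by rw [hd]; rfl⟩
    · rw [etab_work] at hc
      by_cases hs : P.qf ∈ z
      · left
        rw [List.mem_append]; right
        exact step_mem' (etab P q1) (zz P.qf) (Sum.inl NT.dead) (by simp [etab, zz]) _ _ hd
          (List.mem_map.2 ⟨_, hs, rfl⟩)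
      · right; right
        rw [etab_control P q1 z hs] at hd
        exact ⟨x, _, hr, by rw [hc, hd]; rfl⟩

theorem form_eq_terminal (W Q : Type) (x : List (W ⊕ T)) (z : List Q) (w : List T)
    (h : w.map Sum.inr = form x z) : z = [] ∧ x = w.map Sum.inr := by
  have hz : z = [] := by
    by_contra hne
    obtain ⟨q, hq⟩ := List.exists_mem_of_ne_nil z hne
    have : (zz q : NT W Q ⊕ T) ∈ w.map Sum.inr := by
      rw [h, form, List.mem_append]; right; exact List.mem_map.2 ⟨q, hq, rfl⟩
    rw [List.mem_map] at this
    obtain ⟨t, -, ht⟩ := this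
    simp [zz] at ht
  subst hz
  refine ⟨rfl, ?_⟩
  simp only [form, List.map_nil, List.append_nil] at h
  have h2 : (w.map Sum.inr : List (NT W Q ⊕ T)) = (w.map (Sum.inr : T → W ⊕ T)).map emb := by
    rw [List.map_map]; rfl
  rw [h2] at h
  exact (List.map_injective_iff.2 emb_inj h).symm

theorem compile_sound (P : Prog T) (hP : P.Clean) : (compile P).language ⊆ P.language := by
  intro w hw
  have hg : ∀ u, Relation.ReflTransGen (compile P).Rew (compile P).start u → Good P u := by
    intro u hu
    induction hu with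
    | refl => exact good_start P
    | tail _ h ih => exact good_step P hP _ _ ih h
  rcases hg _ hw with h | ⟨q, x, z, hr, hz, hm, h⟩ | ⟨x, z, hr, h⟩
  · obtain ⟨t, -, ht⟩ := List.mem_map.1 h
    simp at ht
  · obtain ⟨h1, h2⟩ := form_eq_terminal _ _ _ _ _ h
    subst h1
    exfalso
    by_cases hq : q = P.q0
    · have := (hm P.qf).2 (by rw [hq]; exact P.q0_ne.symm)
      simp at this
    · have := (hm P.q0).2 (fun h => hq h.symm)
      simp at this
  · obtain ⟨h1, h2⟩ := form_eq_terminal _ _ _ _ _ h
    subst h2
    exact hr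

/-! ### Completeness of the compilation -/

theorem compile_reach (P : Prog T) (c : P.Q × List (P.W ⊕ T)) (h : P.Reach c) :
    ∃ z : List P.Q, z.Nodup ∧ (∀ q', q' ∈ z ↔ q' ≠ c.1) ∧
      Relation.ReflTransGen (compile P).Rew (compile P).start (form c.2 z) := by
  classical
  induction h with
  | refl => exact ⟨z0 P, (z0_spec P).1, (z0_spec P).2, Relation.ReflTransGen.refl⟩
  | @tail b c _ hbc ih =>
    obtain ⟨z, hz, hm, hr⟩ := ih
    obtain ⟨a, ha1, ha2, hst⟩ := hbc
    have hs : P.src a ∉ z := by rw [hm, ha1]; simp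
    obtain ⟨h1, h2⟩ := rename_spec P.Q (P.src a) (P.dst a) (P.ne a) z hz
      (by intro q'; rw [hm, ha1])
    refine ⟨_, h1, by intro q'; rw [h2, ha2], hr.tail ⟨ctab P a, Or.inl ⟨a, rfl⟩, ?_⟩⟩
    exact (step_append _ _ _ _).2
      ⟨_, _, rfl, (ctab_work P a _ _).2 ⟨c.2, hst, rfl⟩, (ctab_control P a z hs _).2 rfl⟩

theorem erase_all (P : Prog T) (x : List (P.W ⊕ T)) (n : ℕ) :
    ∀ z : List P.Q, z.length ≤ n → P.qf ∉ z →
      Relation.ReflTransGen (compile P).Rew (form x z) (x.map emb) := by
  classical
  induction n with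
  | zero =>
    intro z hz _
    have : z = [] := List.length_eq_zero_iff.1 (Nat.le_zero.1 hz)
    subst this
    simp only [form, List.map_nil, List.append_nil]
    exact Relation.ReflTransGen.refl
  | succ n ih =>
    intro z hz hf
    rcases z with _ | ⟨q, z⟩
    · simp only [form, List.map_nil, List.append_nil]
      exact Relation.ReflTransGen.refl
    · have hlen : ((q :: z).filter (fun q' => q' ≠ q)).length ≤ n := by
        have h1 : (q :: z).filter (fun q' => q' ≠ q) = z.filter (fun q' => q' ≠ q) := by simp
        rw [h1]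
        have h2 := List.length_filter_le (fun q' => decide (q' ≠ q)) z
        simp only [List.length_cons] at hz
        omega
      have hf' : P.qf ∉ (q :: z).filter (fun q' => q' ≠ q) := fun h => hf (List.mem_of_mem_filter h)
      refine Relation.ReflTransGen.head ?_ (ih _ hlen hf')
      refine ⟨etab P q, Or.inr ⟨q, rfl⟩, ?_⟩
      exact (step_append _ _ _ _).2
        ⟨_, _, rfl, (etab_work P q x _).2 rfl, (etab_control P q (q :: z) hf _).2 rfl⟩

theorem compile_complete (P : Prog T) : P.language ⊆ (compile P).language := by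
  intro w hw
  obtain ⟨z, -, hm, hr⟩ := compile_reach P _ hw
  have hf : P.qf ∉ z := by rw [hm]; simp
  have h2 := erase_all P (w.map Sum.inr) z.length z le_rfl hf
  have h3 : ((w.map (Sum.inr : T → P.W ⊕ T)).map emb : List (NT P.W P.Q ⊕ T)) = w.map Sum.inr := by
    rw [List.map_map]; rfl
  exact Eq.subst (motive := fun l => Relation.ReflTransGen (compile P).Rew (compile P).start l)
    h3 (hr.trans h2)

theorem compile_language (P : Prog T) (hP : P.Clean) : (compile P).language = P.language :=
  Set.Subset.antisymm (compile_sound P hP) (compile_complete P)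

end Pool.Agent.R570.ET0L
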