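import Mathlib

/-!
# k-restricted ET0L systems: definitions
-/

namespace Pool.Agent.R570.ET0L

/-- A table over the alphabet `S`: a finite substitution, that is, a set of words for each letter
(finiteness and nonemptiness of the sets is asked for in `System`). -/
abbrev Table (S : Type) := S → Set (List S)

/-- Applying a finite substitution `h` (for a table, `S' = S`): `y ∈ h(x)`, that is, every letter
occurrence of `x` is replaced, simultaneously and independently of the others, by a word which `h`
assigns to it. -/
def Step {S S' : Type} (h : S → Set (List S')) (x : List S) (y : List S') : Prop :=
  ∃ ws : List (List S'), List.Forall₂ (fun c w => w ∈ h c) x ws ∧ y = ws.flatten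

/-- An ET0L system with terminal alphabet `T` and total alphabet `N ⊕ T` (so `N` is the set of
the letters which are not terminal). -/
structure System (T : Type) where
  /-- the nonterminal letters -/
  N : Type
  /-- there are finitely many of them -/
  finite_N : Finite N
  /-- the tables -/
  tables : Set (Table (N ⊕ T))
  /-- there are finitely many tables -/
  tables_finite : tables.Finite
  /-- there is at least one table -/
  tables_nonempty : tables.Nonempty
  /-- every table assigns to every letter a finite nonempty set of words -/
  entries : ∀ h ∈ tables, ∀ c, (h c).Finite ∧ (h c).Nonempty
  /-- the starting word -/
  start : List (N ⊕ T)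
  /-- the starting word is not empty -/
  start_ne : start ≠ []

/-- One derivation step of the system, with any of its tables. -/
def System.Rew {T : Type} (G : System T) (x y : List (G.N ⊕ T)) : Prop :=
  ∃ h ∈ G.tables, Step h x y

/-- The language of the system: the terminal words derivable from the starting word. -/
def System.language {T : Type} (G : System T) : Set (List T) :=
  {w | Relation.ReflTransGen G.Rew G.start (w.map Sum.inr)}

/-- `G` is `k`-restricted: in every table at most `k` letters `c` have an entry other than `{c}`. -/
def System.Restricted {T : Type} (k : ℕ) (G : System T) : Prop :=
  ∀ h ∈ G.tables, {c | h c ≠ {[c]}}.encard ≤ k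

/-- The languages over `T` generated by `k`-restricted ET0L systems. -/
def Family (k : ℕ) (T : Type) : Set (Set (List T)) :=
  {L | ∃ G : System T, G.Restricted k ∧ G.language = L}

end Pool.Agent.R570.ET0L
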