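import Pool.Agent.R570.ET0L

/-!
# Every ET0L language is generated by a 3-restricted ET0L system
-/

namespace Pool.Agent.R570.ET0L

variable {T : Type}

/-- work letters: unprimed, primed, dead -/
inductive WL (V : Type) : Type
  | c (v : V) : WL V
  | p (v : V) : WL V
  | dd : WL V

instance {V : Type} [Finite V] : Finite (WL V) := by
  have : Function.Surjective (fun s : (V ⊕ V) ⊕ Unit => (match s with
    | Sum.inl (Sum.inl x) => WL.c x
    | Sum.inl (Sum.inr q) => WL.p q
    | Sum.inr _ => WL.dd : WL V)) := by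
    intro s
    cases s with
    | c x => exact ⟨Sum.inl (Sum.inl x), rfl⟩
    | p q => exact ⟨Sum.inl (Sum.inr q), rfl⟩
    | dd => exact ⟨Sum.inr (), rfl⟩
  exact Finite.of_surjective _ this

/-- control states -/
inductive St (H : Type) (m : ℕ) : Type
  | I : St H m
  | A (h : H) (j : Fin (m + 1)) : St H m
  | B (j : Fin (m + 1)) : St H m
  | F (j : Fin (m + 1)) : St H m

instance {H : Type} [Finite H] {m : ℕ} : Finite (St H m) := by
  have : Function.Surjective (fun s : Unit ⊕ (H × Fin (m+1)) ⊕ (Fin (m+1) ⊕ Fin (m+1)) =>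
    (match s with
    | Sum.inl _ => St.I
    | Sum.inr (Sum.inl x) => St.A x.1 x.2
    | Sum.inr (Sum.inr (Sum.inl j)) => St.B j
    | Sum.inr (Sum.inr (Sum.inr j)) => St.F j : St H m)) := by
    intro s
    cases s with
    | I => exact ⟨Sum.inl (), rfl⟩
    | A h j => exact ⟨Sum.inr (Sum.inl (h, j)), rfl⟩
    | B j => exact ⟨Sum.inr (Sum.inr (Sum.inl j)), rfl⟩
    | F j => exact ⟨Sum.inr (Sum.inr (Sum.inr j)), rfl⟩
  exact Finite.of_surjective _ this

/-- instructions -/
inductive Ins (H : Type) (m : ℕ) : Type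
  | toA (h : H) : Ins H m
  | a (h : H) (j : Fin m) : Ins H m
  | ab (h : H) : Ins H m
  | b (j : Fin m) : Ins H m
  | bi : Ins H m
  | toF : Ins H m
  | f (j : Fin m) : Ins H m

instance {H : Type} [Finite H] {m : ℕ} : Finite (Ins H m) := by
  have : Function.Surjective (fun s : (H ⊕ (H × Fin m)) ⊕ ((H ⊕ Fin m) ⊕ (Bool ⊕ Fin m)) =>
    (match s with
    | Sum.inl (Sum.inl h) => Ins.toA h
    | Sum.inl (Sum.inr x) => Ins.a x.1 x.2
    | Sum.inr (Sum.inl (Sum.inl h)) => Ins.ab h
    | Sum.inr (Sum.inl (Sum.inr j)) => Ins.b j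
    | Sum.inr (Sum.inr (Sum.inl true)) => Ins.bi
    | Sum.inr (Sum.inr (Sum.inl false)) => Ins.toF
    | Sum.inr (Sum.inr (Sum.inr j)) => Ins.f j : Ins H m)) := by
    intro s
    cases s with
    | toA h => exact ⟨Sum.inl (Sum.inl h), rfl⟩
    | a h j => exact ⟨Sum.inl (Sum.inr (h, j)), rfl⟩
    | ab h => exact ⟨Sum.inr (Sum.inl (Sum.inl h)), rfl⟩
    | b j => exact ⟨Sum.inr (Sum.inl (Sum.inr j)), rfl⟩
    | bi => exact ⟨Sum.inr (Sum.inr (Sum.inl true)), rfl⟩
    | toF => exact ⟨Sum.inr (Sum.inr (Sum.inl false)), rfl⟩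
    | f j => exact ⟨Sum.inr (Sum.inr (Sum.inr j)), rfl⟩
  exact Finite.of_surjective _ this

section Fix

variable (G : System T) (m : ℕ) (e : (G.N ⊕ T) ≃ Fin m)

/-- primed copy of a letter -/
def pl {V T : Type} (v : V) : WL V ⊕ T := Sum.inl (WL.p v)

/-- unprimed copy of a letter -/
def cl {V T : Type} (v : V) : WL V ⊕ T := Sum.inl (WL.c v)

/-- final form of a letter -/
def fin {N T : Type} : N ⊕ T → WL (N ⊕ T) ⊕ T
  | Sum.inl _ => Sum.inl WL.dd
  | Sum.inr t => Sum.inr t

def pSrc : Ins G.tables m → St G.tables m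
  | Ins.toA _ => St.I
  | Ins.a h j => St.A h j.castSucc
  | Ins.ab h => St.A h (Fin.last m)
  | Ins.b j => St.B j.castSucc
  | Ins.bi => St.B (Fin.last m)
  | Ins.toF => St.I
  | Ins.f j => St.F j.castSucc

def pDst : Ins G.tables m → St G.tables m
  | Ins.toA h => St.A h 0
  | Ins.a h j => St.A h j.succ
  | Ins.ab _ => St.B 0
  | Ins.b j => St.B j.succ
  | Ins.bi => St.I
  | Ins.toF => St.F 0
  | Ins.f j => St.F j.succ

def pLetter : Ins G.tables m → Option (WL (G.N ⊕ T))
  | Ins.toA _ => none
  | Ins.a _ j => some (WL.c (e.symm j))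
  | Ins.ab _ => none
  | Ins.b j => some (WL.p (e.symm j))
  | Ins.bi => none
  | Ins.toF => none
  | Ins.f j => some (WL.c (e.symm j))

def pSub : Ins G.tables m → Set (List (WL (G.N ⊕ T) ⊕ T))
  | Ins.toA _ => {[]}
  | Ins.a h j => (List.map pl) '' (h.1 (e.symm j))
  | Ins.ab _ => {[]}
  | Ins.b j => {[cl (e.symm j)]}
  | Ins.bi => {[]}
  | Ins.toF => {[]}
  | Ins.f j => {[fin (e.symm j)]}

/-- The program simulating `G`. -/
def prog [Finite T] : Prog T where
  W := WL (G.N ⊕ T)
  Q := St G.tables m
  Ix := Ins G.tables m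
  finW := by have := G.finite_N; infer_instance
  finQ := by have := G.tables_finite.to_subtype; infer_instance
  finIx := by have := G.tables_finite.to_subtype; infer_instance
  src := pSrc G m
  dst := pDst G m
  ne := by
    intro a
    cases a <;> simp only [pSrc, pDst] <;> intro h <;> simp at h
    · exact absurd h (Fin.castSucc_lt_succ).ne
    · exact absurd h (Fin.castSucc_lt_succ).ne
    · exact absurd h (Fin.castSucc_lt_succ).ne
  letter := pLetter G m e
  sub := pSub G m e
  sub_ok := by
    intro a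
    cases a with
    | a h j =>
      exact ⟨(G.entries h.1 h.2 _).1.image _, (G.entries h.1 h.2 _).2.image _⟩
    | _ => simp [pSub]
  q0 := St.I
  qf := St.F (Fin.last m)
  start := G.start.map cl
  start_ne := by simpa using G.start_ne
  q0_ne := by simp

/-- mixture in the first phase -/
def mixA (h : Table (G.N ⊕ T)) (j : ℕ) (v : G.N ⊕ T) : Set (List (WL (G.N ⊕ T) ⊕ T)) :=
  if (e v).val < j then (List.map pl) '' (h v) else {[cl v]}

def mixB (j : ℕ) (v : G.N ⊕ T) : WL (G.N ⊕ T) ⊕ T := if (e v).val < j then cl v else pl v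

def mixF (j : ℕ) (v : G.N ⊕ T) : WL (G.N ⊕ T) ⊕ T := if (e v).val < j then fin v else cl v

/-- the table of an instruction, spelled out -/
noncomputable def ptab (a : Ins G.tables m) : Table (WL (G.N ⊕ T) ⊕ T) :=
  mkTab (pLetter G m e a) (pSub G m e a)

theorem ptab_eq [Finite T] (a : Ins G.tables m) : (prog G m e).tab a = ptab G m e a := rfl

theorem tab_none (a : Ins G.tables m) (ha : pLetter G m e a = none)
    (x y : List (WL (G.N ⊕ T) ⊕ T)) : Step (ptab G m e a) x y ↔ y = x := by
  rw [step_det_map _ id]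
  · simp
  · intro s _
    cases s with
    | inl n => simp [ptab, mkTab, ha]
    | inr t => simp [ptab, mkTab]

theorem tab_a_pl (h : G.tables) (j : Fin m) (w : List (G.N ⊕ T))
    (y : List (WL (G.N ⊕ T) ⊕ T)) :
    Step (ptab G m e (Ins.a h j)) (w.map pl) y ↔ y = w.map pl := by
  rw [step_det_map _ id]
  · simp
  · intro s hs
    rw [List.mem_map] at hs
    obtain ⟨v, -, rfl⟩ := hs
    simp [ptab, mkTab, pLetter, pl]

theorem comp_A (h : G.tables) (j : Fin m) :
    (fun v => {w | ∃ u ∈ mixA G m e h.1 j.val v, Step (ptab G m e (Ins.a h j)) u w}) =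
      mixA G m e h.1 (j.val + 1) := by
  funext v
  ext w
  simp only [mixA, Set.mem_setOf_eq]
  by_cases h1 : (e v).val < j.val
  · have h2 : (e v).val < j.val + 1 := by omega
    simp only [h1, h2, if_true]
    constructor
    · rintro ⟨u, ⟨w0, hw0, rfl⟩, hu⟩
      rw [tab_a_pl] at hu
      subst hu
      exact ⟨w0, hw0, rfl⟩
    · rintro ⟨w0, hw0, rfl⟩
      exact ⟨_, ⟨w0, hw0, rfl⟩, (tab_a_pl G m e h j _ _).2 rfl⟩
  · by_cases h3 : (e v).val = j.val
    · have hv : v = e.symm j := by
        rw [Equiv.eq_symm_apply]; exact Fin.ext h3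
      subst hv
      have h2 : (e (e.symm j)).val < j.val + 1 := by omega
      simp only [h1, h2, if_true, if_false]
      simp only [Set.mem_singleton_iff, exists_eq_left, step_cons, step_nil]
      simp only [cl, ptab, mkTab, pLetter, if_true, pSub]
      simp
    · have h2 : ¬ (e v).val < j.val + 1 := by omega
      have hv : ¬ (e.symm j = v) := by
        rintro rfl
        simp at h3
      simp only [h1, h2, if_false]
      simp only [Set.mem_singleton_iff, exists_eq_left, step_cons, step_nil]
      simp only [cl, ptab, mkTab, pLetter]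
      simp [hv]

theorem step_A (h : G.tables) (j : Fin m) (x : List (G.N ⊕ T))
    (y : List (WL (G.N ⊕ T) ⊕ T)) :
    Step (mixA G m e h.1 (j.val + 1)) x y ↔
      ∃ u, Step (mixA G m e h.1 j.val) x u ∧ Step (ptab G m e (Ins.a h j)) u y := by
  rw [← comp_A, step_comp]

theorem step_A_zero (h : Table (G.N ⊕ T)) (x : List (G.N ⊕ T)) (y : List (WL (G.N ⊕ T) ⊕ T)) :
    Step (mixA G m e h 0) x y ↔ y = x.map cl :=
  step_det_map _ cl _ _ (by intro s _; simp [mixA])

theorem step_A_last (h : Table (G.N ⊕ T)) (x : List (G.N ⊕ T)) (y : List (WL (G.N ⊕ T) ⊕ T)) :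
    Step (mixA G m e h m) x y ↔ ∃ u, Step h x u ∧ y = u.map pl := by
  have : mixA G m e h m = fun v => (List.map pl) '' (h v) := by
    funext v
    simp [mixA]
  rw [this, step_image]

theorem tab_b_step (j : Fin m) (y : List (G.N ⊕ T)) (u : List (WL (G.N ⊕ T) ⊕ T)) :
    Step (ptab G m e (Ins.b j)) (y.map (mixB G m e j.val)) u ↔
      u = y.map (mixB G m e (j.val + 1)) := by
  classical
  rw [step_det_map _ (fun s => if s = pl (e.symm j) then cl (e.symm j) else s)]
  · rw [List.map_map]
    have : (fun s => if s = pl (e.symm j) then cl (e.symm j) else s) ∘ mixB G m e j.val =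
        mixB G m e (j.val + 1) := by
      funext v
      simp only [Function.comp, mixB]
      by_cases h1 : (e v).val < j.val
      · have h2 : (e v).val < j.val + 1 := by omega
        simp [h1, h2, cl, pl]
      · by_cases h3 : (e v).val = j.val
        · have hv : v = e.symm j := by
            rw [Equiv.eq_symm_apply]; exact Fin.ext h3
          subst hv
          simp [cl, pl]
        · have h2 : ¬ (e v).val < j.val + 1 := by omega
          have hv : ¬ (v = e.symm j) := by
            rintro rfl
            simp at h3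
          simp [h1, h2, pl, hv]
    rw [this]
  · intro s _
    rcases s with n | t
    · rcases n with v | v | _
      · simp [ptab, mkTab, pLetter, pl]
      · by_cases hv : v = e.symm j
        · subst hv
          simp [ptab, mkTab, pLetter, pSub, pl]
        · have hv' : ¬ (e.symm j = v) := fun h => hv h.symm
          simp [ptab, mkTab, pLetter, pl, hv, hv']
      · simp [ptab, mkTab, pLetter, pl]
    · simp [ptab, mkTab, pl]

theorem tab_f_step (j : Fin m) (y : List (G.N ⊕ T)) (u : List (WL (G.N ⊕ T) ⊕ T)) :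
    Step (ptab G m e (Ins.f j)) (y.map (mixF G m e j.val)) u ↔
      u = y.map (mixF G m e (j.val + 1)) := by
  classical
  rw [step_det_map _ (fun s => if s = cl (e.symm j) then fin (e.symm j) else s)]
  · rw [List.map_map]
    have : (fun s => if s = cl (e.symm j) then fin (e.symm j) else s) ∘ mixF G m e j.val =
        mixF G m e (j.val + 1) := by
      funext v
      simp only [Function.comp, mixF]
      by_cases h1 : (e v).val < j.val
      · have h2 : (e v).val < j.val + 1 := by omega
        have h4 : ¬ (fin v = (cl (e.symm j) : WL (G.N ⊕ T) ⊕ T)) := by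
          cases v <;> simp [fin, cl]
        simp [h1, h2, h4]
      · by_cases h3 : (e v).val = j.val
        · have hv : v = e.symm j := by
            rw [Equiv.eq_symm_apply]; exact Fin.ext h3
          subst hv
          simp
        · have h2 : ¬ (e v).val < j.val + 1 := by omega
          have hv : ¬ (v = e.symm j) := by
            rintro rfl
            simp at h3
          simp [h1, h2, cl, hv]
    rw [this]
  · intro s _
    rcases s with n | t
    · rcases n with v | v | _
      · by_cases hv : v = e.symm j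
        · subst hv
          simp [ptab, mkTab, pLetter, pSub, cl]
        · have hv' : ¬ (e.symm j = v) := fun h => hv h.symm
          simp [ptab, mkTab, pLetter, cl, hv, hv']
      · simp [ptab, mkTab, pLetter, cl]
      · simp [ptab, mkTab, pLetter, cl]
    · simp [ptab, mkTab, cl]

theorem mixB_zero (y : List (G.N ⊕ T)) : y.map (mixB G m e 0) = y.map pl := by
  apply List.map_congr_left
  intro v _
  simp [mixB]

theorem mixB_last (y : List (G.N ⊕ T)) : y.map (mixB G m e m) = y.map cl := by
  apply List.map_congr_left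
  intro v _
  simp [mixB]

theorem mixF_zero (y : List (G.N ⊕ T)) : y.map (mixF G m e 0) = y.map cl := by
  apply List.map_congr_left
  intro v _
  simp [mixF]

theorem mixF_last (y : List (G.N ⊕ T)) : y.map (mixF G m e m) = y.map fin := by
  apply List.map_congr_left
  intro v _
  simp [mixF]

/-- Derivable sentential forms of `G`. -/
def Der (x : List (G.N ⊕ T)) : Prop := Relation.ReflTransGen G.Rew G.start x

/-- The invariant of the program. -/
def Inv : St G.tables m × List (WL (G.N ⊕ T) ⊕ T) → Prop
  | (St.I, u) => ∃ x, Der G x ∧ u = x.map cl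
  | (St.A h j, u) => ∃ x, Der G x ∧ Step (mixA G m e h.1 j.val) x u
  | (St.B j, u) => ∃ y, Der G y ∧ u = y.map (mixB G m e j.val)
  | (St.F j, u) => ∃ x, Der G x ∧ u = x.map (mixF G m e j.val)

theorem inv_step [Finite T] (c d : St G.tables m × List (WL (G.N ⊕ T) ⊕ T))
    (hc : Inv G m e c) (h : (prog G m e).Rew c d) : Inv G m e d := by
  obtain ⟨a, ha1, ha2, hst⟩ := h
  obtain ⟨q, u⟩ := c
  obtain ⟨q', u'⟩ := d
  replace ha1 : pSrc G m a = q := ha1
  replace ha2 : pDst G m a = q' := ha2
  replace hst : Step (ptab G m e a) u u' := hst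
  subst ha1 ha2
  cases a with
  | toA h =>
    obtain ⟨x, hx, rfl⟩ := hc
    replace hst := (tab_none G m e _ rfl _ _).1 hst
    exact ⟨x, hx, (step_A_zero G m e h.1 _ _).2 hst⟩
  | a h j =>
    obtain ⟨x, hx, hu⟩ := hc
    refine ⟨x, hx, ?_⟩
    have : (j.succ).val = j.val + 1 := rfl
    rw [this, step_A]
    exact ⟨u, hu, hst⟩
  | ab h =>
    obtain ⟨x, hx, hu⟩ := hc
    replace hst := (tab_none G m e _ rfl _ _).1 hst
    subst hst
    obtain ⟨y, hy, rfl⟩ := (step_A_last G m e h.1 x u').1 hu
    refine ⟨y, hx.tail ⟨h.1, h.2, hy⟩, ?_⟩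
    exact (mixB_zero G m e y).symm
  | b j =>
    obtain ⟨y, hy, rfl⟩ := hc
    replace hst := (tab_b_step G m e j y u').1 hst
    exact ⟨y, hy, hst⟩
  | bi =>
    obtain ⟨y, hy, hu⟩ := hc
    replace hst := (tab_none G m e _ rfl _ _).1 hst
    subst hst
    exact ⟨y, hy, hu.trans (mixB_last G m e y)⟩
  | toF =>
    obtain ⟨x, hx, hu⟩ := hc
    replace hst := (tab_none G m e _ rfl _ _).1 hst
    subst hst
    exact ⟨x, hx, hu.trans (mixF_zero G m e x).symm⟩
  | f j =>
    obtain ⟨y, hy, rfl⟩ := hc
    replace hst := (tab_f_step G m e j y u').1 hst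
    exact ⟨y, hy, hst⟩

theorem inv_reach [Finite T] (c : St G.tables m × List (WL (G.N ⊕ T) ⊕ T))
    (h : (prog G m e).Reach c) : Inv G m e c := by
  induction h with
  | refl => exact ⟨G.start, Relation.ReflTransGen.refl, rfl⟩
  | tail _ h ih => exact inv_step G m e _ _ ih h

theorem prog_clean [Finite T] : (prog G m e).Clean := by
  intro u hu n hn a
  obtain ⟨x, hx, hux⟩ := inv_reach G m e _ hu
  have h1 : u = x.map fin := hux.trans (mixF_last G m e x)
  rw [h1] at hn
  obtain ⟨v, -, hv⟩ := List.mem_map.1 hn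
  have hnd : n = WL.dd := by
    cases v with
    | inl k => exact (Sum.inl.inj hv).symm
    | inr t => exact absurd hv (by simp [fin])
  subst hnd
  intro h
  replace h : pLetter G m e a = some WL.dd := h
  cases a <;> simp [pLetter] at h

theorem prog_sound [Finite T] : (prog G m e).language ⊆ G.language := by
  intro w hw
  obtain ⟨x, hx, hux⟩ := inv_reach G m e _ hw
  have h1 : w.map Sum.inr = x.map fin := hux.trans (mixF_last G m e x)
  have h2 : x = w.map Sum.inr := by
    clear hux hx hw
    induction x generalizing w with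
    | nil => simp at h1; simp [h1]
    | cons v x ih =>
      cases w with
      | nil => simp at h1
      | cons t w =>
        simp only [List.map_cons, List.cons.injEq] at h1 ⊢
        refine ⟨?_, ih h1.2⟩
        cases v with
        | inl k => simp [fin] at h1
        | inr s => simp only [fin, Sum.inr.injEq] at h1; rw [h1.1]
  rw [h2] at hx
  exact hx

/-! ### completeness -/

/-- Reachability in the program, with spelled-out types. -/
def Rch [Finite T] (q : St G.tables m) (u : List (WL (G.N ⊕ T) ⊕ T)) : Prop :=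
  (prog G m e).Reach (q, u)

theorem rch_tail [Finite T] (a : Ins G.tables m) (u u' : List (WL (G.N ⊕ T) ⊕ T))
    (h : Rch G m e (pSrc G m a) u) (hst : Step (ptab G m e a) u u') :
    Rch G m e (pDst G m a) u' := by
  have h1 : (prog G m e).Rew (pSrc G m a, u) (pDst G m a, u') := ⟨a, rfl, rfl, hst⟩
  exact Relation.ReflTransGen.tail h h1

theorem rch_none [Finite T] (a : Ins G.tables m) (ha : pLetter G m e a = none)
    (u : List (WL (G.N ⊕ T) ⊕ T)) (h : Rch G m e (pSrc G m a) u) :
    Rch G m e (pDst G m a) u :=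
  rch_tail G m e a u u h ((tab_none G m e a ha u u).2 rfl)

theorem reach_A [Finite T] (h : G.tables) (x : List (G.N ⊕ T))
    (hx : Rch G m e St.I (x.map cl)) (j : ℕ) (hj : j ≤ m) :
    ∀ u, Step (mixA G m e h.1 j) x u →
      Rch G m e (St.A h ⟨j, Nat.lt_succ_of_le hj⟩) u := by
  induction j with
  | zero =>
    intro u hu
    rw [step_A_zero] at hu
    subst hu
    exact rch_none G m e (Ins.toA h) rfl _ hx
  | succ j ih =>
    intro u hu
    have hj' : j < m := hj
    have h1 := (step_A G m e h ⟨j, hj'⟩ x u).1 hu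
    obtain ⟨v, hv, hst⟩ := h1
    exact rch_tail G m e (Ins.a h ⟨j, hj'⟩) v u (ih hj'.le v hv) hst

theorem reach_B [Finite T] (y : List (G.N ⊕ T))
    (hy : Rch G m e (St.B 0) (y.map pl)) (j : ℕ) (hj : j ≤ m) :
    Rch G m e (St.B ⟨j, Nat.lt_succ_of_le hj⟩) (y.map (mixB G m e j)) := by
  induction j with
  | zero => rw [mixB_zero]; exact hy
  | succ j ih =>
    have hj' : j < m := hj
    exact rch_tail G m e (Ins.b ⟨j, hj'⟩) _ _ (ih hj'.le) ((tab_b_step G m e ⟨j, hj'⟩ y _).2 rfl)

theorem reach_F [Finite T] (y : List (G.N ⊕ T))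
    (hy : Rch G m e St.I (y.map cl)) (j : ℕ) (hj : j ≤ m) :
    Rch G m e (St.F ⟨j, Nat.lt_succ_of_le hj⟩) (y.map (mixF G m e j)) := by
  induction j with
  | zero =>
    rw [mixF_zero]
    exact rch_none G m e Ins.toF rfl _ hy
  | succ j ih =>
    have hj' : j < m := hj
    exact rch_tail G m e (Ins.f ⟨j, hj'⟩) _ _ (ih hj'.le) ((tab_f_step G m e ⟨j, hj'⟩ y _).2 rfl)

theorem reach_I [Finite T] (x : List (G.N ⊕ T)) (hx : Der G x) :
    Rch G m e St.I (x.map cl) := by
  induction hx with
  | refl => exact Relation.ReflTransGen.refl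
  | @tail x y _ hxy ih =>
    obtain ⟨h, hh, hst⟩ := hxy
    have h1 := reach_A G m e ⟨h, hh⟩ x ih m le_rfl (y.map pl)
      ((step_A_last G m e h x _).2 ⟨y, hst, rfl⟩)
    have h2 : Rch G m e (St.B 0) (y.map pl) := rch_none G m e (Ins.ab ⟨h, hh⟩) rfl _ h1
    have h3 := reach_B G m e y h2 m le_rfl
    rw [mixB_last] at h3
    exact rch_none G m e Ins.bi rfl _ h3

theorem prog_complete [Finite T] : G.language ⊆ (prog G m e).language := by
  intro w hw
  have h1 := reach_F G m e _ (reach_I G m e _ hw) m le_rfl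
  rw [mixF_last, List.map_map] at h1
  exact h1

end Fix

/-- Every ET0L language is generated by a 3-restricted ET0L system. -/
theorem exists_restricted [Finite T] (G : System T) :
    ∃ G' : System T, G'.Restricted 3 ∧ G'.language = G.language := by
  have := G.finite_N
  obtain ⟨m, ⟨e⟩⟩ := Finite.exists_equiv_fin (G.N ⊕ T)
  refine ⟨compile (prog G m e), compile_restricted _, ?_⟩
  rw [compile_language _ (prog_clean G m e)]
  exact Set.Subset.antisymm (prog_sound G m e) (prog_complete G m e)

end Pool.Agent.R570.ET0L
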