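import Pool.Agent.R570.FAPMain

/-!
# The cover lemma for automatic presentations of the integers
-/

set_option autoImplicit false

namespace Pool.R570.FAP

open Classical

namespace Dat

variable (D : Dat)

theorem card_succ_pow (K : ℕ) (n0 : ℕ) (hn0 : (D.Sn n0).Nonempty) :
    ∃ i ≥ n0, (D.Sn (i + K)).ncard ≤ 2 * (Fintype.card D.S + 1) ^ K * (D.Sn i).ncard := by
  by_contra hcon
  push Not at hcon
  set σ := Fintype.card D.S + 1 with hσ
  have h1 : ∀ m : ℕ, (2 * σ ^ K) ^ m ≤ (D.Sn (n0 + m * K)).ncard := by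
    intro m
    induction m with
    | zero =>
      simp only [pow_zero, zero_mul, add_zero]
      exact (Set.ncard_pos (D.Sn_finite n0)).2 hn0
    | succ m ih =>
      have h2 := hcon (n0 + m * K) (by omega)
      have h3 : n0 + (m + 1) * K = n0 + m * K + K := by ring
      rw [h3, pow_succ, mul_comm]
      exact (Nat.mul_le_mul_left _ ih).trans h2.le
  have h4 := (h1 (σ ^ n0)).trans (D.Sn_ncard _)
  rw [← hσ, mul_pow, ← pow_mul, pow_add, mul_comm K] at h4
  have h5 : 0 < σ ^ (σ ^ n0 * K) := pow_pos (by omega) _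
  have h6 := Nat.le_of_mul_le_mul_right h4 h5
  have h7 := Nat.lt_two_pow_self (n := σ ^ n0)
  omega

/-- A colouring of a set of integers such that integers of the same colour are near. -/
theorem exists_col (i k h : ℕ) (hi : (D.Sn i).Nonempty) (hh : 0 < h)
    (hk : (D.Sn (i + k + Fintype.card D.Q)).ncard ≤ h * (D.Sn i).ncard)
    (Y : Set ℤ) (hY : Y ⊆ D.Sn (i + k)) :
    ∃ col : ℤ → Fin h, ∀ a ∈ Y, ∀ a' ∈ Y, col a = col a' →
      a - a' ∈ D.Sn (i + 2 * Fintype.card D.Q) := by
  have hYfin : Y.Finite := (D.Sn_finite _).subset hY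
  let sep : Finset ℤ → Prop := fun Z => ∀ y ∈ Z, ∀ y' ∈ Z, ∀ a ∈ D.Sn i, ∀ a' ∈ D.Sn i,
    y - y' = a - a' → y = y'
  let PP : Finset (Finset ℤ) := hYfin.toFinset.powerset.filter sep
  have hne : PP.Nonempty := ⟨∅, by simp [PP, sep]⟩
  obtain ⟨Z, hZ, hmax⟩ := Finset.exists_max_image PP Finset.card hne
  have hZ1 : Z ⊆ hYfin.toFinset := Finset.mem_powerset.1 (Finset.mem_filter.1 hZ).1
  have hZ2 : sep Z := (Finset.mem_filter.1 hZ).2
  have hZ3 : ∀ y ∈ Y, ∃ y' ∈ Z, ∃ a ∈ D.Sn i, ∃ a' ∈ D.Sn i, y - y' = a - a' := by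
    intro y hy
    by_cases hyZ : y ∈ Z
    · obtain ⟨a, ha⟩ := hi
      exact ⟨y, hyZ, a, ha, a, ha, by ring⟩
    · by_contra hcon
      push Not at hcon
      have hins : insert y Z ∈ PP := by
        refine Finset.mem_filter.2 ⟨Finset.mem_powerset.2 ?_, ?_⟩
        · intro z hz
          rcases Finset.mem_insert.1 hz with rfl | hz
          · exact hYfin.mem_toFinset.2 hy
          · exact hZ1 hz
        · intro z hz z' hz' a ha a' ha' heq
          rcases Finset.mem_insert.1 hz with h1 | hzZ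
          · rcases Finset.mem_insert.1 hz' with h2 | hzZ'
            · rw [h1, h2]
            · rw [h1] at heq
              exact absurd heq (hcon z' hzZ' a ha a' ha')
          · rcases Finset.mem_insert.1 hz' with h2 | hzZ'
            · refine absurd ?_ (hcon z hzZ a' ha' a ha)
              omega
            · exact hZ2 z hzZ z' hzZ' a ha a' ha' heq
      have h1 := hmax _ hins
      rw [Finset.card_insert_of_notMem hyZ] at h1
      omega
  have hcard : Z.card ≤ h := by
    have hSfin : (D.Sn i).Finite := D.Sn_finite i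
    have h1 : (Z ×ˢ hSfin.toFinset).card ≤ (D.Sn_finite (i + k + Fintype.card D.Q)).toFinset.card := by
      apply Finset.card_le_card_of_injOn (fun p => p.1 - p.2)
      · intro p hp
        have hp' := Finset.mem_product.1 (Finset.mem_coe.1 hp)
        have h2 : p.1 ∈ D.Sn (i + k) := hY (hYfin.mem_toFinset.1 (hZ1 hp'.1))
        have h3 : p.2 ∈ D.Sn (i + k) := D.Sn_mono (by omega) (hSfin.mem_toFinset.1 hp'.2)
        simp only [Set.Finite.coe_toFinset]
        exact D.sub_mem h2 h3
      · intro p hp q hq hpq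
        have hp' := Finset.mem_product.1 (Finset.mem_coe.1 hp)
        have hq' := Finset.mem_product.1 (Finset.mem_coe.1 hq)
        simp only at hpq
        have h2 := hZ2 _ hp'.1 _ hq'.1 _ (hSfin.mem_toFinset.1 hp'.2) _
          (hSfin.mem_toFinset.1 hq'.2) (by omega)
        refine Prod.ext h2 ?_
        omega
    rw [Finset.card_product, ← Set.ncard_eq_toFinset_card _ (D.Sn_finite _),
      ← Set.ncard_eq_toFinset_card _ (D.Sn_finite _)] at h1
    have h2 := h1.trans hk
    exact Nat.le_of_mul_le_mul_right h2 ((Set.ncard_pos hSfin).2 hi)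
  -- the colouring
  have hcol : ∀ a : ℤ, ∃ y' : ℤ, a ∈ Y → y' ∈ Z ∧ ∃ b ∈ D.Sn i, ∃ b' ∈ D.Sn i, a - y' = b - b' := by
    intro a
    by_cases ha : a ∈ Y
    · obtain ⟨y', h1, h2⟩ := hZ3 a ha
      exact ⟨y', fun _ => ⟨h1, h2⟩⟩
    · exact ⟨0, fun h => absurd h ha⟩
  choose near hnear using hcol
  let idx : ℤ → Fin h := fun y => if hy : y ∈ Z then
    ⟨(Z.equivFin ⟨y, hy⟩).1, lt_of_lt_of_le (Z.equivFin ⟨y, hy⟩).2 hcard⟩ else ⟨0, hh⟩
  refine ⟨fun a => idx (near a), ?_⟩
  intro a ha a' ha' heq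
  obtain ⟨h1, b, hb, b', hb', h2⟩ := hnear a ha
  obtain ⟨h3, b2, hb2, b2', hb2', h4⟩ := hnear a' ha'
  have h5 : near a = near a' := by
    simp only [idx, dif_pos h1, dif_pos h3, Fin.mk.injEq] at heq
    have h6 := Z.equivFin.injective (Fin.ext heq)
    exact congrArg Subtype.val h6
  have h7 : b - b' ∈ D.Sn (i + Fintype.card D.Q) := D.sub_mem hb hb'
  have h8 : b2 - b2' ∈ D.Sn (i + Fintype.card D.Q) := D.sub_mem hb2 hb2'
  have h9 := D.sub_mem h7 h8
  have h10 : a - a' = (b - b') - (b2 - b2') := by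
    rw [h5] at h2
    omega
  rw [h10, two_mul, ← add_assoc]
  exact h9

/-- Every accepted tail can be replaced by a short one. -/
theorem short_tail (q : D.QL) (s : List D.S) (hs : D.B.evalFrom q s ∈ D.B.accept) :
    ∃ s' : List D.S, s'.length ≤ Fintype.card D.QL ∧ D.B.evalFrom q s' ∈ D.B.accept := by
  have hex : ∃ k, ∃ s' : List D.S, D.B.evalFrom q s' ∈ D.B.accept ∧ s'.length = k :=
    ⟨_, s, hs, rfl⟩
  obtain ⟨t, ht, htl⟩ := Nat.find_spec hex
  refine ⟨t, ?_, ht⟩
  by_contra hcon
  obtain ⟨q', a, b, c, habc, -, hb, hqa, hqb, hqc⟩ := D.B.evalFrom_split (x := t) (s := q)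
    (by omega) rfl
  have h1 : D.B.evalFrom q (a ++ c) ∈ D.B.accept := by
    rw [DFA.evalFrom_of_append, hqa, hqc]
    exact ht
  have h2 := Nat.find_min' hex ⟨_, h1, rfl⟩
  rw [← htl, habc] at h2
  have h3 : 0 < b.length := List.length_pos_iff.2 hb
  simp only [List.length_append] at h2
  omega

/-- the bound used in the cover lemma -/
def c1 : ℕ := 2 * Fintype.card D.Q + Fintype.card D.QL

/-- tails of words that are accepted but not near any tail -/
def Bad (κ : Set D.Q × D.QL) : Set (List D.S) :=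
  {s | D.B.evalFrom κ.2 s ∈ D.B.accept ∧ ∀ s', ¬ D.NearT κ.1 D.c1 s s'}

/-- a test word -/
noncomputable def tst (κ : Set D.Q × D.QL) : List D.S :=
  if h : (D.Bad κ).Nonempty then h.some else []

theorem tst_mem {κ : Set D.Q × D.QL} (h : (D.Bad κ).Nonempty) : D.tst κ ∈ D.Bad κ := by
  unfold tst
  rw [dif_pos h]
  exact h.some_mem

theorem exists_long (i : ℕ) : ∃ w x, D.Nm w x ∧ i ≤ w.length := by
  by_contra hcon
  push Not at hcon
  have h1 : (Set.univ : Set ℤ) ⊆ D.Sn i := by
    intro x _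
    obtain ⟨w, hw⟩ := D.sj x
    exact ⟨w, hw, (hcon w x hw).le⟩
  exact Set.infinite_univ ((D.Sn_finite i).subset h1)

/-- The cover lemma. -/
theorem cover : ∃ N : ℕ, ∀ n0, ∃ i ≥ n0, ∃ e : Fin N → List D.S, (∀ b, (e b).length = i) ∧
    ∀ x, ∃ b s z, D.Nm (e b ++ s) z ∧ x - z ∈ D.Sn (i + D.c1) := by
  -- the bounds
  obtain ⟨k, hk⟩ : ∃ k, ∀ κ, (D.tst κ).length ≤ k :=
    ⟨Finset.univ.sup fun κ => (D.tst κ).length, fun κ =>
      Finset.le_sup (f := fun κ => (D.tst κ).length) (Finset.mem_univ κ)⟩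
  let K := k + Fintype.card D.Q
  let h := 2 * (Fintype.card D.S + 1) ^ K
  have hh : 0 < h := by positivity
  let V := Option (Set D.Q × D.QL → Option (Fin h))
  obtain ⟨n1, hn1⟩ := D.exists_mem_Sn 0
  refine ⟨Fintype.card V, fun n0 => ?_⟩
  obtain ⟨i, hi, hgood⟩ := D.card_succ_pow K (max n0 n1) ⟨0, D.Sn_mono (le_max_right _ _) hn1⟩
  have hSi : (D.Sn i).Nonempty := ⟨0, D.Sn_mono (by omega) hn1⟩
  refine ⟨i, by omega, ?_⟩
  -- the colourings
  have hcol : ∀ κ, ∃ col : ℤ → Fin h, ∀ e e' : List D.S, e.length = i → e'.length = i →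
      ∀ a a', D.Nm (e ++ D.tst κ) a → D.Nm (e' ++ D.tst κ) a' → col a = col a' →
      a - a' ∈ D.Sn (i + 2 * Fintype.card D.Q) := by
    intro κ
    obtain ⟨col, hc⟩ := D.exists_col i k h hSi hh (by rw [add_assoc]; exact hgood)
      {a | ∃ e : List D.S, e.length = i ∧ D.Nm (e ++ D.tst κ) a} (by
        rintro a ⟨e, he, ha⟩
        exact ⟨_, ha, by rw [List.length_append]; have := hk κ; omega⟩)
    exact ⟨col, fun e e' he he' a a' ha ha' hcc => hc a ⟨e, he, ha⟩ a' ⟨e', he', ha'⟩ hcc⟩
  choose col hcol' using hcol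
  -- the profile of a prefix
  let prof : List D.S → (Set D.Q × D.QL → Option (Fin h)) := fun e κ =>
    if ha : ∃ a, D.Nm (e ++ D.tst κ) a then some (col κ ha.choose) else none
  -- the default prefix
  obtain ⟨w0, x0, hw0, hw0l⟩ := D.exists_long i
  have hw0' : w0 ∈ D.B.accepts := (D.hB w0).2 ⟨_, hw0⟩
  rw [← List.take_append_drop i w0, DFA.mem_accepts, DFA.eval, DFA.evalFrom_of_append] at hw0'
  obtain ⟨s0, hs0l, hs0⟩ := D.short_tail _ _ hw0'
  obtain ⟨z0, hz0⟩ : ∃ z, D.Nm (w0.take i ++ s0) z := by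
    rw [← D.hB, DFA.mem_accepts, DFA.eval, DFA.evalFrom_of_append]
    exact hs0
  have hl0 : (w0.take i).length = i := by rw [List.length_take]; omega
  -- the representatives
  let e' : V → List D.S := fun v => match v with
    | none => w0.take i
    | some p => if he : ∃ e : List D.S, e.length = i ∧ prof e = p then he.choose else w0.take i
  have he'l : ∀ v, (e' v).length = i := by
    intro v
    match v with
    | none => exact hl0
    | some p =>
      by_cases he : ∃ e : List D.S, e.length = i ∧ prof e = p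
      · have h1 : e' (some p) = he.choose := dif_pos he
        rw [h1]
        exact he.choose_spec.1
      · have h1 : e' (some p) = w0.take i := dif_neg he
        rw [h1]
        exact hl0
  refine ⟨fun b => e' ((Fintype.equivFin V).symm b), fun b => he'l _, ?_⟩
  suffices hmain : ∀ x, ∃ v s z, D.Nm (e' v ++ s) z ∧ x - z ∈ D.Sn (i + D.c1) by
    intro x
    obtain ⟨v, s, z, h1, h2⟩ := hmain x
    refine ⟨Fintype.equivFin V v, s, z, ?_, h2⟩
    simpa using h1
  intro x
  obtain ⟨w, hw⟩ := D.sj x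
  by_cases hwi : w.length < i
  · -- short name
    refine ⟨none, s0, z0, hz0, ?_⟩
    have h1 : x ∈ D.Sn (i + Fintype.card D.QL) := ⟨w, hw, by omega⟩
    have h2 : z0 ∈ D.Sn (i + Fintype.card D.QL) :=
      ⟨_, hz0, by rw [List.length_append]; omega⟩
    exact D.Sn_mono (by unfold c1; omega) (D.sub_mem h1 h2)
  · -- long name
    set e := w.take i with he
    set s := w.drop i with hs
    have hel : e.length = i := by rw [he, List.length_take]; omega
    have hws : D.Nm (e ++ s) x := by rw [he, hs, List.take_append_drop]; exact hw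
    have hex : ∃ e1 : List D.S, e1.length = i ∧ prof e1 = prof e := ⟨e, hel, rfl⟩
    set e1 := e' (some (prof e)) with he1
    have he1l : e1.length = i := he'l (some (prof e))
    have hprof : prof e1 = prof e := by
      have h1 : e1 = hex.choose := dif_pos hex
      rw [h1]
      exact hex.choose_spec.2
    -- the colour
    by_cases hnear : ∃ s', D.NearT (D.NS i e e1) D.c1 s s'
    · obtain ⟨s', hs'⟩ := hnear
      obtain ⟨x', z, hx', hz, hxz⟩ := (D.near_iff hel he1l D.c1 s s').2 hs'
      have hxx : x' = x := D.fn _ _ _ hx' hws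
      rw [hxx] at hxz
      exact ⟨some (prof e), s', z, hz, hxz⟩
    · exfalso
      push Not at hnear
      let κ : Set D.Q × D.QL := (D.NS i e e1, D.B.eval e)
      have hbad : s ∈ D.Bad κ := by
        refine ⟨?_, hnear⟩
        have h1 : e ++ s ∈ D.B.accepts := (D.hB _).2 ⟨_, hws⟩
        rw [DFA.mem_accepts, DFA.eval, DFA.evalFrom_of_append] at h1
        exact h1
      have ht := D.tst_mem ⟨s, hbad⟩
      have h1 : ∃ a, D.Nm (e ++ D.tst κ) a := by
        rw [← D.hB, DFA.mem_accepts, DFA.eval, DFA.evalFrom_of_append]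
        exact ht.1
      have h2 : prof e κ = some (col κ h1.choose) := dif_pos h1
      have h3 : ∃ a, D.Nm (e1 ++ D.tst κ) a := by
        by_contra hcon
        have h4 : prof e1 κ = none := dif_neg hcon
        rw [hprof, h2] at h4
        simp at h4
      have h4 : prof e1 κ = some (col κ h3.choose) := dif_pos h3
      have h5 : col κ h1.choose = col κ h3.choose := by
        rw [hprof, h2] at h4
        exact Option.some.inj h4
      have h6 := hcol' κ e e1 hel he1l _ _ h1.choose_spec h3.choose_spec h5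
      have h7 : D.NearT (D.NS i e e1) D.c1 (D.tst κ) (D.tst κ) :=
        (D.near_iff hel he1l D.c1 _ _).1 ⟨_, _, h1.choose_spec, h3.choose_spec,
          D.Sn_mono (by unfold c1; omega) h6⟩
      exact ht.2 _ h7

end Dat

end Pool.R570.FAP
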