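import Mathlib

/-!
# Automatic presentations of the group of integers, and compressibility rates
-/

set_option autoImplicit false

namespace Pool.R570.FAP

/-- The first `i` letters of the convolution of three words (words that are too short are padded
with `none`). -/
def cols {S : Type} (i : ℕ) (u v w : List S) : List (Option S × Option S × Option S) :=
  (List.range i).map fun k => (u[k]?, v[k]?, w[k]?)

/-- The convolution of three words. -/
def conv3 {S : Type} (u v w : List S) : List (Option S × Option S × Option S) :=
  cols (max u.length (max v.length w.length)) u v w

/-- The convolution of two words. -/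
def conv2 {S : Type} (u v : List S) : List (Option S × Option S) :=
  (List.range (max u.length v.length)).map fun k => (u[k]?, v[k]?)

/-- An FA-presentation of the structure `(ℤ; +)`: a surjection `ψ : L → ℤ` from a regular language
`L` over a finite alphabet `S`, such that the relations `ψ u = ψ v` and `ψ u + ψ v = ψ w` are
recognised by synchronous automata. -/
structure FAPres where
  S : Type
  fin : Fintype S
  L : Set (List S)
  ψ : L → ℤ
  surj : Function.Surjective ψ
  regL : Language.IsRegular (L : Language S)
  regEq : Language.IsRegular
    ({x | ∃ u v : L, ψ u = ψ v ∧ x = conv2 u.1 v.1} : Language (Option S × Option S))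
  regAdd : Language.IsRegular
    ({x | ∃ u v w : L, ψ u + ψ v = ψ w ∧ x = conv3 u.1 v.1 w.1} :
      Language (Option S × Option S × Option S))

/-- The least length of a normal form of `x` in the presentation `P`. -/
noncomputable def minLen (P : FAPres) (x : ℤ) : ℕ :=
  sInf {k | ∃ v : P.L, P.ψ v = x ∧ v.1.length = k}

/-- The compressibility rate of the presentation `P` relative to the presentation `P₀`. -/
noncomputable def rate (P P₀ : FAPres) (n : ℕ) : ℕ :=
  sSup {m | ∃ w : P.L, w.1.length ≤ n ∧ m = minLen P₀ (P.ψ w)}

end Pool.R570.FAP
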