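import Pool.Agent.R570.FAPCover

/-!
# Growth of automatic presentations of the integers
-/

set_option autoImplicit false

namespace Pool.R570.FAP

open Classical

namespace Dat

variable (D : Dat)

/-- near names, transferred from one level to another -/
theorem transfer {i j : ℕ} {e e' f f' : List D.S} (he : e.length = i) (he' : e'.length = i)
    (hf : f.length = j) (hf' : f'.length = j) (hN : D.NS i e e' = D.NS j f f')
    {c : ℕ} {s s' : List D.S} {x y : ℤ} (hx : D.Nm (e ++ s) x) (hy : D.Nm (e' ++ s') y)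
    (hxy : x - y ∈ D.Sn (i + c)) :
    ∃ x' y', D.Nm (f ++ s) x' ∧ D.Nm (f' ++ s') y' ∧ x' - y' ∈ D.Sn (j + c) := by
  have h1 := (D.near_iff he he' c s s').1 ⟨x, y, hx, hy, hxy⟩
  rw [hN] at h1
  exact (D.near_iff hf hf' c s s').2 h1

/-- The Lipschitz property for a pair of levels of the same type. -/
theorem lipschitz {N i j : ℕ} (e f : Fin N → List D.S) (he : ∀ b, (e b).length = i)
    (hf : ∀ b, (f b).length = j)
    (hcov : ∀ x, ∃ b s z, D.Nm (e b ++ s) z ∧ x - z ∈ D.Sn (i + D.c1))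
    (hN : ∀ b b', D.NS i (e b) (e b') = D.NS j (f b) (f b'))
    (h0 : (0 : ℤ) ∈ D.Sn i) (h1 : (1 : ℤ) ∈ D.Sn i)
    (H : ℕ) (hH : ∀ x ∈ D.Sn (j + (D.c1 + 2 * Fintype.card D.Q)), |x| ≤ H) :
    ∃ C : ℕ, ∀ b s z z', D.Nm (e b ++ s) z → D.Nm (f b ++ s) z' → |z'| ≤ C * (|z| + 1) := by
  choose b s z hz hxz using hcov
  have hself : ∀ x, ∃ y, D.Nm (f (b x) ++ s x) y := by
    intro x
    obtain ⟨x', y', hx', -, -⟩ := D.transfer (c := 0) (he _) (he _) (hf _) (hf _)
      (hN (b x) (b x)) (hz x) (hz x) (by rw [sub_self]; exact D.Sn_mono (by omega) h0)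
    exact ⟨x', hx'⟩
  choose F hF using hself
  -- consecutive values
  have hstep : ∀ x, |F x - F (x + 1)| ≤ H := by
    intro x
    have h2 : z x - z (x + 1) ∈ D.Sn (i + (D.c1 + 2 * Fintype.card D.Q)) := by
      have h3 := D.sub_mem (hxz (x + 1)) (hxz x)
      have h4 := D.sub_mem h3 (D.Sn_mono (by omega) h1)
      have h5 : x + 1 - z (x + 1) - (x - z x) - 1 = z x - z (x + 1) := by ring
      rw [h5] at h4
      refine D.Sn_mono ?_ h4
      omega
    obtain ⟨x', y', hx', hy', hxy'⟩ := D.transfer (he _) (he _) (hf _) (hf _)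
      (hN (b x) (b (x + 1))) (hz x) (hz (x + 1)) h2
    rw [D.fn _ _ _ hx' (hF x), D.fn _ _ _ hy' (hF (x + 1))] at hxy'
    exact hH _ hxy'
  have hup : ∀ n : ℕ, |F n| ≤ |F 0| + H * n := by
    intro n
    induction n with
    | zero => simp
    | succ n ih =>
      have h2 := hstep n
      have h3 : |F ((n : ℤ) + 1)| ≤ |F n| + |F n - F ((n : ℤ) + 1)| := by
        have := abs_sub_abs_le_abs_sub (F ((n : ℤ) + 1)) (F n)
        rw [abs_sub_comm] at this
        linarith
      push_cast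
      nlinarith
  have hdown : ∀ n : ℕ, |F (-n)| ≤ |F 0| + H * n := by
    intro n
    induction n with
    | zero => simp
    | succ n ih =>
      have h2 := hstep (-(n : ℤ) - 1)
      have h4 : -(n : ℤ) - 1 + 1 = -n := by ring
      rw [h4] at h2
      have h5 : -((n + 1 : ℕ) : ℤ) = -(n : ℤ) - 1 := by push_cast; ring
      rw [h5]
      have h3 : |F (-(n : ℤ) - 1)| ≤ |F (-(n : ℤ))| + |F (-(n : ℤ) - 1) - F (-(n : ℤ))| := by
        have := abs_sub_abs_le_abs_sub (F (-(n : ℤ) - 1)) (F (-(n : ℤ)))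
        linarith
      push_cast
      nlinarith
  have hall : ∀ x : ℤ, |F x| ≤ |F 0| + H * |x| := by
    intro x
    rcases Int.eq_nat_or_neg x with ⟨n, rfl | rfl⟩
    · simpa using hup n
    · simpa using hdown n
  refine ⟨(F 0).natAbs + H + H, ?_⟩
  intro b' s' y y' hy hy'
  -- compare with the cover
  obtain ⟨x1, y1, hx1, hy1, hxy1⟩ := D.transfer (he _) (he _) (hf _) (hf _)
    (hN b' (b y)) hy (hz y) (hxz y)
  rw [D.fn _ _ _ hx1 hy', D.fn _ _ _ hy1 (hF y)] at hxy1
  have h2 := hH _ (D.Sn_mono (by omega) hxy1)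
  have h3 := hall y
  have h4 : |y'| ≤ |F y| + |y' - F y| := by
    have := abs_sub_abs_le_abs_sub y' (F y)
    linarith
  have h5 : (0 : ℤ) ≤ |y| := abs_nonneg y
  have h6 : (0 : ℤ) ≤ |F 0| := abs_nonneg _
  push_cast [Int.natCast_natAbs]
  have h7 : (0 : ℤ) ≤ H := by positivity
  nlinarith [mul_nonneg h6 h5, mul_nonneg h7 h5]

theorem exists_levels : ∃ (N : ℕ) (lv : ℕ → ℕ) (e : ℕ → Fin N → List D.S),
    StrictMono lv ∧ (0 : ℤ) ∈ D.Sn (lv 0) ∧ (1 : ℤ) ∈ D.Sn (lv 0) ∧
    (∀ k b, (e k b).length = lv k) ∧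
    ∀ k x, ∃ b s z, D.Nm (e k b ++ s) z ∧ x - z ∈ D.Sn (lv k + D.c1) := by
  obtain ⟨N, hN⟩ := D.cover
  choose g hg e he hcov using hN
  obtain ⟨n0, hn0⟩ := D.exists_mem_Sn 0
  obtain ⟨n1, hn1⟩ := D.exists_mem_Sn 1
  let st : ℕ → ℕ := fun k => Nat.rec (max n0 n1) (fun _ m => g m + 1) k
  refine ⟨N, fun k => g (st k), fun k => e (st k), ?_, ?_, ?_, fun k b => he _ b,
    fun k x => hcov _ x⟩
  · apply strictMono_nat_of_lt_succ
    intro k
    have h1 : st (k + 1) = g (st k) + 1 := rfl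
    have h2 := hg (st (k + 1))
    rw [h1] at h2 ⊢
    omega
  · have h1 : st 0 = max n0 n1 := rfl
    have h2 := hg (st 0)
    exact D.Sn_mono (by show n0 ≤ g (st 0); omega) hn0
  · have h1 : st 0 = max n0 n1 := rfl
    have h2 := hg (st 0)
    exact D.Sn_mono (by show n1 ≤ g (st 0); omega) hn1

theorem growth : ∃ B : ℕ, ∀ w x, D.Nm w x → |x| + 1 ≤ (B : ℤ) ^ (w.length + 1) := by
  obtain ⟨N, lv, e, hmono, h0, h1, hel, hcov⟩ := D.exists_levels
  let T := (Fin N → Set D.Q) × (Fin N → Fin N → Set D.Q)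
  let R := Fintype.card T
  have hle : ∀ k, k ≤ R → lv k ≤ lv R := fun k hk => hmono.monotone hk
  obtain ⟨H, hH⟩ := D.Sn_bdd (lv R + (D.c1 + 2 * Fintype.card D.Q))
  have hH' : ∀ k ≤ R, ∀ x ∈ D.Sn (lv k + D.c1), |x| ≤ (H : ℤ) := by
    intro k hk x hx
    refine hH _ (D.Sn_mono ?_ hx)
    have := hle k hk
    omega
  have hL : ∀ k l : ℕ, ∃ C : ℕ, k ≤ R → l ≤ R →
      (∀ b b', D.NS (lv k) (e k b) (e k b') = D.NS (lv l) (e l b) (e l b')) →
      ∀ b s z z', D.Nm (e k b ++ s) z → D.Nm (e l b ++ s) z' → |z'| ≤ C * (|z| + 1) := by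
    intro k l
    by_cases hkl : k ≤ R ∧ l ≤ R ∧
      (∀ b b', D.NS (lv k) (e k b) (e k b') = D.NS (lv l) (e l b) (e l b'))
    · obtain ⟨C, hC⟩ := D.lipschitz (e k) (e l) (hel k) (hel l) (hcov k) hkl.2.2
        (D.Sn_mono (hmono.monotone (Nat.zero_le k)) h0)
        (D.Sn_mono (hmono.monotone (Nat.zero_le k)) h1) H
        (fun x hx => hH _ (D.Sn_mono (by have := hle l hkl.2.1; omega) hx))
      exact ⟨C, fun _ _ _ => hC⟩
    · exact ⟨0, fun a b c => absurd ⟨a, b, c⟩ hkl⟩
  choose Cf hCf using hL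
  obtain ⟨C, hC⟩ : ∃ C, ∀ k ≤ R, ∀ l ≤ R, Cf k l ≤ C := by
    refine ⟨(Finset.range (R + 1) ×ˢ Finset.range (R + 1)).sup fun p => Cf p.1 p.2, ?_⟩
    intro k hk l hl
    exact Finset.le_sup (f := fun p : ℕ × ℕ => Cf p.1 p.2) (b := (k, l))
      (Finset.mem_product.2 ⟨Finset.mem_range.2 (Nat.lt_succ_of_le hk),
        Finset.mem_range.2 (Nat.lt_succ_of_le hl)⟩)
  refine ⟨C + C * H + H + 1, ?_⟩
  have hCnn : (0 : ℤ) ≤ C := by positivity
  have hHnn : (0 : ℤ) ≤ H := by positivity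
  have hB1 : (1 : ℤ) ≤ ((C + C * H + H + 1 : ℕ) : ℤ) := by
    push_cast
    nlinarith [mul_nonneg hCnn hHnn]
  suffices hmain : ∀ n : ℕ, ∀ w x, w.length = n → D.Nm w x →
      |x| + 1 ≤ ((C + C * H + H + 1 : ℕ) : ℤ) ^ (n + 1) from fun w x hw => hmain _ w x rfl hw
  intro n
  induction n using Nat.strong_induction_on with
  | _ n ih =>
    intro w x hwn hw
    by_cases hshort : n < lv R
    · have h2 : |x| ≤ (H : ℤ) := hH _ (D.Sn_mono (by omega) ⟨w, hw, le_rfl⟩)
      calc |x| + 1 ≤ ((C + C * H + H + 1 : ℕ) : ℤ) := by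
            push_cast
            nlinarith [mul_nonneg hCnn hHnn]
        _ = ((C + C * H + H + 1 : ℕ) : ℤ) ^ 1 := (pow_one _).symm
        _ ≤ _ := pow_le_pow_right₀ hB1 (by omega)
    · push Not at hshort
      -- the types
      let ty : Fin (R + 1) → T := fun k =>
        (fun b => D.NS (lv k) (w.take (lv k)) (e k b),
          fun b b' => D.NS (lv k) (e k b) (e k b'))
      obtain ⟨k, l, hkl, hty⟩ := Fintype.exists_ne_map_eq_of_card_lt ty (by simp [R])
      wlog hlt : k < l generalizing k l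
      · exact this l k hkl.symm hty.symm (lt_of_le_of_ne (not_lt.1 hlt) hkl.symm)
      have hkR : (k : ℕ) ≤ R := by have := k.2; omega
      have hlR : (l : ℕ) ≤ R := by have := l.2; omega
      have hij : lv k < lv l := hmono hlt
      have hjn : lv l ≤ n := (hle l hlR).trans hshort
      have hty1 : ∀ b, D.NS (lv k) (w.take (lv k)) (e k b) =
          D.NS (lv l) (w.take (lv l)) (e l b) := fun b => congrFun (congrArg Prod.fst hty) b
      have hty2 : ∀ b b', D.NS (lv k) (e k b) (e k b') = D.NS (lv l) (e l b) (e l b') :=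
        fun b b' => congrFun (congrFun (congrArg Prod.snd hty) b) b'
      obtain ⟨b, s', z', hz', hxz'⟩ := hcov l x
      have hw' : D.Nm (w.take (lv l) ++ w.drop (lv l)) x := by
        rw [List.take_append_drop]; exact hw
      obtain ⟨x', z'', hx', hz'', hxz''⟩ := D.transfer
        (by rw [List.length_take]; omega) (hel l b)
        (by rw [List.length_take]; omega : (w.take (lv k)).length = lv k) (hel k b)
        (hty1 b).symm hw' hz' hxz'
      have h2 := hCf k l hkR hlR hty2 b s' z'' z' hz'' hz'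
      have h3 := hH' l hlR _ hxz'
      have h4 := hH' k hkR _ hxz''
      have hlen : (w.take (lv k) ++ w.drop (lv l)).length = lv k + (n - lv l) := by
        rw [List.length_append, List.length_take, List.length_drop]
        omega
      have h5 := ih (lv k + (n - lv l)) (by omega) _ x' hlen hx'
      have h6 : |x| ≤ |z'| + |x - z'| := by
        have := abs_sub_abs_le_abs_sub x z'
        linarith
      have h7 : |z''| ≤ |x'| + |x' - z''| := by
        have := abs_sub_abs_le_abs_sub z'' x'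
        rw [abs_sub_comm z'' x'] at this
        linarith
      have h8 : (Cf k l : ℤ) ≤ C := by exact_mod_cast hC k hkR l hlR
      have h9 : |z'| ≤ C * (|x'| + H + 1) := by
        calc |z'| ≤ Cf k l * (|z''| + 1) := h2
          _ ≤ C * (|z''| + 1) := mul_le_mul_of_nonneg_right h8 (by positivity)
          _ ≤ C * (|x'| + H + 1) := mul_le_mul_of_nonneg_left (by linarith) hCnn
      have hx'nn : (0 : ℤ) ≤ |x'| := abs_nonneg _
      calc |x| + 1 ≤ ((C + C * H + H + 1 : ℕ) : ℤ) * (|x'| + 1) := by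
            push_cast
            nlinarith [mul_nonneg hCnn hHnn, mul_nonneg (mul_nonneg hCnn hHnn) hx'nn,
              mul_nonneg hHnn hx'nn]
        _ ≤ ((C + C * H + H + 1 : ℕ) : ℤ) *
            ((C + C * H + H + 1 : ℕ) : ℤ) ^ (lv k + (n - lv l) + 1) :=
            mul_le_mul_of_nonneg_left h5 (by linarith)
        _ = ((C + C * H + H + 1 : ℕ) : ℤ) ^ (lv k + (n - lv l) + 1 + 1) := by ring
        _ ≤ _ := pow_le_pow_right₀ hB1 (by omega)

/-- Small integers have short names. -/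
theorem small_mem {n0 : ℕ} (h0 : (0 : ℤ) ∈ D.Sn n0) (h1 : (1 : ℤ) ∈ D.Sn n0)
    (h2 : (-1 : ℤ) ∈ D.Sn n0) (k : ℕ) :
    ∀ x : ℤ, |x| < 2 ^ k → x ∈ D.Sn (n0 + 3 * Fintype.card D.Q * k) := by
  induction k with
  | zero =>
    intro x hx
    have h3 : x = 0 := by
      rw [pow_zero] at hx
      rcases abs_cases x with h | h <;> omega
    rw [h3]
    exact D.Sn_mono (by omega) h0
  | succ k ih =>
    intro x hx
    obtain ⟨y, r, hxy, hy, hr⟩ : ∃ y r : ℤ, x = 2 * y + r ∧ |y| < 2 ^ k ∧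
        (r = -1 ∨ r = 0 ∨ r = 1) := by
      rw [pow_succ] at hx
      rcases le_or_gt 0 x with h | h
      · rw [abs_of_nonneg h] at hx
        refine ⟨x / 2, x % 2, by omega, ?_, by omega⟩
        rw [abs_of_nonneg (by omega)]
        omega
      · rw [abs_of_neg h] at hx
        refine ⟨-((-x) / 2), -((-x) % 2), by omega, ?_, by omega⟩
        rw [abs_neg, abs_of_nonneg (by omega)]
        omega
    have h3 := ih y hy
    have h4 := D.sub_mem (D.Sn_mono (by omega) h0) h3
    have h5 := D.sub_mem (D.Sn_mono (by omega) h3) h4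
    have h6 : -r ∈ D.Sn n0 := by
      rcases hr with rfl | rfl | rfl
      · simpa using h1
      · simpa using h0
      · exact h2
    have h7 := D.sub_mem h5 (D.Sn_mono (by omega) h6)
    have h8 : y - (0 - y) - -r = x := by rw [hxy]; ring
    rw [h8] at h7
    refine D.Sn_mono ?_ h7
    have h9 : n0 + 3 * Fintype.card D.Q * (k + 1) = n0 + 3 * Fintype.card D.Q * k +
      3 * Fintype.card D.Q := by ring
    omega

end Dat

end Pool.R570.FAP
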