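import Pool.Agent.R570.FAPDefs

/-!
# The compressibility rate of automatic presentations of the integers is linear
-/

set_option autoImplicit false

namespace Pool.R570.FAP

open Classical

variable {S : Type}

/-! ### Convolutions -/

theorem cols_length (i : ℕ) (u v w : List S) : (cols i u v w).length = i := by simp [cols]

theorem cols_getElem? (i : ℕ) (u v w : List S) (k : ℕ) (hk : k < i) :
    (cols i u v w)[k]? = some (u[k]?, v[k]?, w[k]?) := by
  simp [cols, hk]

theorem cols_add (i m : ℕ) (u v w : List S) :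
    cols (i + m) u v w = cols i u v w ++ cols m (u.drop i) (v.drop i) (w.drop i) := by
  unfold cols
  rw [List.range_add, List.map_append, List.map_map]
  congr 1
  apply List.map_congr_left
  intro k _
  simp

theorem cols_congr {i : ℕ} {u v w u' v' w' : List S} (h1 : ∀ k < i, u[k]? = u'[k]?)
    (h2 : ∀ k < i, v[k]? = v'[k]?) (h3 : ∀ k < i, w[k]? = w'[k]?) :
    cols i u v w = cols i u' v' w' := by
  unfold cols
  apply List.map_congr_left
  intro k hk
  have hk' := List.mem_range.1 hk
  rw [h1 k hk', h2 k hk', h3 k hk']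

theorem conv3_split (i : ℕ) (u v w : List S) (hi : i ≤ max u.length (max v.length w.length)) :
    conv3 u v w = cols i u v w ++ conv3 (u.drop i) (v.drop i) (w.drop i) := by
  unfold conv3
  rw [← cols_add]
  congr 1
  simp only [List.length_drop]
  omega

theorem conv3_prefix (i : ℕ) (e e' : List S) (he : e.length = i) (he' : e'.length = i)
    (s t s' : List S) :
    conv3 (e ++ s) t (e' ++ s') = cols i e t e' ++ conv3 s (t.drop i) s' := by
  rw [conv3_split i]
  · congr 1
    · apply cols_congr
      · intro k hk; rw [List.getElem?_append_left (by omega)]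
      · intro k hk; rfl
      · intro k hk; rw [List.getElem?_append_left (by omega)]
    · rw [← he, List.drop_left, he, ← he', List.drop_left]
  · simp only [List.length_append]
    omega

theorem conv3_getElem? (u v w : List S) (k : ℕ)
    (hk : k < max u.length (max v.length w.length)) :
    (conv3 u v w)[k]? = some (u[k]?, v[k]?, w[k]?) := cols_getElem? _ u v w k hk

theorem conv3_length (u v w : List S) :
    (conv3 u v w).length = max u.length (max v.length w.length) := cols_length _ u v w

theorem conv3_inj {u v w u' v' w' : List S} (h : conv3 u v w = conv3 u' v' w') :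
    u = u' ∧ v = v' ∧ w = w' := by
  have hl : max u.length (max v.length w.length) = max u'.length (max v'.length w'.length) := by
    rw [← conv3_length, h, conv3_length]
  have key : ∀ k : ℕ, u[k]? = u'[k]? ∧ v[k]? = v'[k]? ∧ w[k]? = w'[k]? := by
    intro k
    by_cases hk : k < max u.length (max v.length w.length)
    · have h1 := conv3_getElem? u v w k hk
      have h2 := conv3_getElem? u' v' w' k (by rw [← hl]; exact hk)
      rw [h, h2] at h1
      simp only [Option.some.injEq, Prod.mk.injEq] at h1
      exact ⟨h1.1.symm, h1.2.1.symm, h1.2.2.symm⟩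
    · refine ⟨?_, ?_, ?_⟩ <;>
      · rw [List.getElem?_eq_none (by omega), List.getElem?_eq_none (by omega)]
  exact ⟨List.ext_getElem? fun k => (key k).1, List.ext_getElem? fun k => (key k).2.1,
    List.ext_getElem? fun k => (key k).2.2⟩

theorem conv3_eq_cols {u v w e t e' s σ s' : List S} {j : ℕ}
    (he : e.length = j) (he' : e'.length = j)
    (h : conv3 u v w = cols j e t e' ++ conv3 s σ s') :
    u = e ++ s ∧ w = e' ++ s' ∧ v.length ≤ j + σ.length := by
  have hl : max u.length (max v.length w.length) =
      j + max s.length (max σ.length s'.length) := by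
    rw [← conv3_length, h, List.length_append, cols_length, conv3_length]
  have key1 : ∀ k < j, u[k]? = e[k]? ∧ v[k]? = t[k]? ∧ w[k]? = e'[k]? := by
    intro k hk
    have h1 := conv3_getElem? u v w k (by omega)
    rw [h, List.getElem?_append_left (by rw [cols_length]; exact hk), cols_getElem? _ _ _ _ _ hk]
      at h1
    simp only [Option.some.injEq, Prod.mk.injEq] at h1
    exact ⟨h1.1.symm, h1.2.1.symm, h1.2.2.symm⟩
  have key2 : ∀ k, j ≤ k → k < j + max s.length (max σ.length s'.length) →
      u[k]? = s[k - j]? ∧ v[k]? = σ[k - j]? ∧ w[k]? = s'[k - j]? := by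
    intro k hk hk'
    have h1 := conv3_getElem? u v w k (by omega)
    rw [h, List.getElem?_append_right (by rw [cols_length]; exact hk), cols_length,
      conv3_getElem? _ _ _ _ (by omega)] at h1
    simp only [Option.some.injEq, Prod.mk.injEq] at h1
    exact ⟨h1.1.symm, h1.2.1.symm, h1.2.2.symm⟩
  refine ⟨?_, ?_, ?_⟩
  · apply List.ext_getElem?
    intro k
    by_cases hk : k < j
    · rw [(key1 k hk).1, List.getElem?_append_left (by omega)]
    · by_cases hk' : k < j + max s.length (max σ.length s'.length)
      · rw [(key2 k (by omega) hk').1, List.getElem?_append_right (by omega), he]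
      · rw [List.getElem?_eq_none (by omega), List.getElem?_eq_none]
        rw [List.length_append]
        omega
  · apply List.ext_getElem?
    intro k
    by_cases hk : k < j
    · rw [(key1 k hk).2.2, List.getElem?_append_left (by omega)]
    · by_cases hk' : k < j + max s.length (max σ.length s'.length)
      · rw [(key2 k (by omega) hk').2.2, List.getElem?_append_right (by omega), he']
      · rw [List.getElem?_eq_none (by omega), List.getElem?_eq_none]
        rw [List.length_append]
        omega
  · by_contra hcon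
    have hcon' : j + σ.length < v.length := by omega
    have h1 := (key2 (j + σ.length) (by omega) (by omega)).2.1
    rw [List.getElem?_eq_getElem hcon', List.getElem?_eq_none (by omega)] at h1
    simp at h1

/-- Internal form of a presentation. -/
structure Dat where
  S : Type
  finS : Fintype S
  Q : Type
  finQ : Fintype Q
  M : DFA (Option S × Option S × Option S) Q
  QL : Type
  finQL : Fintype QL
  B : DFA S QL
  Nm : List S → ℤ → Prop
  fn : ∀ w a b, Nm w a → Nm w b → a = b
  sj : ∀ a, ∃ w, Nm w a
  hB : ∀ w, w ∈ B.accepts ↔ ∃ a, Nm w a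
  hM : ∀ x, x ∈ M.accepts ↔ ∃ u v w a b, Nm u a ∧ Nm v b ∧ Nm w (a + b) ∧ x = conv3 u v w

namespace Dat

variable (D : Dat)

instance : Fintype D.S := D.finS
instance : Fintype D.Q := D.finQ
instance : Fintype D.QL := D.finQL

theorem acc (u v w : List D.S) :
    conv3 u v w ∈ D.M.accepts ↔ ∃ a b, D.Nm u a ∧ D.Nm v b ∧ D.Nm w (a + b) := by
  rw [D.hM]
  constructor
  · rintro ⟨u', v', w', a, b, h1, h2, h3, h4⟩
    obtain ⟨rfl, rfl, rfl⟩ := conv3_inj h4
    exact ⟨a, b, h1, h2, h3⟩
  · rintro ⟨a, b, h1, h2, h3⟩
    exact ⟨u, v, w, a, b, h1, h2, h3, rfl⟩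

/-- the elements with a normal form of length at most `n` -/
def Sn (n : ℕ) : Set ℤ := {x | ∃ w, D.Nm w x ∧ w.length ≤ n}

theorem Sn_mono {m n : ℕ} (h : m ≤ n) : D.Sn m ⊆ D.Sn n := by
  rintro x ⟨w, h1, h2⟩
  exact ⟨w, h1, h2.trans h⟩

theorem exists_code (n : ℕ) : ∃ g : D.Sn n → (Fin n → Option D.S), Function.Injective g := by
  choose nm h1 h2 using fun x : D.Sn n => x.2
  refine ⟨fun x k => (nm x)[k.1]?, ?_⟩
  intro x y hxy
  have : nm x = nm y := by
    apply List.ext_getElem?
    intro k
    by_cases hk : k < n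
    · exact congrFun hxy ⟨k, hk⟩
    · rw [List.getElem?_eq_none ((h2 x).trans (by omega)),
        List.getElem?_eq_none ((h2 y).trans (by omega))]
  apply Subtype.ext
  have h3 := h1 x
  rw [this] at h3
  exact D.fn _ _ _ h3 (h1 y)

theorem Sn_finite (n : ℕ) : (D.Sn n).Finite := by
  obtain ⟨g, hg⟩ := D.exists_code n
  exact Set.finite_coe_iff.1 (Finite.of_injective g hg)

theorem Sn_ncard (n : ℕ) : (D.Sn n).ncard ≤ (Fintype.card D.S + 1) ^ n := by
  obtain ⟨g, hg⟩ := D.exists_code n
  have := Nat.card_le_card_of_injective g hg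
  rw [Nat.card_coe_set_eq, Nat.card_eq_fintype_card] at this
  simpa using this

theorem exists_mem_Sn (x : ℤ) : ∃ n, x ∈ D.Sn n := by
  obtain ⟨w, hw⟩ := D.sj x
  exact ⟨w.length, w, hw, le_rfl⟩

theorem Sn_bdd (n : ℕ) : ∃ H : ℕ, ∀ x ∈ D.Sn n, |x| ≤ H := by
  have h := (D.Sn_finite n).image (fun x : ℤ => x.natAbs)
  obtain ⟨H, hH⟩ := h.bddAbove
  refine ⟨H, fun x hx => ?_⟩
  have h3 : x.natAbs ≤ H := hH ⟨x, hx, rfl⟩
  rw [Int.abs_eq_natAbs]
  exact_mod_cast h3

/-- Differences of elements with short names have short names. -/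
theorem sub_mem {n : ℕ} {x y : ℤ} (hx : x ∈ D.Sn n) (hy : y ∈ D.Sn n) :
    x - y ∈ D.Sn (n + Fintype.card D.Q) := by
  obtain ⟨u, hu, hun⟩ := hx
  obtain ⟨v, hv, hvn⟩ := hy
  have hex : ∃ k, ∃ t, D.Nm t (x - y) ∧ t.length = k := by
    obtain ⟨t, ht⟩ := D.sj (x - y)
    exact ⟨_, t, ht, rfl⟩
  obtain ⟨t, ht, htl⟩ := Nat.find_spec hex
  refine ⟨t, ht, ?_⟩
  by_contra hcon
  have hlong : n + Fintype.card D.Q < t.length := by omega
  have hacc : conv3 t v u ∈ D.M.accepts := by
    rw [D.acc]
    exact ⟨x - y, y, ht, hv, by rwa [sub_add_cancel]⟩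
  have hdv : v.drop n = [] := List.drop_eq_nil_of_le hvn
  have hdu : u.drop n = [] := List.drop_eq_nil_of_le hun
  have hform : ∀ s : List D.S, conv3 s [] [] = s.map fun a => (some a, none, none) := by
    intro s
    apply List.ext_getElem?
    intro k
    by_cases hk : k < s.length
    · rw [conv3_getElem? _ _ _ _ (by simp; omega)]
      simp [hk]
    · rw [List.getElem?_eq_none (by rw [conv3_length]; simp; omega),
        List.getElem?_eq_none (by simp; omega)]
  have hsplit : conv3 t v u = cols n t v u ++ (t.drop n).map fun a => (some a, none, none) := by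
    rw [conv3_split n _ _ _ (by omega), hdv, hdu, hform]
  rw [hsplit, DFA.mem_accepts, DFA.eval, DFA.evalFrom_of_append] at hacc
  obtain ⟨q, a, b, c, habc, -, hb, hqa, hqb, hqc⟩ := D.M.evalFrom_split
    (x := (t.drop n).map fun a => (some a, none, none)) (s := D.M.evalFrom D.M.start (cols n t v u))
    (by rw [List.length_map, List.length_drop]; omega) rfl
  rw [List.append_assoc] at habc
  obtain ⟨a', bc', h1, h2, h3⟩ := List.map_eq_append_iff.1 habc
  obtain ⟨b', c', h4, h5, h6⟩ := List.map_eq_append_iff.1 h3
  have hb' : b' ≠ [] := by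
    rintro rfl
    exact hb h5.symm
  -- the shorter name
  have hacc' : conv3 (t.take n ++ (a' ++ c')) v u ∈ D.M.accepts := by
    have hlen : (t.take n).length = n := by rw [List.length_take]; omega
    have hsplit' : conv3 (t.take n ++ (a' ++ c')) v u =
        cols n t v u ++ (a' ++ c').map fun a => (some a, none, none) := by
      rw [conv3_split n _ _ _ (by rw [List.length_append]; omega), hdv, hdu, List.drop_left' hlen,
        hform]
      congr 1
      apply cols_congr
      · intro k hk
        rw [List.getElem?_append_left (by omega), List.getElem?_take_of_lt hk]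
      · intro k hk; rfl
      · intro k hk; rfl
    rw [hsplit', DFA.mem_accepts, DFA.eval, DFA.evalFrom_of_append, List.map_append,
      DFA.evalFrom_of_append, h2, h6, hqa]
    rw [hqc]
    exact hacc
  obtain ⟨z, y', hz, hy', hsum⟩ := (D.acc _ _ _).1 hacc'
  have e1 : y' = y := D.fn _ _ _ hy' hv
  have e2 : z + y' = x := D.fn _ _ _ hsum hu
  have e3 : z = x - y := by omega
  rw [e3] at hz
  have hmin := Nat.find_min' hex ⟨_, hz, rfl⟩
  rw [← htl] at hmin
  have hlt : (t.take n ++ (a' ++ c')).length < t.length := by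
    have e4 : (t.drop n).length = a'.length + (b'.length + c'.length) := by
      rw [h1, h4]
      simp
    have e5 : 0 < b'.length := List.length_pos_iff.2 hb'
    simp only [List.length_append, List.length_take, List.length_drop] at e4 ⊢
    omega
  omega

/-! ### Types of prefixes -/

/-- the states reached after `i` letters, for the prefixes `p'`, `p` and any third word -/
def NS (i : ℕ) (p p' : List D.S) : Set D.Q := {q | ∃ t : List D.S, q = D.M.eval (cols i p' t p)}

/-- nearness of tails, for a set of states -/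
def NearT (N : Set D.Q) (c : ℕ) (s s' : List D.S) : Prop :=
  ∃ q ∈ N, ∃ σ : List D.S, σ.length ≤ c ∧ D.M.evalFrom q (conv3 s' σ s) ∈ D.M.accept

theorem near_iff {i : ℕ} {e e' : List D.S} (he : e.length = i) (he' : e'.length = i) (c : ℕ)
    (s s' : List D.S) :
    (∃ x y, D.Nm (e ++ s) x ∧ D.Nm (e' ++ s') y ∧ x - y ∈ D.Sn (i + c)) ↔
      D.NearT (D.NS i e e') c s s' := by
  constructor
  · rintro ⟨x, y, hx, hy, t, ht, htl⟩
    have hacc : conv3 (e' ++ s') t (e ++ s) ∈ D.M.accepts := by
      rw [D.acc]
      refine ⟨y, x - y, hy, ht, ?_⟩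
      rwa [add_sub_cancel]
    rw [conv3_prefix i e' e he' he, DFA.mem_accepts, DFA.eval, DFA.evalFrom_of_append] at hacc
    refine ⟨_, ⟨t, rfl⟩, t.drop i, ?_, hacc⟩
    rw [List.length_drop]
    omega
  · rintro ⟨q, ⟨t, rfl⟩, σ, hσ, hacc⟩
    have hacc' : cols i e' t e ++ conv3 s' σ s ∈ D.M.accepts := by
      rw [DFA.mem_accepts, DFA.eval, DFA.evalFrom_of_append]
      exact hacc
    rw [D.hM] at hacc'
    obtain ⟨u, v, w, a, b, h1, h2, h3, h4⟩ := hacc'
    obtain ⟨rfl, rfl, h5⟩ := conv3_eq_cols he' he h4.symm
    refine ⟨a + b, a, h3, h1, v, ?_, by omega⟩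
    rwa [add_sub_cancel_left]

end Dat

end Pool.R570.FAP
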