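import Pool.Agent.R570.OFGDefs
import Pool.Agent.R570.EPC

/-!
# Bounded generalized one-sided forbidding grammars generate all recursively enumerable languages
-/

set_option autoImplicit false

namespace Pool.R570.OFG

open Relation

/-- the sixteen nonterminals -/
inductive NT
  | st | gS | gT | zl | zr
  | h (j : Fin 3)
  | al (b : Bool) | al' (b : Bool) | be (b : Bool) | be' (b : Bool)
  deriving DecidableEq

open NT

def toFin : NT → Fin 16
  | st => 0 | gS => 1 | gT => 2 | zl => 3 | zr => 4
  | h j => ⟨5 + j.1, by omega⟩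
  | al b => if b then 8 else 9
  | al' b => if b then 10 else 11
  | be b => if b then 12 else 13
  | be' b => if b then 14 else 15

def ofFin (x : Fin 16) : NT :=
  [st, gS, gT, zl, zr, h 0, h 1, h 2, al true, al false, al' true, al' false, be true, be false,
    be' true, be' false].getD x.1 st

def ntEquiv : NT ≃ Fin 16 where
  toFun := toFin
  invFun := ofFin
  left_inv := by
    intro x
    rcases x with _ | _ | _ | _ | _ | j | b | b | b | b
    · rfl
    · rfl
    · rfl
    · rfl
    · rfl
    · fin_cases j <;> rfl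
    · cases b <;> rfl
    · cases b <;> rfl
    · cases b <;> rfl
    · cases b <;> rfl
  right_inv := by
    intro x
    fin_cases x <;> rfl

instance : Fintype NT := Fintype.ofEquiv (Fin 16) ntEquiv.symm

theorem card_NT : Fintype.card NT = 16 := by
  rw [Fintype.card_congr ntEquiv, Fintype.card_fin]

variable {t K : ℕ}

abbrev V (t : ℕ) := NT ⊕ Fin t

/-- terminal words -/
def wd (w : List (Fin t)) : List (V t) := w.map Sum.inr
def sA (l : List Bool) : List (V t) := l.map (fun b => Sum.inl (al b))
def sA' (l : List Bool) : List (V t) := l.map (fun b => Sum.inl (al' b))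
def sB (l : List Bool) : List (V t) := l.map (fun b => Sum.inl (be b))
def sB' (l : List Bool) : List (V t) := l.map (fun b => Sum.inl (be' b))

/-- prefix code of a queue letter -/
def code (s : Fin K) : List Bool := List.replicate s.1 false ++ [true]
/-- code of a queue word -/
def ca (l : List (Fin K)) : List Bool := l.flatMap code

theorem code_inj_aux (s s' : Fin K) (x x' : List Bool) (h : code s ++ x = code s' ++ x') :
    s = s' ∧ x = x' := by
  have key : ∀ (n n' : ℕ), List.replicate n false ++ [true] ++ x =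
      List.replicate n' false ++ [true] ++ x' → n = n' ∧ x = x' := by
    intro n
    induction n with
    | zero =>
      intro n' h
      cases n' with
      | zero => exact ⟨rfl, by simpa using h⟩
      | succ n' => simp [List.replicate_succ] at h
    | succ n ih =>
      intro n' h
      cases n' with
      | zero => simp [List.replicate_succ] at h
      | succ n' =>
        simp only [List.replicate_succ, List.cons_append, List.cons.injEq, true_and] at h
        obtain ⟨h1, h2⟩ := ih n' h
        exact ⟨by rw [h1], h2⟩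
  obtain ⟨h1, h2⟩ := key s.1 s'.1 h
  exact ⟨Fin.ext h1, h2⟩

theorem ca_injective : Function.Injective (ca (K := K)) := by
  intro l
  induction l with
  | nil =>
    intro l' h
    cases l' with
    | nil => rfl
    | cons a l' => simp [ca, code] at h
  | cons a l ih =>
    intro l' h
    cases l' with
    | nil => simp [ca, code] at h
    | cons a' l' =>
      obtain ⟨h1, h2⟩ := code_inj_aux a a' (ca l) (ca l') h
      rw [h1, ih h2]

theorem ca_append (l l' : List (Fin K)) : ca (l ++ l') = ca l ++ ca l' := by simp [ca]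

/-! ### The rules -/

def Xs : List NT := [al false, al true, al' false, al' true, zl]
def Ys : List NT := [be false, be true, be' false, be' true, zr]

/-- the forbidden adjacent pairs -/
def pairs : List (List NT) :=
  Xs.flatMap fun x => (Ys.filter fun y => !(decide ((x, y) = (al' false, be' false)) ||
    decide ((x, y) = (al' true, be' true)))).map fun y => [x, y]

def fB : List (List NT) :=
  [[be false], [be true], [be' false], [be' true], [al' false], [al' true], [gS], [gT]]
def fH : List (List NT) := [gS] :: [gT] :: pairs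
def fZr : List (List NT) :=
  [[gS], [gT], [zl], [al false], [al true], [al' false], [al' true],
    [be false], [be true], [be' false], [be' true]]
def fA : List (List NT) :=
  [[al false], [al true], [al' false], [al' true], [gT], [h 1], [h 2]]
def fZl : List (List NT) :=
  [[al false], [al true], [al' false], [al' true],
    [be false], [be true], [be' false], [be' true], [gT]]

variable (P : Fin K → Fin K → List (Fin K)) (p0 : List (Fin K)) (z : Fin t → List (Fin K))

/-- context-free rules -/
def cfRules : List (Rule NT (Fin t)) :=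
  [⟨st, Sum.inl gS :: (sB (ca p0).reverse ++ [Sum.inl zr, Sum.inl (h 0)]), []⟩,
    ⟨gS, [Sum.inl zl, Sum.inl gT], []⟩, ⟨gT, [], []⟩] ++
  ((List.finRange t).map fun a => ⟨gS, Sum.inr a :: Sum.inl gS :: sB (ca (z a)).reverse, []⟩) ++
  ((List.finRange K).map fun x => ⟨gT, sA (ca [x]), []⟩) ++
  ((List.finRange K).flatMap fun x => (List.finRange K).map fun y =>
    ⟨gT, sA (ca [x, y]) ++ Sum.inl gT :: sB (ca (P x y)).reverse, []⟩)

def ctxL : List (Rule NT (Fin t)) :=
  [⟨be false, [Sum.inl (be' false)], fB⟩, ⟨be true, [Sum.inl (be' true)], fB⟩,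
   ⟨h 0, [Sum.inl (h 1)], fH⟩, ⟨h 1, [Sum.inl (h 2)], [[be' false], [be' true]]⟩,
   ⟨h 2, [Sum.inl (h 0)], [[al' false], [al' true]]⟩,
   ⟨zr, [], fZr⟩, ⟨h 0, [], [zr] :: fZr⟩]

def ctxR : List (Rule NT (Fin t)) :=
  [⟨al false, [Sum.inl (al' false)], fA⟩, ⟨al true, [Sum.inl (al' true)], fA⟩,
   ⟨be' false, [], [[h 0], [h 2]]⟩, ⟨be' true, [], [[h 0], [h 2]]⟩,
   ⟨al' false, [], [[h 0], [h 1]]⟩, ⟨al' true, [], [[h 0], [h 1]]⟩,
   ⟨zl, [], fZl⟩]

/-- the grammar -/
def gr : Grammar (Fin t) where
  N := NT
  fin := inferInstance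
  PL := cfRules P p0 z ++ ctxL
  PR := ctxR
  start := st

theorem mem_cfRules {r : Rule NT (Fin t)} (hr : r ∈ cfRules P p0 z) :
    r = ⟨st, Sum.inl gS :: (sB (ca p0).reverse ++ [Sum.inl zr, Sum.inl (h 0)]), []⟩ ∨
    r = ⟨gS, [Sum.inl zl, Sum.inl gT], []⟩ ∨ r = ⟨gT, [], []⟩ ∨
    (∃ a, r = ⟨gS, Sum.inr a :: Sum.inl gS :: sB (ca (z a)).reverse, []⟩) ∨
    (∃ x : Fin K, r = ⟨gT, sA (ca [x]), []⟩) ∨
    (∃ x y : Fin K, r = ⟨gT, sA (ca [x, y]) ++ Sum.inl gT :: sB (ca (P x y)).reverse, []⟩) := by
  rcases List.mem_append.1 hr with hr | hr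
  · rcases List.mem_append.1 hr with hr | hr
    · rcases List.mem_append.1 hr with hr | hr
      · simp only [List.mem_cons, List.not_mem_nil, or_false] at hr
        rcases hr with h | h | h
        · exact Or.inl h
        · exact Or.inr (Or.inl h)
        · exact Or.inr (Or.inr (Or.inl h))
      · obtain ⟨a, -, h⟩ := List.mem_map.1 hr
        exact Or.inr (Or.inr (Or.inr (Or.inl ⟨a, h.symm⟩)))
    · obtain ⟨a, -, h⟩ := List.mem_map.1 hr
      exact Or.inr (Or.inr (Or.inr (Or.inr (Or.inl ⟨a, h.symm⟩))))
  · obtain ⟨x, -, hr⟩ := List.mem_flatMap.1 hr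
    obtain ⟨y, -, h⟩ := List.mem_map.1 hr
    exact Or.inr (Or.inr (Or.inr (Or.inr (Or.inr ⟨x, y, h.symm⟩))))

theorem cf_forb {r : Rule NT (Fin t)} (hr : r ∈ cfRules P p0 z) : r.forb = [] := by
  rcases mem_cfRules P p0 z hr with rfl | rfl | rfl | ⟨a, rfl⟩ | ⟨a, rfl⟩ | ⟨x, y, rfl⟩ <;> rfl

theorem degL (r : Rule NT (Fin t)) (hr : r ∈ cfRules P p0 z ++ ctxL) :
    ∀ f ∈ r.forb, f.length ≤ 2 := by
  intro f hf
  rcases List.mem_append.1 hr with hr1 | hr1
  · have := cf_forb P p0 z hr1
    rw [this] at hf
    simp at hf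
  · have key : ∀ F ∈ [fB, fH, [[be' false], [be' true]], [[al' false], [al' true]], fZr,
        [zr] :: fZr], ∀ f ∈ F, f.length ≤ 2 := by decide
    simp only [ctxL, List.mem_cons, List.not_mem_nil, or_false] at hr1
    rcases hr1 with rfl | rfl | rfl | rfl | rfl | rfl | rfl
    · exact key fB (by simp) f hf
    · exact key fB (by simp) f hf
    · exact key fH (by simp) f hf
    · exact key _ (by simp) f hf
    · exact key _ (by simp) f hf
    · exact key fZr (by simp) f hf
    · exact key _ (by simp) f hf

theorem degR (r : Rule NT (Fin t)) (hr : r ∈ ctxR (t := t)) : ∀ f ∈ r.forb, f.length ≤ 1 := by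
  intro f hf
  have key : ∀ F ∈ [fA, [[h 0], [h 2]], [[h 0], [h 1]], fZl], ∀ f ∈ F, f.length ≤ 1 := by decide
  simp only [ctxR, List.mem_cons, List.not_mem_nil, or_false] at hr
  rcases hr with rfl | rfl | rfl | rfl | rfl | rfl | rfl
  · exact key fA (by simp) f hf
  · exact key fA (by simp) f hf
  · exact key _ (by simp) f hf
  · exact key _ (by simp) f hf
  · exact key _ (by simp) f hf
  · exact key _ (by simp) f hf
  · exact key fZl (by simp) f hf

theorem gr_degree : HasDegree (gr P p0 z) 2 1 := ⟨degL P p0 z, degR⟩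

theorem gr_numNonterminals : numNonterminals (gr P p0 z) = 16 := card_NT

theorem gr_numForbidding : numForbidding (gr P p0 z) = 14 := by
  have h1 : ((cfRules P p0 z ++ ctxL).filter
      (fun r : Rule NT (Fin t) => !r.forb.isEmpty)).length = 7 := by
    rw [List.filter_append]
    have e1 : (cfRules P p0 z).filter (fun r : Rule NT (Fin t) => !r.forb.isEmpty) = [] := by
      rw [List.filter_eq_nil_iff]
      intro r hr
      rw [cf_forb P p0 z hr]
      simp
    rw [e1]
    rfl
  have h2 : ((ctxR : List (Rule NT (Fin t))).filter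
      (fun r : Rule NT (Fin t) => !r.forb.isEmpty)).length = 7 := rfl
  exact congrArg₂ (· + ·) h1 h2

end Pool.R570.OFG
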