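import Pool.Agent.R570.OFG

/-!
# Explicit steps of the grammar, and completeness
-/

set_option autoImplicit false

namespace Pool.R570.OFG

open Relation NT

variable {t K : ℕ} (P : Fin K → Fin K → List (Fin K)) (p0 : List (Fin K)) (z : Fin t → List (Fin K))

/-- explicit steps of the grammar -/
inductive SStep : List (V t) → List (V t) → Prop
  | cst (u v : List (V t)) : SStep (u ++ Sum.inl st :: v)
      (u ++ (Sum.inl gS :: (sB (ca p0).reverse ++ [Sum.inl zr, Sum.inl (h 0)])) ++ v)
  | cS (a : Fin t) (u v : List (V t)) : SStep (u ++ Sum.inl gS :: v)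
      (u ++ (Sum.inr a :: Sum.inl gS :: sB (ca (z a)).reverse) ++ v)
  | cST (u v : List (V t)) : SStep (u ++ Sum.inl gS :: v) (u ++ [Sum.inl zl, Sum.inl gT] ++ v)
  | cT (x y : Fin K) (u v : List (V t)) : SStep (u ++ Sum.inl gT :: v)
      (u ++ (sA (ca [x, y]) ++ Sum.inl gT :: sB (ca (P x y)).reverse) ++ v)
  | cT1 (x : Fin K) (u v : List (V t)) : SStep (u ++ Sum.inl gT :: v) (u ++ sA (ca [x]) ++ v)
  | cT0 (u v : List (V t)) : SStep (u ++ Sum.inl gT :: v) (u ++ [] ++ v)
  | be (b : Bool) (u v : List (V t)) : Free fB u →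
      SStep (u ++ Sum.inl (be b) :: v) (u ++ [Sum.inl (be' b)] ++ v)
  | h01 (u v : List (V t)) : Free fH u → SStep (u ++ Sum.inl (h 0) :: v) (u ++ [Sum.inl (h 1)] ++ v)
  | h12 (u v : List (V t)) : Free [[be' false], [be' true]] u →
      SStep (u ++ Sum.inl (h 1) :: v) (u ++ [Sum.inl (h 2)] ++ v)
  | h20 (u v : List (V t)) : Free [[al' false], [al' true]] u →
      SStep (u ++ Sum.inl (h 2) :: v) (u ++ [Sum.inl (h 0)] ++ v)
  | zr (u v : List (V t)) : Free fZr u → SStep (u ++ Sum.inl zr :: v) (u ++ [] ++ v)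
  | h0 (u v : List (V t)) : Free ([NT.zr] :: fZr) u → SStep (u ++ Sum.inl (h 0) :: v) (u ++ [] ++ v)
  | al (b : Bool) (u v : List (V t)) : Free fA v →
      SStep (u ++ Sum.inl (al b) :: v) (u ++ [Sum.inl (al' b)] ++ v)
  | be' (b : Bool) (u v : List (V t)) : Free [[h 0], [h 2]] v →
      SStep (u ++ Sum.inl (be' b) :: v) (u ++ [] ++ v)
  | al' (b : Bool) (u v : List (V t)) : Free [[h 0], [h 1]] v →
      SStep (u ++ Sum.inl (al' b) :: v) (u ++ [] ++ v)
  | zl (u v : List (V t)) : Free fZl v → SStep (u ++ Sum.inl zl :: v) (u ++ [] ++ v)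

theorem toS_left (r : Rule NT (Fin t)) (u v : List (V t)) (hr : r ∈ cfRules P p0 z ++ ctxL)
    (hF : Free r.forb u) : SStep P p0 z (u ++ Sum.inl r.lhs :: v) (u ++ r.rhs ++ v) := by
  rcases List.mem_append.1 hr with hr | hr
  · rcases mem_cfRules P p0 z hr with rfl | rfl | rfl | ⟨a, rfl⟩ | ⟨a, rfl⟩ | ⟨x, y, rfl⟩
    · exact SStep.cst u v
    · exact SStep.cST u v
    · exact SStep.cT0 u v
    · exact SStep.cS a u v
    · exact SStep.cT1 a u v
    · exact SStep.cT x y u v
  · simp only [ctxL, List.mem_cons, List.not_mem_nil, or_false] at hr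
    rcases hr with rfl | rfl | rfl | rfl | rfl | rfl | rfl
    · exact SStep.be false u v hF
    · exact SStep.be true u v hF
    · exact SStep.h01 u v hF
    · exact SStep.h12 u v hF
    · exact SStep.h20 u v hF
    · exact SStep.zr u v hF
    · exact SStep.h0 u v hF

theorem toS_right (r : Rule NT (Fin t)) (u v : List (V t)) (hr : r ∈ ctxR (t := t))
    (hF : Free r.forb v) : SStep P p0 z (u ++ Sum.inl r.lhs :: v) (u ++ r.rhs ++ v) := by
  simp only [ctxR, List.mem_cons, List.not_mem_nil, or_false] at hr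
  rcases hr with rfl | rfl | rfl | rfl | rfl | rfl | rfl
  · exact SStep.al false u v hF
  · exact SStep.al true u v hF
  · exact SStep.be' false u v hF
  · exact SStep.be' true u v hF
  · exact SStep.al' false u v hF
  · exact SStep.al' true u v hF
  · exact SStep.zl u v hF

theorem step_dest {T : Type} (G : Grammar T) {s s' : List (G.N ⊕ T)} (hs : Step G s s') :
    (∃ r ∈ G.PL, ∃ u v, Free r.forb u ∧ s = u ++ Sum.inl r.lhs :: v ∧ s' = u ++ r.rhs ++ v) ∨
    (∃ r ∈ G.PR, ∃ u v, Free r.forb v ∧ s = u ++ Sum.inl r.lhs :: v ∧ s' = u ++ r.rhs ++ v) := by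
  cases hs with
  | left r u v hr hF => exact Or.inl ⟨r, hr, u, v, hF, rfl, rfl⟩
  | right r u v hr hF => exact Or.inr ⟨r, hr, u, v, hF, rfl, rfl⟩

theorem toSStep {s s' : List (V t)} (hs : Step (gr P p0 z) s s') : SStep P p0 z s s' := by
  rcases step_dest (gr P p0 z) hs with ⟨r, hr, u, v, hF, e1, e2⟩ | ⟨r, hr, u, v, hF, e1, e2⟩
  · rw [e1, e2]
    exact toS_left P p0 z r u v hr hF
  · rw [e1, e2]
    exact toS_right P p0 z r u v hr hF

theorem free_nil (u : List (V t)) : Free ([] : List (List NT)) u := by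
  intro f hf
  simp at hf

theorem stepL (r : Rule NT (Fin t)) (hr : r ∈ cfRules P p0 z ++ ctxL) (u v : List (V t))
    (hF : Free r.forb u) : Step (gr P p0 z) (u ++ Sum.inl r.lhs :: v) (u ++ r.rhs ++ v) :=
  Step.left (G := gr P p0 z) r u v hr hF

theorem stepR (r : Rule NT (Fin t)) (hr : r ∈ ctxR (t := t)) (u v : List (V t))
    (hF : Free r.forb v) : Step (gr P p0 z) (u ++ Sum.inl r.lhs :: v) (u ++ r.rhs ++ v) :=
  Step.right (G := gr P p0 z) r u v hr hF

theorem ofSStep {s s' : List (V t)} (hs : SStep P p0 z s s') : Step (gr P p0 z) s s' := by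
  cases hs with
  | cst u v =>
    exact stepL P p0 z ⟨st, Sum.inl gS :: (sB (ca p0).reverse ++ [Sum.inl NT.zr, Sum.inl (h 0)]), []⟩
      (List.mem_append_left _ (by simp [cfRules])) u v (free_nil u)
  | cS a u v =>
    exact stepL P p0 z ⟨gS, Sum.inr a :: Sum.inl gS :: sB (ca (z a)).reverse, []⟩
      (List.mem_append_left _ (List.mem_append_left _ (List.mem_append_left _
        (List.mem_append_right _
        (List.mem_map.2 ⟨a, List.mem_finRange a, rfl⟩))))) u v (free_nil u)
  | cST u v =>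
    exact stepL P p0 z ⟨gS, [Sum.inl NT.zl, Sum.inl gT], []⟩
      (List.mem_append_left _ (by simp [cfRules])) u v (free_nil u)
  | cT x y u v =>
    exact stepL P p0 z ⟨gT, sA (ca [x, y]) ++ Sum.inl gT :: sB (ca (P x y)).reverse, []⟩
      (List.mem_append_left _ (List.mem_append_right _
        (List.mem_flatMap.2 ⟨x, List.mem_finRange x,
          List.mem_map.2 ⟨y, List.mem_finRange y, rfl⟩⟩))) u v (free_nil u)
  | cT1 x u v =>
    exact stepL P p0 z ⟨gT, sA (ca [x]), []⟩
      (List.mem_append_left _ (List.mem_append_left _ (List.mem_append_right _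
        (List.mem_map.2 ⟨x, List.mem_finRange x, rfl⟩)))) u v (free_nil u)
  | cT0 u v =>
    exact stepL P p0 z ⟨gT, [], []⟩
      (List.mem_append_left _ (by simp [cfRules])) u v (free_nil u)
  | be b u v hF =>
    exact stepL P p0 z ⟨NT.be b, [Sum.inl (NT.be' b)], fB⟩
      (List.mem_append_right _ (by cases b <;> simp [ctxL])) u v hF
  | h01 u v hF =>
    exact stepL P p0 z ⟨h 0, [Sum.inl (h 1)], fH⟩
      (List.mem_append_right _ (by simp [ctxL])) u v hF
  | h12 u v hF =>
    exact stepL P p0 z ⟨h 1, [Sum.inl (h 2)], [[NT.be' false], [NT.be' true]]⟩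
      (List.mem_append_right _ (by simp [ctxL])) u v hF
  | h20 u v hF =>
    exact stepL P p0 z ⟨h 2, [Sum.inl (h 0)], [[NT.al' false], [NT.al' true]]⟩
      (List.mem_append_right _ (by simp [ctxL])) u v hF
  | zr u v hF =>
    exact stepL P p0 z ⟨NT.zr, [], fZr⟩
      (List.mem_append_right _ (by simp [ctxL])) u v hF
  | h0 u v hF =>
    exact stepL P p0 z ⟨h 0, [], [NT.zr] :: fZr⟩
      (List.mem_append_right _ (by simp [ctxL])) u v hF
  | al b u v hF =>
    exact stepR P p0 z ⟨NT.al b, [Sum.inl (NT.al' b)], fA⟩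
      (by cases b <;> simp [ctxR]) u v hF
  | be' b u v hF =>
    exact stepR P p0 z ⟨NT.be' b, [], [[h 0], [h 2]]⟩
      (by cases b <;> simp [ctxR]) u v hF
  | al' b u v hF =>
    exact stepR P p0 z ⟨NT.al' b, [], [[h 0], [h 1]]⟩
      (by cases b <;> simp [ctxR]) u v hF
  | zl u v hF =>
    exact stepR P p0 z ⟨NT.zl, [], fZl⟩
      (by simp [ctxR]) u v hF

/-! ### Basic lemmas -/

@[simp] theorem wd_nil : (wd [] : List (V t)) = [] := rfl
@[simp] theorem wd_append (w w' : List (Fin t)) : wd (w ++ w') = wd w ++ wd w' := by simp [wd]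
@[simp] theorem sA_nil : (sA [] : List (V t)) = [] := rfl
@[simp] theorem sA_cons (c : Bool) (a : List Bool) :
    (sA (c :: a) : List (V t)) = Sum.inl (NT.al c) :: sA a := rfl
@[simp] theorem sA_append (a a' : List Bool) : (sA (a ++ a') : List (V t)) = sA a ++ sA a' := by
  simp [sA]
@[simp] theorem sA'_nil : (sA' [] : List (V t)) = [] := rfl
@[simp] theorem sA'_cons (c : Bool) (a : List Bool) :
    (sA' (c :: a) : List (V t)) = Sum.inl (NT.al' c) :: sA' a := rfl
@[simp] theorem sA'_append (a a' : List Bool) : (sA' (a ++ a') : List (V t)) = sA' a ++ sA' a' := by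
  simp [sA']
@[simp] theorem sB_nil : (sB [] : List (V t)) = [] := rfl
@[simp] theorem sB_cons (c : Bool) (a : List Bool) :
    (sB (c :: a) : List (V t)) = Sum.inl (NT.be c) :: sB a := rfl
@[simp] theorem sB_append (a a' : List Bool) : (sB (a ++ a') : List (V t)) = sB a ++ sB a' := by
  simp [sB]
@[simp] theorem sB'_nil : (sB' [] : List (V t)) = [] := rfl
@[simp] theorem sB'_cons (c : Bool) (a : List Bool) :
    (sB' (c :: a) : List (V t)) = Sum.inl (NT.be' c) :: sB' a := rfl
@[simp] theorem sB'_append (a a' : List Bool) : (sB' (a ++ a') : List (V t)) = sB' a ++ sB' a' := by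
  simp [sB']

@[simp] theorem mem_wd {w : List (Fin t)} {X : NT} : (Sum.inl X : V t) ∈ wd w ↔ False := by
  simp [wd]
@[simp] theorem mem_sA {l : List Bool} {X : NT} : (Sum.inl X : V t) ∈ sA l ↔
    ∃ b ∈ l, NT.al b = X := by
  simp [sA]
@[simp] theorem mem_sA' {l : List Bool} {X : NT} : (Sum.inl X : V t) ∈ sA' l ↔
    ∃ b ∈ l, NT.al' b = X := by
  simp [sA']
@[simp] theorem mem_sB {l : List Bool} {X : NT} : (Sum.inl X : V t) ∈ sB l ↔
    ∃ b ∈ l, NT.be b = X := by
  simp [sB]
@[simp] theorem mem_sB' {l : List Bool} {X : NT} : (Sum.inl X : V t) ∈ sB' l ↔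
    ∃ b ∈ l, NT.be' b = X := by
  simp [sB']

theorem free_of (L : List NT) (u : List (V t)) (hu : ∀ X ∈ L, Sum.inl X ∉ u) :
    Free (L.map fun X => [X]) u := by
  intro f hf hi
  obtain ⟨X, hX, rfl⟩ := List.mem_map.1 hf
  obtain ⟨a, b, e⟩ := hi
  apply hu X hX
  rw [← e]
  simp

theorem Free.nm {F : List (List NT)} {u : List (V t)} (hF : Free F u) {X : NT} (hX : [X] ∈ F) :
    Sum.inl X ∉ u := by
  intro hm
  obtain ⟨a, b, rfl⟩ := List.append_of_mem hm
  exact hF _ hX ⟨a, b, by simp⟩

/-- the sentential forms of the second phase -/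
def frm (w : List (Fin t)) (a pa pb b : List Bool) (j : Fin 3) : List (V t) :=
  wd w ++ Sum.inl NT.zl :: (sA a ++ (sA' pa ++ (sB' pb ++ (sB b ++ [Sum.inl NT.zr, Sum.inl (h j)]))))

def ph1 (w : List (Fin t)) : List (V t) :=
  wd w ++ Sum.inl gS :: (sB (ca (p0 ++ w.flatMap z)).reverse ++ [Sum.inl NT.zr, Sum.inl (h 0)])

def ph2 (w : List (Fin t)) (ps : List (Fin K × Fin K)) : List (V t) :=
  wd w ++ Sum.inl NT.zl :: (sA (ca (ps.flatMap fun q => [q.1, q.2])) ++ Sum.inl gT ::
    (sB (ca (p0 ++ w.flatMap z ++ ps.flatMap fun q => P q.1 q.2)).reverse ++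
      [Sum.inl NT.zr, Sum.inl (h 0)]))

/-! ### Completeness -/

theorem fc_be (w : List (Fin t)) (a : List Bool) (c : Bool) (b : List Bool) :
    SStep P p0 z (frm w a [] [] (c :: b) 0) (frm w a [] [c] b 0) := by
  have hF : Free fB (wd w ++ Sum.inl NT.zl :: sA a) :=
    free_of [NT.be false, NT.be true, NT.be' false, NT.be' true, NT.al' false, NT.al' true, gS, gT]
      _ (by simp)
  have := SStep.be (P := P) (p0 := p0) (z := z) c (wd w ++ Sum.inl NT.zl :: sA a)
    (sB b ++ [Sum.inl NT.zr, Sum.inl (h 0)]) hF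
  simpa [frm] using this

theorem fc_al (w : List (Fin t)) (a : List Bool) (c : Bool) (pb b : List Bool) :
    SStep P p0 z (frm w (a ++ [c]) [] pb b 0) (frm w a [c] pb b 0) := by
  have hF : Free fA (sB' pb ++ (sB b ++ [Sum.inl NT.zr, Sum.inl (h 0)]) : List (V t)) :=
    free_of [NT.al false, NT.al true, NT.al' false, NT.al' true, gT, h 1, h 2] _ (by simp)
  have := SStep.al (P := P) (p0 := p0) (z := z) c (wd w ++ Sum.inl NT.zl :: sA a)
    (sB' pb ++ (sB b ++ [Sum.inl NT.zr, Sum.inl (h 0)])) hF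
  simpa [frm] using this

theorem fc_h12 (w : List (Fin t)) (a pa b : List Bool) :
    SStep P p0 z (frm w a pa [] b 1) (frm w a pa [] b 2) := by
  have hF : Free [[NT.be' false], [NT.be' true]]
      (wd w ++ Sum.inl NT.zl :: (sA a ++ (sA' pa ++ (sB b ++ [Sum.inl NT.zr])))) :=
    free_of [NT.be' false, NT.be' true] _ (by simp)
  have := SStep.h12 (P := P) (p0 := p0) (z := z) _ [] hF
  simpa [frm] using this

theorem fc_h20 (w : List (Fin t)) (a pb b : List Bool) :
    SStep P p0 z (frm w a [] pb b 2) (frm w a [] pb b 0) := by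
  have hF : Free [[NT.al' false], [NT.al' true]]
      (wd w ++ Sum.inl NT.zl :: (sA a ++ (sB' pb ++ (sB b ++ [Sum.inl NT.zr])))) :=
    free_of [NT.al' false, NT.al' true] _ (by simp)
  have := SStep.h20 (P := P) (p0 := p0) (z := z) _ [] hF
  simpa [frm] using this

theorem fc_be' (w : List (Fin t)) (a pa : List Bool) (c : Bool) (b : List Bool) :
    SStep P p0 z (frm w a pa [c] b 1) (frm w a pa [] b 1) := by
  have hF : Free [[h 0], [h 2]] (sB b ++ [Sum.inl NT.zr, Sum.inl (h 1)] : List (V t)) :=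
    free_of [h 0, h 2] _ (by simp)
  have := SStep.be' (P := P) (p0 := p0) (z := z) c (wd w ++ Sum.inl NT.zl :: (sA a ++ sA' pa)) _ hF
  simpa [frm] using this

theorem fc_al' (w : List (Fin t)) (a : List Bool) (c : Bool) (pb b : List Bool) :
    SStep P p0 z (frm w a [c] pb b 2) (frm w a [] pb b 2) := by
  have hF : Free [[h 0], [h 1]] (sB' pb ++ (sB b ++ [Sum.inl NT.zr, Sum.inl (h 2)]) : List (V t)) :=
    free_of [h 0, h 1] _ (by simp)
  have := SStep.al' (P := P) (p0 := p0) (z := z) c (wd w ++ Sum.inl NT.zl :: sA a) _ hF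
  simpa [frm] using this

theorem fc_zl (w : List (Fin t)) (j : Fin 3) :
    SStep P p0 z (frm w [] [] [] [] j) (wd w ++ [Sum.inl NT.zr, Sum.inl (h j)]) := by
  have hF : Free fZl ([Sum.inl NT.zr, Sum.inl (h j)] : List (V t)) :=
    free_of [NT.al false, NT.al true, NT.al' false, NT.al' true, NT.be false, NT.be true,
      NT.be' false, NT.be' true, gT] _ (by simp)
  have := SStep.zl (P := P) (p0 := p0) (z := z) (wd w) _ hF
  simpa [frm] using this

theorem fc_zr (w : List (Fin t)) (j : Fin 3) :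
    SStep P p0 z (wd w ++ [Sum.inl NT.zr, Sum.inl (h j)]) (wd w ++ [Sum.inl (h j)]) := by
  have hF : Free fZr (wd w) :=
    free_of [gS, gT, NT.zl, NT.al false, NT.al true, NT.al' false, NT.al' true,
      NT.be false, NT.be true, NT.be' false, NT.be' true] _ (by simp)
  have := SStep.zr (P := P) (p0 := p0) (z := z) (wd w) [Sum.inl (h j)] hF
  simpa using this

theorem fc_h0 (w : List (Fin t)) :
    SStep P p0 z (wd w ++ [Sum.inl (h 0)]) (wd w) := by
  have hF : Free ([NT.zr] :: fZr) (wd w) :=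
    free_of [NT.zr, gS, gT, NT.zl, NT.al false, NT.al true, NT.al' false, NT.al' true,
      NT.be false, NT.be true, NT.be' false, NT.be' true] _ (by simp)
  have := SStep.h0 (P := P) (p0 := p0) (z := z) (wd w) [] hF
  simpa using this

/-- split an append at a symbol -/
theorem split_left {p q u v : List (V t)} {X : V t} (e : p ++ q = u ++ X :: v) (hX : X ∉ p) :
    ∃ m, u = p ++ m ∧ q = m ++ X :: v := by
  rcases List.append_eq_append_iff.1 e with ⟨m, h1, h2⟩ | ⟨c, h1, h2⟩
  · exact ⟨m, h1, h2⟩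
  · cases c with
    | nil => exact ⟨[], by simpa using h1.symm, by simpa using h2.symm⟩
    | cons y c =>
      exfalso
      rw [List.cons_append, List.cons.injEq] at h2
      apply hX
      rw [h1, h2.1]
      simp

theorem split_right {p q u v : List (V t)} {X : V t} (e : p ++ q = u ++ X :: v) (hX : X ∉ q) :
    ∃ m, p = u ++ X :: m ∧ v = m ++ q := by
  rcases List.append_eq_append_iff.1 e with ⟨m, h1, h2⟩ | ⟨c, h1, h2⟩
  · exfalso
    apply hX
    rw [h2]
    simp
  · cases c with
    | nil =>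
      exfalso
      apply hX
      rw [List.nil_append] at h2
      rw [← h2]
      simp
    | cons y c =>
      rw [List.cons_append, List.cons.injEq] at h2
      obtain ⟨rfl, h3⟩ := h2
      exact ⟨c, h1, h3⟩

theorem fc_h01 (w : List (Fin t)) (a : List Bool) (c : Bool) (b : List Bool) :
    SStep P p0 z (frm w a [c] [c] b 0) (frm w a [c] [c] b 1) := by
  have hF : Free fH ((wd w ++ Sum.inl NT.zl :: (sA a ++ [Sum.inl (NT.al' c)])) ++
      (Sum.inl (NT.be' c) :: (sB b ++ [Sum.inl NT.zr]))) := by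
    intro f hf hi
    rcases List.mem_cons.1 hf with rfl | hf
    · exact free_of [gS] _ (by simp) [gS] (by simp) hi
    rcases List.mem_cons.1 hf with rfl | hf
    · exact free_of [gT] _ (by simp) [gT] (by simp) hi
    have key : ∀ f ∈ pairs, ∃ x ∈ Xs, ∃ y ∈ Ys, f = [x, y] ∧
        ∀ c : Bool, ¬ (x = NT.al' c ∧ y = NT.be' c) := by decide
    obtain ⟨x, hx, y, hy, rfl, hxy⟩ := key f hf
    obtain ⟨s1, s2, e⟩ := hi
    have e' : (wd w ++ Sum.inl NT.zl :: (sA a ++ [Sum.inl (NT.al' c)])) ++
      (Sum.inl (NT.be' c) :: (sB b ++ [Sum.inl NT.zr])) =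
        s1 ++ (Sum.inl x :: (Sum.inl y :: s2) : List (V t)) := by
      rw [← e]
      simp
    have hx' : (Sum.inl x : V t) ∉ (Sum.inl (NT.be' c) :: (sB b ++ [Sum.inl NT.zr]) : List (V t)) := by
      simp only [Xs, List.mem_cons, List.not_mem_nil, or_false] at hx
      rcases hx with rfl | rfl | rfl | rfl | rfl <;> simp
    obtain ⟨m, h1, h2⟩ := split_right e' hx'
    cases m with
    | nil =>
      have h3 : (Sum.inl x : V t) = Sum.inl (NT.al' c) := by
        have h1' : (wd w ++ Sum.inl NT.zl :: sA a) ++ [Sum.inl (NT.al' c)] = s1 ++ [Sum.inl x] := by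
          rw [← h1]
          simp
        have := (List.append_inj' h1' rfl).2
        simpa using this.symm
      rw [List.nil_append, List.cons.injEq] at h2
      exact hxy c ⟨Sum.inl.inj h3, Sum.inl.inj h2.1⟩
    | cons y' m =>
      rw [List.cons_append, List.cons.injEq] at h2
      have h4 : (Sum.inl y : V t) ∈ (wd w ++ Sum.inl NT.zl :: (sA a ++ [Sum.inl (NT.al' c)]) :
          List (V t)) := by
        rw [h1, h2.1]
        simp
      simp only [Ys, List.mem_cons, List.not_mem_nil, or_false] at hy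
      rcases hy with rfl | rfl | rfl | rfl | rfl <;> simp at h4
  have := SStep.h01 (P := P) (p0 := p0) (z := z) _ [] hF
  simpa [frm] using this

theorem cancel (w : List (Fin t)) (b : List Bool) :
    ReflTransGen (SStep P p0 z) (frm w b.reverse [] [] b 0) (wd w) := by
  induction b with
  | nil =>
    exact ReflTransGen.head (fc_zl P p0 z w 0)
      (ReflTransGen.head (fc_zr P p0 z w 0) (ReflTransGen.single (fc_h0 P p0 z w)))
  | cons c b ih =>
    rw [List.reverse_cons]
    refine ReflTransGen.head (fc_be P p0 z w _ c b) ?_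
    refine ReflTransGen.head (fc_al P p0 z w _ c _ b) ?_
    refine ReflTransGen.head (fc_h01 P p0 z w _ c b) ?_
    refine ReflTransGen.head (fc_be' P p0 z w _ _ c b) ?_
    refine ReflTransGen.head (fc_h12 P p0 z w _ _ b) ?_
    refine ReflTransGen.head (fc_al' P p0 z w _ c _ b) ?_
    exact ReflTransGen.head (fc_h20 P p0 z w _ _ b) ih

theorem reach1 (w : List (Fin t)) :
    ReflTransGen (SStep P p0 z) [Sum.inl st] (ph1 p0 z w) := by
  induction w using List.reverseRecOn with
  | nil =>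
    have := SStep.cst (P := P) (p0 := p0) (z := z) [] []
    refine ReflTransGen.single ?_
    simpa [ph1] using this
  | append_singleton w a ih =>
    refine ReflTransGen.tail ih ?_
    have := SStep.cS (P := P) (p0 := p0) (z := z) a (wd w)
      (sB (ca (p0 ++ w.flatMap z)).reverse ++ [Sum.inl NT.zr, Sum.inl (h 0)])
    simpa [ph1, ca_append, wd] using this

theorem reach2 (w : List (Fin t)) (ps : List (Fin K × Fin K)) :
    ReflTransGen (SStep P p0 z) [Sum.inl st] (ph2 P p0 z w ps) := by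
  induction ps using List.reverseRecOn with
  | nil =>
    refine ReflTransGen.tail (reach1 P p0 z w) ?_
    have := SStep.cST (P := P) (p0 := p0) (z := z) (wd w)
      (sB (ca (p0 ++ w.flatMap z)).reverse ++ [Sum.inl NT.zr, Sum.inl (h 0)])
    simpa [ph1, ph2, ca] using this
  | append_singleton ps q ih =>
    refine ReflTransGen.tail ih ?_
    have := SStep.cT (P := P) (p0 := p0) (z := z) q.1 q.2
      (wd w ++ Sum.inl NT.zl :: sA (ca (ps.flatMap fun q => [q.1, q.2])))
      (sB (ca (p0 ++ w.flatMap z ++ ps.flatMap fun q => P q.1 q.2)).reverse ++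
        [Sum.inl NT.zr, Sum.inl (h 0)])
    simpa [ph2, ca_append] using this

theorem complete (w : List (Fin t)) (ps : List (Fin K × Fin K)) (e : List (Fin K))
    (he : e.length ≤ 1) (heq : ps.flatMap (fun q => [q.1, q.2]) ++ e =
      p0 ++ w.flatMap z ++ ps.flatMap (fun q => P q.1 q.2)) :
    ReflTransGen (SStep P p0 z) [Sum.inl st] (wd w) := by
  refine ReflTransGen.trans (reach2 P p0 z w ps) ?_
  have hc := cancel P p0 z w (ca (p0 ++ w.flatMap z ++ ps.flatMap (fun q => P q.1 q.2))).reverse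
  rw [List.reverse_reverse, ← heq, ca_append] at hc
  refine ReflTransGen.head ?_ hc
  rcases e with _ | ⟨x, _ | ⟨x', e⟩⟩
  · have := SStep.cT0 (P := P) (p0 := p0) (z := z)
      (wd w ++ Sum.inl NT.zl :: sA (ca (ps.flatMap fun q => [q.1, q.2])))
      (sB (ca (p0 ++ w.flatMap z ++ ps.flatMap fun q => P q.1 q.2)).reverse ++
        [Sum.inl NT.zr, Sum.inl (h 0)])
    rw [← heq] at this
    simpa [ph2, frm, ← heq, ca] using this
  · have := SStep.cT1 (P := P) (p0 := p0) (z := z) x
      (wd w ++ Sum.inl NT.zl :: sA (ca (ps.flatMap fun q => [q.1, q.2])))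
      (sB (ca (p0 ++ w.flatMap z ++ ps.flatMap fun q => P q.1 q.2)).reverse ++
        [Sum.inl NT.zr, Sum.inl (h 0)])
    rw [← heq] at this
    simpa [ph2, frm, ← heq, ca_append] using this
  · simp at he

end Pool.R570.OFG
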