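import Mathlib

/-!
# Generalized one-sided forbidding grammars
-/

set_option autoImplicit false

namespace Pool.R570.OFG

/-- A forbidding rule `(A → x, F)`: nonterminal `lhs = A`, right-hand side `rhs = x` (a word over
nonterminals and terminals), and the finite set `forb = F` of words over the nonterminals. -/
structure Rule (N T : Type) where
  lhs : N
  rhs : List (N ⊕ T)
  forb : List (List N)

/-- A generalized one-sided forbidding grammar over the terminal alphabet `T`: a finite alphabet
`N` of nonterminals (disjoint from `T`, as words are over `N ⊕ T`), the finite sets `PL`, `PR` of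
left and right forbidding rules, the start symbol. -/
structure Grammar (T : Type) where
  N : Type
  fin : Fintype N
  PL : List (Rule N T)
  PR : List (Rule N T)
  start : N

/-- No word of `F` is a substring of `u`. -/
def Free {N T : Type} (F : List (List N)) (u : List (N ⊕ T)) : Prop :=
  ∀ f ∈ F, ¬ (f.map Sum.inl <:+: u)

/-- One derivation step. -/
inductive Step {T : Type} (G : Grammar T) : List (G.N ⊕ T) → List (G.N ⊕ T) → Prop
  | left (r : Rule G.N T) (u v : List (G.N ⊕ T)) : r ∈ G.PL → Free r.forb u →
      Step G (u ++ Sum.inl r.lhs :: v) (u ++ r.rhs ++ v)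
  | right (r : Rule G.N T) (u v : List (G.N ⊕ T)) : r ∈ G.PR → Free r.forb v →
      Step G (u ++ Sum.inl r.lhs :: v) (u ++ r.rhs ++ v)

/-- The generated language. -/
def language {T : Type} (G : Grammar T) : Set (List T) :=
  {w | Relation.ReflTransGen (Step G) [Sum.inl G.start] (w.map Sum.inr)}

/-- `G` has degree `(m, n)`. -/
def HasDegree {T : Type} (G : Grammar T) (m n : ℕ) : Prop :=
  (∀ r ∈ G.PL, ∀ f ∈ r.forb, f.length ≤ m) ∧ (∀ r ∈ G.PR, ∀ f ∈ r.forb, f.length ≤ n)

/-- The number of nonterminals. -/
def numNonterminals {T : Type} (G : Grammar T) : ℕ := @Fintype.card G.N G.fin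

/-- The number of rules with a nonempty forbidding context. -/
def numForbidding {T : Type} (G : Grammar T) : ℕ :=
  (G.PL.filter (fun r => !r.forb.isEmpty)).length + (G.PR.filter (fun r => !r.forb.isEmpty)).length

end Pool.R570.OFG
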