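import Pool.Agent.R570.OFGSound

/-!
# Reversal, and the final statement
-/

set_option autoImplicit false

namespace Pool.R570.OFG

open Relation

/-- reversed rule -/
def revRule {N T : Type} (r : Rule N T) : Rule N T :=
  ⟨r.lhs, r.rhs.reverse, r.forb.map List.reverse⟩

/-- reversed grammar -/
def revG {T : Type} (G : Grammar T) : Grammar T :=
  ⟨G.N, G.fin, G.PR.map revRule, G.PL.map revRule, G.start⟩

theorem free_rev {N T : Type} {F : List (List N)} {u : List (N ⊕ T)} :
    Free (F.map List.reverse) u.reverse ↔ Free F u := by
  unfold Free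
  simp only [List.mem_map, forall_exists_index, and_imp, forall_apply_eq_imp_iff₂,
    List.map_reverse, List.reverse_infix]

/-- steps with explicit rule lists -/
inductive StepL {N T : Type} (PL PR : List (Rule N T)) : List (N ⊕ T) → List (N ⊕ T) → Prop
  | left (r : Rule N T) (u v : List (N ⊕ T)) : r ∈ PL → Free r.forb u →
      StepL PL PR (u ++ Sum.inl r.lhs :: v) (u ++ r.rhs ++ v)
  | right (r : Rule N T) (u v : List (N ⊕ T)) : r ∈ PR → Free r.forb v →
      StepL PL PR (u ++ Sum.inl r.lhs :: v) (u ++ r.rhs ++ v)

theorem step_iff {T : Type} (G : Grammar T) (s s' : List (G.N ⊕ T)) :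
    Step G s s' ↔ StepL G.PL G.PR s s' := by
  constructor
  · intro hs
    cases hs with
    | left r u v hr hF => exact StepL.left r u v hr hF
    | right r u v hr hF => exact StepL.right r u v hr hF
  · intro hs
    cases hs with
    | left r u v hr hF => exact Step.left r u v hr hF
    | right r u v hr hF => exact Step.right r u v hr hF

theorem step_eq {T : Type} (G : Grammar T) : Step G = StepL G.PL G.PR := by
  funext s s'
  exact propext (step_iff G s s')

theorem stepL_rev {N T : Type} (PL PR : List (Rule N T)) {s s' : List (N ⊕ T)}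
    (hs : StepL PL PR s s') :
    StepL (PR.map revRule) (PL.map revRule) s.reverse s'.reverse := by
  cases hs with
  | left r u v hr hF =>
    have := StepL.right (PL := PR.map revRule) (PR := PL.map revRule) (revRule r) v.reverse
      u.reverse (List.mem_map_of_mem (f := revRule) hr) (free_rev.2 hF)
    have e1 : (u ++ Sum.inl r.lhs :: v).reverse =
        v.reverse ++ Sum.inl (revRule r).lhs :: u.reverse := by simp [revRule]
    have e2 : (u ++ r.rhs ++ v).reverse = v.reverse ++ (revRule r).rhs ++ u.reverse := by
      simp [revRule]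
    rw [e1, e2]
    exact this
  | right r u v hr hF =>
    have := StepL.left (PL := PR.map revRule) (PR := PL.map revRule) (revRule r) v.reverse
      u.reverse (List.mem_map_of_mem (f := revRule) hr) (free_rev.2 hF)
    have e1 : (u ++ Sum.inl r.lhs :: v).reverse =
        v.reverse ++ Sum.inl (revRule r).lhs :: u.reverse := by simp [revRule]
    have e2 : (u ++ r.rhs ++ v).reverse = v.reverse ++ (revRule r).rhs ++ u.reverse := by
      simp [revRule]
    rw [e1, e2]
    exact this

theorem revRule_revRule {N T : Type} (r : Rule N T) : revRule (revRule r) = r := by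
  cases r
  simp [revRule, Function.comp_def]

theorem map_rev_rev {N T : Type} (l : List (Rule N T)) : (l.map revRule).map revRule = l := by
  rw [List.map_map]
  conv_rhs => rw [← List.map_id l]
  apply List.map_congr_left
  intro r _
  exact revRule_revRule r

theorem stepL_rev' {N T : Type} (PL PR : List (Rule N T)) {s s' : List (N ⊕ T)}
    (hs : StepL (PR.map revRule) (PL.map revRule) s s') :
    StepL PL PR s.reverse s'.reverse := by
  have := stepL_rev _ _ hs
  rw [map_rev_rev, map_rev_rev] at this
  exact this

theorem derL_rev {N T : Type} (PL PR : List (Rule N T)) (S : N) (w : List T) :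
    Relation.ReflTransGen (StepL (PR.map revRule) (PL.map revRule)) [Sum.inl S] (w.map Sum.inr) ↔
    Relation.ReflTransGen (StepL PL PR) [Sum.inl S] (w.reverse.map Sum.inr) := by
  constructor
  · intro hw
    have := Relation.ReflTransGen.lift (List.reverse (α := N ⊕ T))
      (fun a b hab => stepL_rev' PL PR hab) _ _ hw
    simp only [Function.onFun] at this
    rw [List.reverse_singleton, ← List.map_reverse] at this
    exact this
  · intro hw
    have := Relation.ReflTransGen.lift (List.reverse (α := N ⊕ T))
      (fun a b hab => stepL_rev PL PR hab) _ _ hw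
    simp only [Function.onFun] at this
    rw [List.reverse_singleton, ← List.map_reverse, List.reverse_reverse] at this
    exact this

theorem language_rev {T : Type} (G : Grammar T) (w : List T) :
    w ∈ language (revG G) ↔ w.reverse ∈ language G := by
  have h1 : w ∈ language (revG G) ↔ Relation.ReflTransGen
      (StepL (G.PR.map revRule) (G.PL.map revRule)) [Sum.inl G.start] (w.map Sum.inr) := by
    unfold language
    rw [Set.mem_ofPred_eq, step_eq]
    exact Iff.rfl
  have h2 : w.reverse ∈ language G ↔ Relation.ReflTransGen
      (StepL G.PL G.PR) [Sum.inl G.start] (w.reverse.map Sum.inr) := by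
    unfold language
    rw [Set.mem_ofPred_eq, step_eq]
  rw [h1, h2]
  exact derL_rev G.PL G.PR G.start w

theorem deg_aux {N T : Type} (l : List (Rule N T)) (m : ℕ)
    (hl : ∀ r ∈ l, ∀ f ∈ r.forb, f.length ≤ m) :
    ∀ r ∈ l.map revRule, ∀ f ∈ r.forb, f.length ≤ m := by
  intro r hr f hf
  obtain ⟨r', hr', rfl⟩ := List.mem_map.1 hr
  obtain ⟨f', hf', rfl⟩ := List.mem_map.1 hf
  rw [List.length_reverse]
  exact hl r' hr' f' hf'

theorem degree_rev {T : Type} (G : Grammar T) (hG : HasDegree G 2 1) : HasDegree (revG G) 1 2 :=
  ⟨deg_aux G.PR 1 hG.2, deg_aux G.PL 2 hG.1⟩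

theorem filter_rev {N T : Type} (l : List (Rule N T)) :
    ((l.map revRule).filter (fun r => !r.forb.isEmpty)).length =
      (l.filter (fun r => !r.forb.isEmpty)).length := by
  rw [List.filter_map, List.length_map]
  congr 1
  apply List.filter_congr
  intro r _
  simp [revRule]

theorem forb_rev {T : Type} (G : Grammar T) : numForbidding (revG G) = numForbidding G := by
  have h1 := filter_rev G.PL
  have h2 := filter_rev G.PR
  unfold numForbidding
  rw [← h1, ← h2]
  exact Nat.add_comm _ _

theorem final (t : ℕ) (L : Set (List (Fin t))) (hL : REPred fun w => w ∈ L) :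
    (∃ G : Grammar (Fin t), language G = L ∧ HasDegree G 2 1 ∧ numNonterminals G ≤ 16 ∧
      numForbidding G ≤ 14) ∧
    (∃ G : Grammar (Fin t), language G = L ∧ HasDegree G 1 2 ∧ numNonterminals G ≤ 16 ∧
      numForbidding G ≤ 14) := by
  constructor
  · obtain ⟨G, h1, h2, h3, h4⟩ := main (fun w => w ∈ L) hL
    exact ⟨G, Set.ext h1, h2, h3.le, h4.le⟩
  · have hL' : REPred fun w : List (Fin t) => w.reverse ∈ L :=
      Partrec.comp hL Primrec.list_reverse.to_comp
    obtain ⟨G, h1, h2, h3, h4⟩ := main (fun w => w.reverse ∈ L) hL'
    refine ⟨revG G, ?_, degree_rev G h2, h3.le, (forb_rev G).trans h4 |>.le⟩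
    ext w
    rw [language_rev, h1, List.reverse_reverse]

end Pool.R570.OFG
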