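import Pool.Agent.R570.OFGComp

/-!
# Soundness of the grammar
-/

set_option autoImplicit false

namespace Pool.R570.OFG

open Relation NT

variable {t K : ℕ} (P : Fin K → Fin K → List (Fin K)) (p0 : List (Fin K)) (z : Fin t → List (Fin K))

/-! ### splitting the sentential forms -/

theorem sA_split {a : List Bool} {u m : List (V t)} {c : Bool}
    (e : sA a = u ++ Sum.inl (NT.al c) :: m) :
    ∃ a1 a2, a = a1 ++ c :: a2 ∧ u = sA a1 ∧ m = sA a2 := by
  obtain ⟨a1, a', rfl, h1, h2⟩ := List.map_eq_append_iff.1 e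
  obtain ⟨c', a2, rfl, h3, h4⟩ := List.map_eq_cons_iff.1 h2
  have : c' = c := by simpa using h3
  subst this
  exact ⟨a1, a2, rfl, h1.symm, h4.symm⟩

theorem sA'_split {a : List Bool} {u m : List (V t)} {c : Bool}
    (e : sA' a = u ++ Sum.inl (NT.al' c) :: m) :
    ∃ a1 a2, a = a1 ++ c :: a2 ∧ u = sA' a1 ∧ m = sA' a2 := by
  obtain ⟨a1, a', rfl, h1, h2⟩ := List.map_eq_append_iff.1 e
  obtain ⟨c', a2, rfl, h3, h4⟩ := List.map_eq_cons_iff.1 h2
  have : c' = c := by simpa using h3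
  subst this
  exact ⟨a1, a2, rfl, h1.symm, h4.symm⟩

theorem sB_split {a : List Bool} {u m : List (V t)} {c : Bool}
    (e : sB a = u ++ Sum.inl (NT.be c) :: m) :
    ∃ a1 a2, a = a1 ++ c :: a2 ∧ u = sB a1 ∧ m = sB a2 := by
  obtain ⟨a1, a', rfl, h1, h2⟩ := List.map_eq_append_iff.1 e
  obtain ⟨c', a2, rfl, h3, h4⟩ := List.map_eq_cons_iff.1 h2
  have : c' = c := by simpa using h3
  subst this
  exact ⟨a1, a2, rfl, h1.symm, h4.symm⟩

theorem sB'_split {a : List Bool} {u m : List (V t)} {c : Bool}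
    (e : sB' a = u ++ Sum.inl (NT.be' c) :: m) :
    ∃ a1 a2, a = a1 ++ c :: a2 ∧ u = sB' a1 ∧ m = sB' a2 := by
  obtain ⟨a1, a', rfl, h1, h2⟩ := List.map_eq_append_iff.1 e
  obtain ⟨c', a2, rfl, h3, h4⟩ := List.map_eq_cons_iff.1 h2
  have : c' = c := by simpa using h3
  subst this
  exact ⟨a1, a2, rfl, h1.symm, h4.symm⟩

theorem eq_nil_of {l : List Bool} (h1 : false ∉ l) (h2 : true ∉ l) : l = [] := by
  cases l with
  | nil => rfl
  | cons a l => cases a <;> simp at h1 h2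

section
variable {w : List (Fin t)} {a pa pb b : List Bool} {j : Fin 3} {u v : List (V t)}

theorem frm_pre {X : NT} (hX : X ≠ NT.zl) (e : frm w a pa pb b j = u ++ Sum.inl X :: v) :
    ∃ m, u = wd w ++ Sum.inl NT.zl :: m ∧
      sA a ++ (sA' pa ++ (sB' pb ++ (sB b ++ [Sum.inl NT.zr, Sum.inl (h j)]))) =
        m ++ Sum.inl X :: v := by
  obtain ⟨m, rfl, h1⟩ := split_left e (by simp)
  cases m with
  | nil =>
    rw [List.nil_append, List.cons.injEq] at h1
    exact (hX (Sum.inl.inj h1.1).symm).elim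
  | cons y m =>
    rw [List.cons_append, List.cons.injEq] at h1
    obtain ⟨rfl, h2⟩ := h1
    exact ⟨m, rfl, h2⟩

theorem frm_al {c : Bool} (e : frm w a pa pb b j = u ++ Sum.inl (NT.al c) :: v) :
    ∃ a1 a2, a = a1 ++ c :: a2 ∧ u = wd w ++ Sum.inl NT.zl :: sA a1 ∧
      v = sA a2 ++ (sA' pa ++ (sB' pb ++ (sB b ++ [Sum.inl NT.zr, Sum.inl (h j)]))) := by
  obtain ⟨m2, rfl, h2⟩ := frm_pre (by simp) e
  obtain ⟨m3, h3, rfl⟩ := split_right h2 (by simp)
  obtain ⟨a1, a2, rfl, rfl, rfl⟩ := sA_split h3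
  exact ⟨a1, a2, rfl, rfl, rfl⟩

theorem frm_al' {c : Bool} (e : frm w a pa pb b j = u ++ Sum.inl (NT.al' c) :: v) :
    ∃ a1 a2, pa = a1 ++ c :: a2 ∧ u = wd w ++ Sum.inl NT.zl :: (sA a ++ sA' a1) ∧
      v = sA' a2 ++ (sB' pb ++ (sB b ++ [Sum.inl NT.zr, Sum.inl (h j)])) := by
  obtain ⟨m2, rfl, h2⟩ := frm_pre (by simp) e
  obtain ⟨m3, rfl, h3⟩ := split_left h2 (by simp)
  obtain ⟨m4, h4, rfl⟩ := split_right h3 (by simp)
  obtain ⟨a1, a2, rfl, rfl, rfl⟩ := sA'_split h4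
  exact ⟨a1, a2, rfl, rfl, rfl⟩

theorem frm_be' {c : Bool} (e : frm w a pa pb b j = u ++ Sum.inl (NT.be' c) :: v) :
    ∃ a1 a2, pb = a1 ++ c :: a2 ∧ u = wd w ++ Sum.inl NT.zl :: (sA a ++ (sA' pa ++ sB' a1)) ∧
      v = sB' a2 ++ (sB b ++ [Sum.inl NT.zr, Sum.inl (h j)]) := by
  obtain ⟨m2, rfl, h2⟩ := frm_pre (by simp) e
  obtain ⟨m3, rfl, h3⟩ := split_left h2 (by simp)
  obtain ⟨m4, rfl, h4⟩ := split_left h3 (by simp)
  obtain ⟨m5, h5, rfl⟩ := split_right h4 (by simp)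
  obtain ⟨a1, a2, rfl, rfl, rfl⟩ := sB'_split h5
  exact ⟨a1, a2, rfl, rfl, rfl⟩

theorem frm_be {c : Bool} (e : frm w a pa pb b j = u ++ Sum.inl (NT.be c) :: v) :
    ∃ a1 a2, b = a1 ++ c :: a2 ∧
      u = wd w ++ Sum.inl NT.zl :: (sA a ++ (sA' pa ++ (sB' pb ++ sB a1))) ∧
      v = sB a2 ++ [Sum.inl NT.zr, Sum.inl (h j)] := by
  obtain ⟨m2, rfl, h2⟩ := frm_pre (by simp) e
  obtain ⟨m3, rfl, h3⟩ := split_left h2 (by simp)
  obtain ⟨m4, rfl, h4⟩ := split_left h3 (by simp)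
  obtain ⟨m5, rfl, h5⟩ := split_left h4 (by simp)
  obtain ⟨m6, h6, rfl⟩ := split_right h5 (by simp)
  obtain ⟨a1, a2, rfl, rfl, rfl⟩ := sB_split h6
  exact ⟨a1, a2, rfl, rfl, rfl⟩

theorem frm_zl (e : frm w a pa pb b j = u ++ Sum.inl NT.zl :: v) :
    u = wd w ∧ v = sA a ++ (sA' pa ++ (sB' pb ++ (sB b ++ [Sum.inl NT.zr, Sum.inl (h j)]))) := by
  obtain ⟨m, rfl, h1⟩ := split_left e (by simp)
  cases m with
  | nil =>
    rw [List.nil_append, List.cons.injEq] at h1
    exact ⟨by simp, h1.2.symm⟩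
  | cons y m =>
    rw [List.cons_append, List.cons.injEq] at h1
    exfalso
    have : (Sum.inl NT.zl : V t) ∈
        sA a ++ (sA' pa ++ (sB' pb ++ (sB b ++ [Sum.inl NT.zr, Sum.inl (h j)]))) := by
      rw [h1.2]
      simp
    simp at this

theorem frm_end {X : NT} (hX : X = NT.zr ∨ ∃ i, X = h i)
    (e : frm w a pa pb b j = u ++ Sum.inl X :: v) :
    (X = NT.zr ∨ X = h j) ∧ Sum.inl NT.zl ∈ u := by
  have hXn : X ≠ NT.zl := by
    rcases hX with rfl | ⟨i, rfl⟩ <;> simp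
  obtain ⟨m, rfl, h2⟩ := frm_pre hXn e
  refine ⟨?_, by simp⟩
  have h3 : (Sum.inl X : V t) ∈
      sA a ++ (sA' pa ++ (sB' pb ++ (sB b ++ [Sum.inl NT.zr, Sum.inl (h j)]))) := by
    rw [h2]
    simp
  rcases hX with rfl | ⟨i, rfl⟩
  · exact Or.inl rfl
  · right
    simpa using h3

theorem frm_h {i : Fin 3} (e : frm w a pa pb b j = u ++ Sum.inl (h i) :: v) :
    i = j ∧ v = [] ∧ u = wd w ++ Sum.inl NT.zl :: (sA a ++ (sA' pa ++ (sB' pb ++ (sB b ++
      [Sum.inl NT.zr])))) := by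
  have e' : (wd w ++ Sum.inl NT.zl :: (sA a ++ (sA' pa ++ (sB' pb ++ (sB b ++
      [Sum.inl NT.zr]))))) ++ [Sum.inl (h j)] = u ++ Sum.inl (h i) :: v := by
    rw [← e]
    simp [frm]
  obtain ⟨m, rfl, h1⟩ := split_left e' (by simp)
  cases m with
  | nil =>
    rw [List.nil_append, List.cons.injEq] at h1
    refine ⟨?_, h1.2.symm, by simp⟩
    have := h1.1
    simpa using this.symm
  | cons y m =>
    exfalso
    rw [List.cons_append, List.cons.injEq] at h1
    have := congrArg List.length h1.2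
    simp at this

theorem frm_none {X : NT} (hX : X = st ∨ X = gS ∨ X = gT)
    (e : frm w a pa pb b j = u ++ Sum.inl X :: v) : False := by
  have h3 : (Sum.inl X : V t) ∈ frm w a pa pb b j := by
    rw [e]
    simp
  rcases hX with rfl | rfl | rfl <;> simp [frm] at h3

end

/-- possible steps from a form of the second phase -/
inductive CStep (w : List (Fin t)) (a pa pb b : List Bool) (j : Fin 3) : List (V t) → Prop
  | al (a' : List Bool) (c : Bool) : a = a' ++ [c] → pa = [] → j = 0 →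
      CStep w a pa pb b j (frm w a' [c] pb b j)
  | be (c : Bool) (b' : List Bool) : b = c :: b' → pa = [] → pb = [] →
      CStep w a pa pb b j (frm w a pa [c] b' j)
  | h01 : j = 0 → Free fH (wd w ++ Sum.inl NT.zl :: (sA a ++ (sA' pa ++ (sB' pb ++ (sB b ++
      [Sum.inl NT.zr])))) : List (V t)) → CStep w a pa pb b j (frm w a pa pb b 1)
  | h12 : j = 1 → pb = [] → CStep w a pa pb b j (frm w a pa pb b 2)
  | h20 : j = 2 → pa = [] → CStep w a pa pb b j (frm w a pa pb b 0)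
  | be' (p1 p2 : List Bool) (c : Bool) : j = 1 → pb = p1 ++ c :: p2 →
      CStep w a pa pb b j (frm w a pa (p1 ++ p2) b j)
  | al' (p1 p2 : List Bool) (c : Bool) : j = 2 → pa = p1 ++ c :: p2 →
      CStep w a pa pb b j (frm w a (p1 ++ p2) pb b j)
  | zl : a = [] → pa = [] → pb = [] → b = [] →
      CStep w a pa pb b j (wd w ++ [Sum.inl NT.zr, Sum.inl (h j)])

theorem cstep {w : List (Fin t)} {a pa pb b : List Bool} {j : Fin 3} {s s' : List (V t)}
    (hf : frm w a pa pb b j = s) (hs : SStep P p0 z s s') : CStep w a pa pb b j s' := by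
  cases hs with
  | cst u v => exact (frm_none (Or.inl rfl) hf).elim
  | cS x u v => exact (frm_none (Or.inr (Or.inl rfl)) hf).elim
  | cST u v => exact (frm_none (Or.inr (Or.inl rfl)) hf).elim
  | cT x y u v => exact (frm_none (Or.inr (Or.inr rfl)) hf).elim
  | cT1 x u v => exact (frm_none (Or.inr (Or.inr rfl)) hf).elim
  | cT0 u v => exact (frm_none (Or.inr (Or.inr rfl)) hf).elim
  | be c u v hF =>
    obtain ⟨b1, b2, rfl, rfl, rfl⟩ := frm_be hf
    have h1 := hF.nm (X := NT.be false) (by simp [fB])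
    have h2 := hF.nm (X := NT.be true) (by simp [fB])
    have h3 := hF.nm (X := NT.be' false) (by simp [fB])
    have h4 := hF.nm (X := NT.be' true) (by simp [fB])
    have h5 := hF.nm (X := NT.al' false) (by simp [fB])
    have h6 := hF.nm (X := NT.al' true) (by simp [fB])
    have e1 : b1 = [] := eq_nil_of (by simpa using h1) (by simpa using h2)
    have e2 : pb = [] := eq_nil_of (by simpa using h3) (by simpa using h4)
    have e3 : pa = [] := eq_nil_of (by simpa using h5) (by simpa using h6)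
    subst e1 e2 e3
    have := CStep.be (w := w) (a := a) (pa := []) (pb := []) (b := c :: b2) (j := j) c b2 rfl rfl rfl
    simpa [frm] using this
  | h01 u v hF =>
    obtain ⟨rfl, rfl, rfl⟩ := frm_h hf
    have := CStep.h01 (w := w) (a := a) (pa := pa) (pb := pb) (b := b) (j := 0) rfl hF
    simpa [frm] using this
  | h12 u v hF =>
    obtain ⟨rfl, rfl, rfl⟩ := frm_h hf
    have h3 := hF.nm (X := NT.be' false) (by simp)
    have h4 := hF.nm (X := NT.be' true) (by simp)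
    have e2 : pb = [] := eq_nil_of (by simpa using h3) (by simpa using h4)
    have := CStep.h12 (w := w) (a := a) (pa := pa) (pb := pb) (b := b) (j := 1) rfl e2
    simpa [frm] using this
  | h20 u v hF =>
    obtain ⟨rfl, rfl, rfl⟩ := frm_h hf
    have h3 := hF.nm (X := NT.al' false) (by simp)
    have h4 := hF.nm (X := NT.al' true) (by simp)
    have e2 : pa = [] := eq_nil_of (by simpa using h3) (by simpa using h4)
    have := CStep.h20 (w := w) (a := a) (pa := pa) (pb := pb) (b := b) (j := 2) rfl e2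
    simpa [frm] using this
  | zr u v hF =>
    exact (hF.nm (X := NT.zl) (by simp [fZr]) (frm_end (Or.inl rfl) hf).2).elim
  | h0 u v hF =>
    exact (hF.nm (X := NT.zl) (by simp [fZr]) (frm_end (Or.inr ⟨0, rfl⟩) hf).2).elim
  | al c u v hF =>
    obtain ⟨b1, b2, rfl, rfl, rfl⟩ := frm_al hf
    have h1 := hF.nm (X := NT.al false) (by simp [fA])
    have h2 := hF.nm (X := NT.al true) (by simp [fA])
    have h5 := hF.nm (X := NT.al' false) (by simp [fA])
    have h6 := hF.nm (X := NT.al' true) (by simp [fA])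
    have e1 : b2 = [] := eq_nil_of (by simpa using h1) (by simpa using h2)
    have e3 : pa = [] := eq_nil_of (by simpa using h5) (by simpa using h6)
    have h7 := hF.nm (X := h 1) (by simp [fA])
    have h8 := hF.nm (X := h 2) (by simp [fA])
    have e4 : j = 0 := by
      have h7' : ¬ (1 = j) := by simpa using h7
      have h8' : ¬ (2 = j) := by simpa using h8
      omega
    subst e1 e3 e4
    have := CStep.al (w := w) (a := b1 ++ [c]) (pa := []) (pb := pb) (b := b) (j := 0) b1 c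
      rfl rfl rfl
    simpa [frm] using this
  | be' c u v hF =>
    obtain ⟨b1, b2, rfl, rfl, rfl⟩ := frm_be' hf
    have h7 := hF.nm (X := h 0) (by simp)
    have h8 := hF.nm (X := h 2) (by simp)
    have e4 : j = 1 := by
      have h7' : ¬ (0 = j) := by simpa using h7
      have h8' : ¬ (2 = j) := by simpa using h8
      omega
    have := CStep.be' (w := w) (a := a) (pa := pa) (b := b) (j := j) b1 b2 c e4 rfl
    simpa [frm] using this
  | al' c u v hF =>
    obtain ⟨b1, b2, rfl, rfl, rfl⟩ := frm_al' hf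
    have h7 := hF.nm (X := h 0) (by simp)
    have h8 := hF.nm (X := h 1) (by simp)
    have e4 : j = 2 := by
      have h7' : ¬ (0 = j) := by simpa using h7
      have h8' : ¬ (1 = j) := by simpa using h8
      omega
    have := CStep.al' (w := w) (a := a) (pb := pb) (b := b) (j := j) b1 b2 c e4 rfl
    simpa [frm] using this
  | zl u v hF =>
    obtain ⟨rfl, rfl⟩ := frm_zl hf
    have h1 := hF.nm (X := NT.al false) (by simp [fZl])
    have h2 := hF.nm (X := NT.al true) (by simp [fZl])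
    have h3 := hF.nm (X := NT.al' false) (by simp [fZl])
    have h4 := hF.nm (X := NT.al' true) (by simp [fZl])
    have h5 := hF.nm (X := NT.be false) (by simp [fZl])
    have h6 := hF.nm (X := NT.be true) (by simp [fZl])
    have h7 := hF.nm (X := NT.be' false) (by simp [fZl])
    have h8 := hF.nm (X := NT.be' true) (by simp [fZl])
    have e1 : a = [] := eq_nil_of (by simpa using h1) (by simpa using h2)
    have e2 : pa = [] := eq_nil_of (by simpa using h3) (by simpa using h4)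
    have e3 : b = [] := eq_nil_of (by simpa using h5) (by simpa using h6)
    have e4 : pb = [] := eq_nil_of (by simpa using h7) (by simpa using h8)
    subst e1 e2 e3 e4
    have := CStep.zl (w := w) (a := []) (pa := []) (pb := []) (b := []) (j := j) rfl rfl rfl rfl
    simpa [frm] using this

/-- the phase change `0 → 1` requires matching primed letters -/
theorem h01_match {w : List (Fin t)} {a pa pb b : List Bool} (h1 : pa.length ≤ 1)
    (h2 : pb.length ≤ 1)
    (hF : Free fH (wd w ++ Sum.inl NT.zl :: (sA a ++ (sA' pa ++ (sB' pb ++ (sB b ++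
      [Sum.inl NT.zr])))) : List (V t))) : ∃ x, pa = [x] ∧ pb = [x] := by
  -- the first symbol of the right part
  have hR : ∃ y ∈ Ys, ∃ r, (sB' pb ++ (sB b ++ [Sum.inl NT.zr]) : List (V t)) = Sum.inl y :: r ∧
      (∀ c, y = NT.be' c → pb = [c]) := by
    rcases pb with _ | ⟨y, _ | ⟨y', pb⟩⟩
    · rcases b with _ | ⟨c, b⟩
      · exact ⟨NT.zr, by simp [Ys], [], by simp, by simp⟩
      · exact ⟨NT.be c, by cases c <;> simp [Ys], _, by simp; rfl, by simp⟩
    · exact ⟨NT.be' y, by cases y <;> simp [Ys], _, by simp; rfl, by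
        intro c hc
        have : y = c := by simpa using hc
        rw [this]⟩
    · simp at h2
  have hL : ∃ x ∈ Xs, ∃ r, (wd w ++ Sum.inl NT.zl :: (sA a ++ sA' pa) : List (V t)) =
      r ++ [Sum.inl x] ∧ (∀ c, x = NT.al' c → pa = [c]) := by
    rcases pa with _ | ⟨y, _ | ⟨y', pa⟩⟩
    · rcases List.eq_nil_or_concat a with rfl | ⟨a, c, rfl⟩
      · exact ⟨NT.zl, by simp [Xs], wd w, by simp, by simp⟩
      · exact ⟨NT.al c, by cases c <;> simp [Xs], wd w ++ Sum.inl NT.zl :: sA a, by simp, by simp⟩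
    · exact ⟨NT.al' y, by cases y <;> simp [Xs], wd w ++ Sum.inl NT.zl :: sA a, by simp, by
        intro c hc
        have : y = c := by simpa using hc
        rw [this]⟩
    · simp at h1
  obtain ⟨y, hy, r, hr, hy2⟩ := hR
  obtain ⟨x, hx, r', hr', hx2⟩ := hL
  by_contra hcon
  have hin : [x, y] ∈ fH := by
    have key : ∀ x ∈ Xs, ∀ y ∈ Ys, (∀ c : Bool, ¬ (x = NT.al' c ∧ y = NT.be' c)) →
        [x, y] ∈ fH := by decide
    apply key x hx y hy
    rintro c ⟨rfl, rfl⟩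
    exact hcon ⟨c, hx2 c rfl, hy2 c rfl⟩
  apply hF _ hin
  refine ⟨r', r, ?_⟩
  have : (wd w ++ Sum.inl NT.zl :: (sA a ++ (sA' pa ++ (sB' pb ++ (sB b ++ [Sum.inl NT.zr])))) :
      List (V t)) = (wd w ++ Sum.inl NT.zl :: (sA a ++ sA' pa)) ++
        (sB' pb ++ (sB b ++ [Sum.inl NT.zr])) := by simp
  rw [this, hr, hr']
  simp

/-- the target relation -/
def R (t' : List (Fin t)) : Prop :=
  ∃ (ps : List (Fin K × Fin K)) (e : List (Fin K)), e.length ≤ 1 ∧
    ps.flatMap (fun q => [q.1, q.2]) ++ e = p0 ++ t'.flatMap z ++ ps.flatMap (fun q => P q.1 q.2)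

/-- the invariant: the sentential form together with a condition implied by every terminal word
derivable from it -/
inductive Ok : List (V t) → (List (Fin t) → Prop) → Prop
  | start : Ok [Sum.inl st] (R P p0 z)
  | ph1 (w : List (Fin t)) : Ok (ph1 p0 z w) (R P p0 z)
  | ph2 (w : List (Fin t)) (ps : List (Fin K × Fin K)) : Ok (ph2 P p0 z w ps) (R P p0 z)
  | c0 (w : List (Fin t)) (a pa pb b : List Bool) : pa.length ≤ 1 → pb.length ≤ 1 →
      Ok (frm w a pa pb b 0) (fun t' => t' = w ∧ pb ++ b = (a ++ pa).reverse)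
  | c1 (w : List (Fin t)) (a : List Bool) (x : Bool) (pb b : List Bool) : (pb = [] ∨ pb = [x]) →
      Ok (frm w a [x] pb b 1) (fun t' => t' = w ∧ b = a.reverse)
  | c2 (w : List (Fin t)) (a : List Bool) (x : Bool) (b : List Bool) :
      Ok (frm w a [x] [] b 2) (fun t' => t' = w ∧ b = a.reverse)
  | c2' (w : List (Fin t)) (a pb b : List Bool) : pb.length ≤ 1 →
      Ok (frm w a [] pb b 2) (fun t' => t' = w ∧ pb ++ b = a.reverse)
  | d1 (w : List (Fin t)) (j : Fin 3) : Ok (wd w ++ [Sum.inl NT.zr, Sum.inl (h j)]) (fun t' => t' = w)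
  | d2 (w : List (Fin t)) (j : Fin 3) : Ok (wd w ++ [Sum.inl (h j)]) (fun t' => t' = w)
  | d3 (w : List (Fin t)) : Ok (wd w) (fun t' => t' = w)

theorem ok_c0 {w : List (Fin t)} {a pa pb b : List Bool} (h1 : pa.length ≤ 1) (h2 : pb.length ≤ 1)
    {s' : List (V t)} (hs : CStep w a pa pb b 0 s') :
    ∃ Q', Ok P p0 z s' Q' ∧ ∀ t', Q' t' → (t' = w ∧ pb ++ b = (a ++ pa).reverse) := by
  cases hs with
  | al a' c e1 e2 e3 =>
    subst e1 e2
    exact ⟨_, Ok.c0 w a' [c] pb b (by simp) h2, fun t' ht => by simpa using ht⟩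
  | be c b' e1 e2 e3 =>
    subst e1 e2 e3
    exact ⟨_, Ok.c0 w a [] [c] b' (by simp) (by simp), fun t' ht => by simpa using ht⟩
  | h01 e1 hF =>
    obtain ⟨x, rfl, rfl⟩ := h01_match h1 h2 hF
    exact ⟨_, Ok.c1 w a x [x] b (Or.inr rfl), fun t' ht => by simpa using ht⟩
  | h12 e1 => simp at e1
  | h20 e1 => simp at e1
  | be' p1 p2 c e1 => simp at e1
  | al' p1 p2 c e1 => simp at e1
  | zl e1 e2 e3 e4 =>
    subst e1 e2 e3 e4
    exact ⟨_, Ok.d1 w 0, fun t' ht => by simpa using ht⟩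

theorem ok_c1 {w : List (Fin t)} {a : List Bool} {x : Bool} {pb b : List Bool}
    (hp : pb = [] ∨ pb = [x]) {s' : List (V t)} (hs : CStep w a [x] pb b 1 s') :
    ∃ Q', Ok P p0 z s' Q' ∧ ∀ t', Q' t' → (t' = w ∧ b = a.reverse) := by
  cases hs with
  | al a' c e1 e2 e3 => simp at e2
  | be c b' e1 e2 e3 => simp at e2
  | h01 e1 => simp at e1
  | h12 e1 e2 =>
    subst e2
    exact ⟨_, Ok.c2 w a x b, fun t' ht => ht⟩
  | h20 e1 => simp at e1
  | be' p1 p2 c e1 e2 =>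
    rcases hp with rfl | rfl
    · simp at e2
    · cases p1 with
      | nil =>
        simp only [List.nil_append, List.cons.injEq] at e2
        obtain ⟨-, rfl⟩ := e2
        exact ⟨_, Ok.c1 w a x [] b (Or.inl rfl), fun t' ht => ht⟩
      | cons y p1 => simp at e2
  | al' p1 p2 c e1 => simp at e1
  | zl e1 e2 e3 e4 => simp at e2

theorem ok_c2 {w : List (Fin t)} {a : List Bool} {x : Bool} {b : List Bool}
    {s' : List (V t)} (hs : CStep w a [x] [] b 2 s') :
    ∃ Q', Ok P p0 z s' Q' ∧ ∀ t', Q' t' → (t' = w ∧ b = a.reverse) := by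
  cases hs with
  | al a' c e1 e2 e3 => simp at e2
  | be c b' e1 e2 e3 => simp at e2
  | h01 e1 => simp at e1
  | h12 e1 e2 => simp at e1
  | h20 e1 e2 => simp at e2
  | be' p1 p2 c e1 e2 => simp at e1
  | al' p1 p2 c e1 e2 =>
    cases p1 with
    | nil =>
      simp only [List.nil_append, List.cons.injEq] at e2
      obtain ⟨-, rfl⟩ := e2
      exact ⟨_, Ok.c2' w a [] b (by simp), fun t' ht => by simpa using ht⟩
    | cons y p1 => simp at e2
  | zl e1 e2 e3 e4 => simp at e2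

theorem ok_c2' {w : List (Fin t)} {a pb b : List Bool} (h2 : pb.length ≤ 1)
    {s' : List (V t)} (hs : CStep w a [] pb b 2 s') :
    ∃ Q', Ok P p0 z s' Q' ∧ ∀ t', Q' t' → (t' = w ∧ pb ++ b = a.reverse) := by
  cases hs with
  | al a' c e1 e2 e3 => simp at e3
  | be c b' e1 e2 e3 =>
    subst e1 e3
    exact ⟨_, Ok.c2' w a [c] b' (by simp), fun t' ht => by simpa using ht⟩
  | h01 e1 => simp at e1
  | h12 e1 e2 => simp at e1
  | h20 e1 e2 =>
    exact ⟨_, Ok.c0 w a [] pb b (by simp) h2, fun t' ht => by simpa using ht⟩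
  | be' p1 p2 c e1 e2 => simp at e1
  | al' p1 p2 c e1 e2 => simp at e2
  | zl e1 e2 e3 e4 =>
    subst e1 e3 e4
    exact ⟨_, Ok.d1 w 2, fun t' ht => by simpa using ht⟩

/-! ### The last phase -/

theorem d1_split {w : List (Fin t)} {j : Fin 3} {u v : List (V t)} {X : NT}
    (e : wd w ++ [Sum.inl NT.zr, Sum.inl (h j)] = u ++ Sum.inl X :: v) :
    (X = NT.zr ∧ u = wd w ∧ v = [Sum.inl (h j)]) ∨
    (X = h j ∧ u = wd w ++ [Sum.inl NT.zr] ∧ v = []) := by
  obtain ⟨m, rfl, h1⟩ := split_left e (by simp)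
  rcases m with _ | ⟨y, _ | ⟨y', m⟩⟩
  · left
    simp only [List.nil_append, List.cons.injEq] at h1
    exact ⟨(Sum.inl.inj h1.1).symm, by simp, h1.2.symm⟩
  · right
    simp only [List.cons_append, List.nil_append, List.cons.injEq] at h1
    obtain ⟨rfl, h2, h3⟩ := h1
    exact ⟨(Sum.inl.inj h2).symm, rfl, h3.symm⟩
  · have := congrArg List.length h1
    simp at this

theorem d2_split {w : List (Fin t)} {j : Fin 3} {u v : List (V t)} {X : NT}
    (e : wd w ++ [Sum.inl (h j)] = u ++ Sum.inl X :: v) : X = h j ∧ u = wd w ∧ v = [] := by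
  obtain ⟨m, rfl, h1⟩ := split_left e (by simp)
  rcases m with _ | ⟨y, m⟩
  · simp only [List.nil_append, List.cons.injEq] at h1
    exact ⟨(Sum.inl.inj h1.1).symm, by simp, h1.2.symm⟩
  · have := congrArg List.length h1
    simp at this

theorem d3_split {w : List (Fin t)} {u v : List (V t)} {X : NT}
    (e : wd w = u ++ Sum.inl X :: v) : False := by
  have : (Sum.inl X : V t) ∈ wd w := by rw [e]; simp
  simp at this

theorem ok_d1 {w : List (Fin t)} {j : Fin 3} {s s' : List (V t)}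
    (hf : wd w ++ [Sum.inl NT.zr, Sum.inl (h j)] = s) (hs : SStep P p0 z s s') :
    ∃ Q', Ok P p0 z s' Q' ∧ ∀ t', Q' t' → t' = w := by
  cases hs with
  | cst u v => rcases d1_split hf with ⟨h1, -⟩ | ⟨h1, -⟩ <;> cases h1
  | cS x u v => rcases d1_split hf with ⟨h1, -⟩ | ⟨h1, -⟩ <;> cases h1
  | cST u v => rcases d1_split hf with ⟨h1, -⟩ | ⟨h1, -⟩ <;> cases h1
  | cT x y u v => rcases d1_split hf with ⟨h1, -⟩ | ⟨h1, -⟩ <;> cases h1
  | cT1 x u v => rcases d1_split hf with ⟨h1, -⟩ | ⟨h1, -⟩ <;> cases h1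
  | cT0 u v => rcases d1_split hf with ⟨h1, -⟩ | ⟨h1, -⟩ <;> cases h1
  | be c u v hF => rcases d1_split hf with ⟨h1, -⟩ | ⟨h1, -⟩ <;> cases h1
  | h01 u v hF =>
    rcases d1_split hf with ⟨h1, -⟩ | ⟨h1, h2, h3⟩
    · cases h1
    · subst h2 h3
      exact ⟨_, by simpa using Ok.d1 (P := P) (p0 := p0) (z := z) w 1, fun t' ht => ht⟩
  | h12 u v hF =>
    rcases d1_split hf with ⟨h1, -⟩ | ⟨h1, h2, h3⟩
    · cases h1
    · subst h2 h3
      exact ⟨_, by simpa using Ok.d1 (P := P) (p0 := p0) (z := z) w 2, fun t' ht => ht⟩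
  | h20 u v hF =>
    rcases d1_split hf with ⟨h1, -⟩ | ⟨h1, h2, h3⟩
    · cases h1
    · subst h2 h3
      exact ⟨_, by simpa using Ok.d1 (P := P) (p0 := p0) (z := z) w 0, fun t' ht => ht⟩
  | zr u v hF =>
    rcases d1_split hf with ⟨h1, h2, h3⟩ | ⟨h1, h2, h3⟩
    · subst h2 h3
      exact ⟨_, by simpa using Ok.d2 (P := P) (p0 := p0) (z := z) w j, fun t' ht => ht⟩
    · cases h1
  | h0 u v hF =>
    rcases d1_split hf with ⟨h1, h2, h3⟩ | ⟨h1, h2, h3⟩
    · cases h1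
    · subst h2 h3
      exact (hF.nm (X := NT.zr) (by simp) (by simp)).elim
  | al c u v hF => rcases d1_split hf with ⟨h1, -⟩ | ⟨h1, -⟩ <;> cases h1
  | be' c u v hF => rcases d1_split hf with ⟨h1, -⟩ | ⟨h1, -⟩ <;> cases h1
  | al' c u v hF => rcases d1_split hf with ⟨h1, -⟩ | ⟨h1, -⟩ <;> cases h1
  | zl u v hF => rcases d1_split hf with ⟨h1, -⟩ | ⟨h1, -⟩ <;> cases h1

theorem ok_d2 {w : List (Fin t)} {j : Fin 3} {s s' : List (V t)}
    (hf : wd w ++ [Sum.inl (h j)] = s) (hs : SStep P p0 z s s') :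
    ∃ Q', Ok P p0 z s' Q' ∧ ∀ t', Q' t' → t' = w := by
  cases hs with
  | cst u v => obtain ⟨h1, -⟩ := d2_split hf; cases h1
  | cS x u v => obtain ⟨h1, -⟩ := d2_split hf; cases h1
  | cST u v => obtain ⟨h1, -⟩ := d2_split hf; cases h1
  | cT x y u v => obtain ⟨h1, -⟩ := d2_split hf; cases h1
  | cT1 x u v => obtain ⟨h1, -⟩ := d2_split hf; cases h1
  | cT0 u v => obtain ⟨h1, -⟩ := d2_split hf; cases h1
  | be c u v hF => obtain ⟨h1, -⟩ := d2_split hf; cases h1
  | h01 u v hF =>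
    obtain ⟨h1, rfl, rfl⟩ := d2_split hf
    exact ⟨_, by simpa using Ok.d2 (P := P) (p0 := p0) (z := z) w 1, fun t' ht => ht⟩
  | h12 u v hF =>
    obtain ⟨h1, rfl, rfl⟩ := d2_split hf
    exact ⟨_, by simpa using Ok.d2 (P := P) (p0 := p0) (z := z) w 2, fun t' ht => ht⟩
  | h20 u v hF =>
    obtain ⟨h1, rfl, rfl⟩ := d2_split hf
    exact ⟨_, by simpa using Ok.d2 (P := P) (p0 := p0) (z := z) w 0, fun t' ht => ht⟩
  | zr u v hF => obtain ⟨h1, -⟩ := d2_split hf; cases h1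
  | h0 u v hF =>
    obtain ⟨h1, rfl, rfl⟩ := d2_split hf
    exact ⟨_, by simpa using Ok.d3 (P := P) (p0 := p0) (z := z) w, fun t' ht => ht⟩
  | al c u v hF => obtain ⟨h1, -⟩ := d2_split hf; cases h1
  | be' c u v hF => obtain ⟨h1, -⟩ := d2_split hf; cases h1
  | al' c u v hF => obtain ⟨h1, -⟩ := d2_split hf; cases h1
  | zl u v hF => obtain ⟨h1, -⟩ := d2_split hf; cases h1

theorem no_step {w : List (Fin t)} {s s' : List (V t)} (hf : wd w = s)
    (hs : SStep P p0 z s s') : False := by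
  cases hs <;> exact d3_split hf

/-! ### The first phase -/

/-- position of a symbol relative to the unique symbol `Y` -/
theorem split_mid {p q u v : List (V t)} {X Y : NT} (e : p ++ Sum.inl Y :: q = u ++ Sum.inl X :: v) :
    ((Sum.inl X : V t) ∈ p ∧ (Sum.inl Y : V t) ∈ v) ∨ (u = p ∧ X = Y ∧ v = q) ∨
    ((Sum.inl Y : V t) ∈ u ∧ (Sum.inl X : V t) ∈ q) := by
  rcases List.append_eq_append_iff.1 e with ⟨m, h1, h2⟩ | ⟨c, h1, h2⟩
  · cases m with
    | nil =>
      simp only [List.nil_append, List.cons.injEq] at h2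
      right; left
      exact ⟨by simpa using h1, (Sum.inl.inj h2.1).symm, h2.2.symm⟩
    | cons y m =>
      simp only [List.cons_append, List.cons.injEq] at h2
      right; right
      obtain ⟨rfl, rfl⟩ := h2
      subst h1
      simp
  · cases c with
    | nil =>
      simp only [List.nil_append, List.cons.injEq] at h2
      right; left
      exact ⟨by simpa using h1.symm, Sum.inl.inj h2.1, h2.2⟩
    | cons y m =>
      simp only [List.cons_append, List.cons.injEq] at h2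
      left
      obtain ⟨rfl, rfl⟩ := h2
      subst h1
      simp

theorem ok_ph1 {w : List (Fin t)} {s s' : List (V t)}
    (hf : ph1 p0 z w = s) (hs : SStep P p0 z s s') :
    ∃ Q', Ok P p0 z s' Q' ∧ ∀ t', Q' t' → R P p0 z t' := by
  have hno : ∀ X u v, ph1 p0 z w = u ++ Sum.inl X :: v → X = gS ∨
      ((Sum.inl gS : V t) ∈ u ∧ (X = h 0 ∨ X = NT.zr ∨ ∃ c, X = NT.be c)) := by
    intro X u v e
    rcases split_mid e with ⟨h1, h2⟩ | ⟨h1, h2, h3⟩ | ⟨h1, h2⟩
    · simp at h1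
    · exact Or.inl h2
    · right
      refine ⟨h1, ?_⟩
      simp only [List.mem_append, mem_sB, List.mem_cons, List.not_mem_nil, or_false,
        Sum.inl.injEq] at h2
      rcases h2 with ⟨c, -, h2⟩ | h2 | h2
      · exact Or.inr (Or.inr ⟨c, h2.symm⟩)
      · exact Or.inr (Or.inl h2)
      · exact Or.inl h2
  have hgS : ∀ u v, ph1 p0 z w = u ++ Sum.inl gS :: v → u = wd w ∧
      v = sB (ca (p0 ++ w.flatMap z)).reverse ++ [Sum.inl NT.zr, Sum.inl (h 0)] := by
    intro u v e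
    rcases split_mid e with ⟨h1, h2⟩ | ⟨h1, h2, h3⟩ | ⟨h1, h2⟩
    · simp at h1
    · exact ⟨h1, h3⟩
    · simp at h2
  cases hs with
  | cst u v => rcases hno _ _ _ hf with h1 | ⟨-, h1 | h1 | ⟨c, h1⟩⟩ <;> cases h1
  | cS x u v =>
    obtain ⟨rfl, rfl⟩ := hgS _ _ hf
    refine ⟨_, ?_, fun t' ht => ht⟩
    have := Ok.ph1 (P := P) (p0 := p0) (z := z) (w ++ [x])
    simpa [ph1, ca_append, wd] using this
  | cST u v =>
    obtain ⟨rfl, rfl⟩ := hgS _ _ hf
    refine ⟨_, ?_, fun t' ht => ht⟩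
    have := Ok.ph2 (P := P) (p0 := p0) (z := z) w []
    simpa [ph2, ca] using this
  | cT x y u v => rcases hno _ _ _ hf with h1 | ⟨-, h1 | h1 | ⟨c, h1⟩⟩ <;> cases h1
  | cT1 x u v => rcases hno _ _ _ hf with h1 | ⟨-, h1 | h1 | ⟨c, h1⟩⟩ <;> cases h1
  | cT0 u v => rcases hno _ _ _ hf with h1 | ⟨-, h1 | h1 | ⟨c, h1⟩⟩ <;> cases h1
  | be c u v hF =>
    rcases hno _ _ _ hf with h1 | ⟨h1, -⟩
    · cases h1
    · exact (hF.nm (X := gS) (by simp [fB]) h1).elim
  | h01 u v hF =>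
    rcases hno _ _ _ hf with h1 | ⟨h1, -⟩
    · cases h1
    · exact (hF.nm (X := gS) (by simp [fH]) h1).elim
  | h12 u v hF => rcases hno _ _ _ hf with h1 | ⟨-, h1 | h1 | ⟨c, h1⟩⟩ <;> cases h1
  | h20 u v hF => rcases hno _ _ _ hf with h1 | ⟨-, h1 | h1 | ⟨c, h1⟩⟩ <;> cases h1
  | zr u v hF =>
    rcases hno _ _ _ hf with h1 | ⟨h1, -⟩
    · cases h1
    · exact (hF.nm (X := gS) (by simp [fZr]) h1).elim
  | h0 u v hF =>
    rcases hno _ _ _ hf with h1 | ⟨h1, -⟩
    · cases h1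
    · exact (hF.nm (X := gS) (by simp [fZr]) h1).elim
  | al c u v hF => rcases hno _ _ _ hf with h1 | ⟨-, h1 | h1 | ⟨c, h1⟩⟩ <;> cases h1
  | be' c u v hF => rcases hno _ _ _ hf with h1 | ⟨-, h1 | h1 | ⟨c, h1⟩⟩ <;> cases h1
  | al' c u v hF => rcases hno _ _ _ hf with h1 | ⟨-, h1 | h1 | ⟨c, h1⟩⟩ <;> cases h1
  | zl u v hF => rcases hno _ _ _ hf with h1 | ⟨-, h1 | h1 | ⟨c, h1⟩⟩ <;> cases h1

theorem ok_ph2 {w : List (Fin t)} {ps : List (Fin K × Fin K)} {s s' : List (V t)}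
    (hf : ph2 P p0 z w ps = s) (hs : SStep P p0 z s s') :
    ∃ Q', Ok P p0 z s' Q' ∧ ∀ t', Q' t' → R P p0 z t' := by
  have hsp : ph2 P p0 z w ps = (wd w ++ Sum.inl NT.zl ::
      sA (ca (ps.flatMap fun q => [q.1, q.2]))) ++ Sum.inl gT ::
      (sB (ca (p0 ++ w.flatMap z ++ ps.flatMap fun q => P q.1 q.2)).reverse ++
      [Sum.inl NT.zr, Sum.inl (h 0)]) := by simp [ph2]
  have hno : ∀ X u v, ph2 P p0 z w ps = u ++ Sum.inl X :: v → X = gT ∨
      ((Sum.inl gT : V t) ∈ u ∧ (X = h 0 ∨ X = NT.zr ∨ ∃ c, X = NT.be c)) ∨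
      ((Sum.inl gT : V t) ∈ v ∧ (X = NT.zl ∨ ∃ c, X = NT.al c)) := by
    intro X u v e
    rw [hsp] at e
    rcases split_mid e with ⟨h1, h2⟩ | ⟨h1, h2, h3⟩ | ⟨h1, h2⟩
    · right; right
      refine ⟨h2, ?_⟩
      simp only [List.mem_append, mem_sA, mem_wd, List.mem_cons, false_or,
        Sum.inl.injEq] at h1
      rcases h1 with h1 | ⟨c, -, h1⟩
      · exact Or.inl h1
      · exact Or.inr ⟨c, h1.symm⟩
    · exact Or.inl h2
    · right; left
      refine ⟨h1, ?_⟩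
      simp only [List.mem_append, mem_sB, List.mem_cons, List.not_mem_nil, or_false,
        Sum.inl.injEq] at h2
      rcases h2 with ⟨c, -, h2⟩ | h2 | h2
      · exact Or.inr (Or.inr ⟨c, h2.symm⟩)
      · exact Or.inr (Or.inl h2)
      · exact Or.inl h2
  have hgT : ∀ u v, ph2 P p0 z w ps = u ++ Sum.inl gT :: v → u = (wd w ++ Sum.inl NT.zl ::
      sA (ca (ps.flatMap fun q => [q.1, q.2]))) ∧
      v = (sB (ca (p0 ++ w.flatMap z ++ ps.flatMap fun q => P q.1 q.2)).reverse ++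
      [Sum.inl NT.zr, Sum.inl (h 0)]) := by
    intro u v e
    rw [hsp] at e
    rcases split_mid e with ⟨h1, h2⟩ | ⟨h1, h2, h3⟩ | ⟨h1, h2⟩
    · simp at h1
    · exact ⟨h1, h3⟩
    · simp at h2
  cases hs with
  | cst u v => rcases hno _ _ _ hf with h1 | ⟨-, h1 | h1 | ⟨c, h1⟩⟩ | ⟨-, h1 | ⟨c, h1⟩⟩ <;> cases h1
  | cS x u v => rcases hno _ _ _ hf with h1 | ⟨-, h1 | h1 | ⟨c, h1⟩⟩ | ⟨-, h1 | ⟨c, h1⟩⟩ <;> cases h1
  | cST u v => rcases hno _ _ _ hf with h1 | ⟨-, h1 | h1 | ⟨c, h1⟩⟩ | ⟨-, h1 | ⟨c, h1⟩⟩ <;> cases h1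
  | cT x y u v =>
    obtain ⟨rfl, rfl⟩ := hgT _ _ hf
    refine ⟨_, ?_, fun t' ht => ht⟩
    have := Ok.ph2 (P := P) (p0 := p0) (z := z) w (ps ++ [(x, y)])
    simpa [ph2, ca_append] using this
  | cT1 x u v =>
    obtain ⟨rfl, rfl⟩ := hgT _ _ hf
    refine ⟨_, by
      have := Ok.c0 (P := P) (p0 := p0) (z := z) w
        (ca ((ps.flatMap fun q => [q.1, q.2]) ++ [x])) [] []
        (ca (p0 ++ w.flatMap z ++ ps.flatMap fun q => P q.1 q.2)).reverse (by simp) (by simp)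
      have e2 : ∀ s1 s2 Q, s1 = s2 → Ok P p0 z s1 Q → Ok P p0 z s2 Q := by
        intro s1 s2 Q e h; rw [← e]; exact h
      exact e2 _ _ _ (by simp [frm, ca_append]) this, ?_⟩
    rintro t' ⟨rfl, ht⟩
    refine ⟨ps, [x], by simp, ?_⟩
    apply ca_injective
    rw [List.nil_append, List.append_nil] at ht
    exact (List.reverse_injective ht).symm
  | cT0 u v =>
    obtain ⟨rfl, rfl⟩ := hgT _ _ hf
    refine ⟨_, by
      have := Ok.c0 (P := P) (p0 := p0) (z := z) w
        (ca ((ps.flatMap fun q => [q.1, q.2]) ++ [])) [] []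
        (ca (p0 ++ w.flatMap z ++ ps.flatMap fun q => P q.1 q.2)).reverse (by simp) (by simp)
      have e2 : ∀ s1 s2 Q, s1 = s2 → Ok P p0 z s1 Q → Ok P p0 z s2 Q := by
        intro s1 s2 Q e h; rw [← e]; exact h
      exact e2 _ _ _ (by simp [frm]) this, ?_⟩
    rintro t' ⟨rfl, ht⟩
    refine ⟨ps, [], by simp, ?_⟩
    apply ca_injective
    rw [List.nil_append, List.append_nil] at ht
    exact (List.reverse_injective ht).symm
  | be c u v hF =>
    rcases hno _ _ _ hf with h1 | ⟨h1, -⟩ | ⟨-, h1 | ⟨c, h1⟩⟩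
    · cases h1
    · exact (hF.nm (X := gT) (by simp [fB]) h1).elim
    · cases h1
    · cases h1
  | h01 u v hF =>
    rcases hno _ _ _ hf with h1 | ⟨h1, -⟩ | ⟨-, h1 | ⟨c, h1⟩⟩
    · cases h1
    · exact (hF.nm (X := gT) (by simp [fH]) h1).elim
    · cases h1
    · cases h1
  | h12 u v hF => rcases hno _ _ _ hf with h1 | ⟨-, h1 | h1 | ⟨c, h1⟩⟩ | ⟨-, h1 | ⟨c, h1⟩⟩ <;> cases h1
  | h20 u v hF => rcases hno _ _ _ hf with h1 | ⟨-, h1 | h1 | ⟨c, h1⟩⟩ | ⟨-, h1 | ⟨c, h1⟩⟩ <;> cases h1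
  | zr u v hF =>
    rcases hno _ _ _ hf with h1 | ⟨h1, -⟩ | ⟨-, h1 | ⟨c, h1⟩⟩
    · cases h1
    · exact (hF.nm (X := gT) (by simp [fZr]) h1).elim
    · cases h1
    · cases h1
  | h0 u v hF =>
    rcases hno _ _ _ hf with h1 | ⟨h1, -⟩ | ⟨-, h1 | ⟨c, h1⟩⟩
    · cases h1
    · exact (hF.nm (X := gT) (by simp [fZr]) h1).elim
    · cases h1
    · cases h1
  | al c u v hF =>
    rcases hno _ _ _ hf with h1 | ⟨-, h1 | h1 | ⟨c, h1⟩⟩ | ⟨h1, -⟩
    · cases h1
    · cases h1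
    · cases h1
    · cases h1
    · exact (hF.nm (X := gT) (by simp [fA]) h1).elim
  | be' c u v hF => rcases hno _ _ _ hf with h1 | ⟨-, h1 | h1 | ⟨c, h1⟩⟩ | ⟨-, h1 | ⟨c, h1⟩⟩ <;> cases h1
  | al' c u v hF => rcases hno _ _ _ hf with h1 | ⟨-, h1 | h1 | ⟨c, h1⟩⟩ | ⟨-, h1 | ⟨c, h1⟩⟩ <;> cases h1
  | zl u v hF =>
    rcases hno _ _ _ hf with h1 | ⟨-, h1 | h1 | ⟨c, h1⟩⟩ | ⟨h1, -⟩
    · cases h1
    · cases h1
    · cases h1
    · cases h1
    · exact (hF.nm (X := gT) (by simp [fZl]) h1).elim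

theorem ok_start {s s' : List (V t)}
    (hf : [Sum.inl st] = s) (hs : SStep P p0 z s s') :
    ∃ Q', Ok P p0 z s' Q' ∧ ∀ t', Q' t' → R P p0 z t' := by
  have hno : ∀ X (u v : List (V t)), [Sum.inl st] = u ++ Sum.inl X :: v → X = st ∧ u = [] ∧ v = [] := by
    intro X u v e
    cases u with
    | nil =>
      simp only [List.nil_append, List.cons.injEq] at e
      exact ⟨(Sum.inl.inj e.1).symm, rfl, e.2.symm⟩
    | cons y u =>
      have := congrArg List.length e
      simp at this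
  cases hs with
  | cst u v =>
    obtain ⟨-, rfl, rfl⟩ := hno _ _ _ hf
    refine ⟨_, ?_, fun t' ht => ht⟩
    have := Ok.ph1 (P := P) (p0 := p0) (z := z) []
    simpa [ph1] using this
  | cS x u v => obtain ⟨h1, -⟩ := hno _ _ _ hf; cases h1
  | cST u v => obtain ⟨h1, -⟩ := hno _ _ _ hf; cases h1
  | cT x y u v => obtain ⟨h1, -⟩ := hno _ _ _ hf; cases h1
  | cT1 x u v => obtain ⟨h1, -⟩ := hno _ _ _ hf; cases h1
  | cT0 u v => obtain ⟨h1, -⟩ := hno _ _ _ hf; cases h1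
  | be c u v hF => obtain ⟨h1, -⟩ := hno _ _ _ hf; cases h1
  | h01 u v hF => obtain ⟨h1, -⟩ := hno _ _ _ hf; cases h1
  | h12 u v hF => obtain ⟨h1, -⟩ := hno _ _ _ hf; cases h1
  | h20 u v hF => obtain ⟨h1, -⟩ := hno _ _ _ hf; cases h1
  | zr u v hF => obtain ⟨h1, -⟩ := hno _ _ _ hf; cases h1
  | h0 u v hF => obtain ⟨h1, -⟩ := hno _ _ _ hf; cases h1
  | al c u v hF => obtain ⟨h1, -⟩ := hno _ _ _ hf; cases h1
  | be' c u v hF => obtain ⟨h1, -⟩ := hno _ _ _ hf; cases h1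
  | al' c u v hF => obtain ⟨h1, -⟩ := hno _ _ _ hf; cases h1
  | zl u v hF => obtain ⟨h1, -⟩ := hno _ _ _ hf; cases h1

theorem ok_step {s s' : List (V t)} {Q : List (Fin t) → Prop} (hO : Ok P p0 z s Q)
    (hs : SStep P p0 z s s') : ∃ Q', Ok P p0 z s' Q' ∧ ∀ t', Q' t' → Q t' := by
  cases hO with
  | start => exact ok_start P p0 z rfl hs
  | ph1 w => exact ok_ph1 P p0 z rfl hs
  | ph2 w ps => exact ok_ph2 P p0 z rfl hs
  | c0 w a pa pb b h1 h2 => exact ok_c0 P p0 z h1 h2 (cstep P p0 z rfl hs)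
  | c1 w a x pb b h1 => exact ok_c1 P p0 z h1 (cstep P p0 z rfl hs)
  | c2 w a x b => exact ok_c2 P p0 z (cstep P p0 z rfl hs)
  | c2' w a pb b h1 => exact ok_c2' P p0 z h1 (cstep P p0 z rfl hs)
  | d1 w j => exact ok_d1 P p0 z rfl hs
  | d2 w j => exact ok_d2 P p0 z rfl hs
  | d3 w => exact (no_step P p0 z rfl hs).elim

theorem wd_injective {w w' : List (Fin t)} (e : (wd w : List (V t)) = wd w') : w = w' :=
  List.map_injective_iff.2 Sum.inr_injective e

theorem ok_final {w : List (Fin t)} {s : List (V t)} {Q : List (Fin t) → Prop}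
    (hO : Ok P p0 z s Q) (e : s = wd w) : Q w := by
  have hX : ∀ X : NT, (Sum.inl X : V t) ∉ s := by
    intro X
    rw [e]
    simp
  cases hO with
  | start => exact (hX st (by simp)).elim
  | ph1 w => exact (hX gS (by simp [ph1])).elim
  | ph2 w ps => exact (hX gT (by simp [ph2])).elim
  | c0 w a pa pb b h1 h2 => exact (hX NT.zl (by simp [frm])).elim
  | c1 w a x pb b h1 => exact (hX NT.zl (by simp [frm])).elim
  | c2 w a x b => exact (hX NT.zl (by simp [frm])).elim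
  | c2' w a pb b h1 => exact (hX NT.zl (by simp [frm])).elim
  | d1 w j => exact (hX NT.zr (by simp)).elim
  | d2 w j => exact (hX (h j) (by simp)).elim
  | d3 w => exact (wd_injective e).symm

theorem sound (w : List (Fin t))
    (hr : ReflTransGen (SStep P p0 z) [Sum.inl st] (wd w)) : R P p0 z w := by
  have key : ∀ s, ReflTransGen (SStep P p0 z) s (wd w) → ∀ Q, Ok P p0 z s Q → Q w := by
    intro s hs
    induction hs using ReflTransGen.head_induction_on with
    | refl => intro Q hO; exact ok_final P p0 z hO rfl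
    | head h1 _ ih =>
      intro Q hO
      obtain ⟨Q', hO', hQ⟩ := ok_step P p0 z hO h1
      exact hQ _ (ih Q' hO')
  exact key _ hr _ Ok.start

theorem language_gr (w : List (Fin t)) : w ∈ language (gr P p0 z) ↔ R P p0 z w := by
  constructor
  · intro hw
    apply sound
    have hw' : ReflTransGen (Step (gr P p0 z)) [Sum.inl st] (wd w) := hw
    exact ReflTransGen.mono (fun a b hab => toSStep P p0 z hab) _ _ hw'
  · rintro ⟨ps, e, he, heq⟩
    have := complete P p0 z w ps e he heq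
    exact ReflTransGen.mono (fun a b hab => ofSStep P p0 z hab) _ _ this

theorem main (L : List (Fin t) → Prop) (hL : REPred L) :
    ∃ G : Grammar (Fin t), (∀ w, w ∈ language G ↔ L w) ∧ HasDegree G 2 1 ∧
      numNonterminals G = 16 ∧ numForbidding G = 14 := by
  obtain ⟨K, P, p0, z, hz⟩ := EPC.exists_stream L hL
  refine ⟨gr P p0 z, ?_, gr_degree P p0 z, gr_numNonterminals P p0 z, gr_numForbidding P p0 z⟩
  intro w
  rw [language_gr, hz]
  rfl

end Pool.R570.OFG
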