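import Pool.Agent.H358R3.PlacDefs
set_option autoImplicit false

/-! Equations in plactic monoids over recursive total orders. -/

namespace Pool.Agent.R570.PlacOrd

open Pool.Agent.H358R3.Plac

/-- An equation `U = V`: a pair of words over variables `Sum.inl i` and letters `Sum.inr m`
(the letters of an order whose underlying set is `ℕ` are natural numbers). -/
abbrev Equation : Type := List (ℕ ⊕ ℕ) × List (ℕ ⊕ ℕ)

/-- The element of the plactic monoid `P(L)` represented by a word over variables and letters, when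
the variable `i` has the value `x i`. -/
def value (L : LinearOrder ℕ) (x : ℕ → @PL ℕ L) (w : List (ℕ ⊕ ℕ)) : @PL ℕ L :=
  (w.map (Sum.elim x (fun m => @gen ℕ L m))).prod

/-- The finite system of equations `S` has a solution in `P(L)`. -/
def Solvable (L : LinearOrder ℕ) (S : List Equation) : Prop :=
  ∃ x : ℕ → @PL ℕ L, ∀ q ∈ S, value L x q.1 = value L x q.2

/-! ### The monoid of normal forms in rank two -/

/-- normal forms `(ba)^i a^j b^k` -/
structure M2 where
  i : ℕ
  j : ℕ
  k : ℕ

namespace M2

theorem ext' {x y : M2} (h1 : x.i = y.i) (h2 : x.j = y.j) (h3 : x.k = y.k) : x = y := by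
  cases x; cases y; simp_all

instance : Mul M2 := ⟨fun x y => ⟨x.i + y.i + min x.k y.j, x.j + (y.j - x.k), y.k + (x.k - y.j)⟩⟩
instance : One M2 := ⟨⟨0, 0, 0⟩⟩

theorem mul_i (x y : M2) : (x * y).i = x.i + y.i + min x.k y.j := rfl
theorem mul_j (x y : M2) : (x * y).j = x.j + (y.j - x.k) := rfl
theorem mul_k (x y : M2) : (x * y).k = y.k + (x.k - y.j) := rfl
theorem one_i : (1 : M2).i = 0 := rfl
theorem one_j : (1 : M2).j = 0 := rfl
theorem one_k : (1 : M2).k = 0 := rfl

instance : Monoid M2 where
  mul_assoc x y z := by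
    apply ext'
    · simp only [mul_i, mul_j, mul_k]; omega
    · simp only [mul_j, mul_k]; omega
    · simp only [mul_j, mul_k]; omega
  one_mul x := by
    apply ext' <;> simp only [mul_i, mul_j, mul_k, one_i, one_j, one_k] <;> omega
  mul_one x := by
    apply ext' <;> simp only [mul_i, mul_j, mul_k, one_i, one_j, one_k] <;> omega

end M2

/-- the letters `a`, `b` -/
def ma : M2 := ⟨0, 1, 0⟩
def mb : M2 := ⟨0, 0, 1⟩

theorem no_sol (X : M2) (h1 : ma * mb * X = mb * ma * X) (h2 : X * ma * mb = X * mb * ma)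
    (h3 : ma * X * ma = X * ma * ma) (h4 : X * ma * X = X * X * ma)
    (h5 : mb * X * mb = mb * mb * X) : False := by
  have e1 := congrArg M2.i h1
  have e2 := congrArg M2.j h1
  have e3 := congrArg M2.i h2
  have e4 := congrArg M2.k h2
  have e5 := congrArg M2.i h3
  have e6 := congrArg M2.j h3
  have e7 := congrArg M2.i h4
  have e8 := congrArg M2.j h4
  have e9 := congrArg M2.i h5
  have e10 := congrArg M2.k h5
  simp only [M2.mul_i, M2.mul_j, M2.mul_k, ma, mb] at e1 e2 e3 e4 e5 e6 e7 e8 e9 e10
  have hj : X.j = 1 := by omega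
  have hk : X.k = 1 := by omega
  rw [hj, hk] at e7
  omega

section

variable {A : Type} [LinearOrder A]

/-- If no letter lies strictly between `a` and `b`, the plactic monoid maps onto normal forms. -/
noncomputable def toM2 (a b : A) (hab : a < b) (hno : ∀ c, ¬ (a < c ∧ c < b)) : PL A →* M2 := by
  classical
  refine PresentedMonoid.lift (fun c : A => if c = a then ma else if c = b then mb else 1) ?_
  intro u v huv
  have hne : b ≠ a := ne_of_gt hab
  cases huv with
  | xzy x y z h1 h2 =>
    simp only [map_mul, FreeMonoid.lift_eval_of]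
    by_cases hx : x = a
    · subst hx
      by_cases hz : z = b
      · subst hz
        have hy : y = x := by
          rcases eq_or_lt_of_le h1 with h | h
          · exact h.symm
          · exact absurd ⟨h, h2⟩ (hno y)
        subst hy
        simp only [if_true, if_neg hne]
        rfl
      · have hza : z ≠ x := ne_of_gt (lt_of_le_of_lt h1 h2)
        simp only [if_neg hza, if_neg hz, one_mul, mul_one]
    · by_cases hx2 : x = b
      · subst hx2
        have hza : z ≠ a := ne_of_gt (lt_trans hab (lt_of_le_of_lt h1 h2))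
        have hzb : z ≠ x := ne_of_gt (lt_of_le_of_lt h1 h2)
        simp only [if_neg hza, if_neg hzb, one_mul, mul_one]
      · simp only [if_neg hx, if_neg hx2, one_mul, mul_one]
  | yxz x y z h1 h2 =>
    simp only [map_mul, FreeMonoid.lift_eval_of]
    by_cases hx : x = a
    · subst hx
      by_cases hz : z = b
      · subst hz
        have hy : y = z := by
          rcases eq_or_lt_of_le h2 with h | h
          · exact h
          · exact absurd ⟨h1, h⟩ (hno y)
        subst hy
        simp only [if_true, if_neg hne]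
        rfl
      · have hza : z ≠ x := ne_of_gt (lt_of_lt_of_le h1 h2)
        simp only [if_neg hza, if_neg hz, mul_one]
    · by_cases hx2 : x = b
      · subst hx2
        have hza : z ≠ a := ne_of_gt (lt_trans hab (lt_of_lt_of_le h1 h2))
        have hzb : z ≠ x := ne_of_gt (lt_of_lt_of_le h1 h2)
        simp only [if_neg hza, if_neg hzb, mul_one]
      · simp only [if_neg hx, if_neg hx2, mul_one]

theorem toM2_a (a b : A) (hab : a < b) (hno : ∀ c, ¬ (a < c ∧ c < b)) :
    toM2 a b hab hno (gen a) = ma := by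
  unfold toM2 gen
  rw [PresentedMonoid.lift_of, if_pos rfl]

theorem toM2_b (a b : A) (hab : a < b) (hno : ∀ c, ¬ (a < c ∧ c < b)) :
    toM2 a b hab hno (gen b) = mb := by
  unfold toM2 gen
  rw [PresentedMonoid.lift_of, if_neg (ne_of_gt hab), if_pos rfl]

theorem knuth1 (x y z : A) (h1 : x ≤ y) (h2 : y < z) :
    gen x * gen z * gen y = gen z * gen x * gen y :=
  Quotient.sound (ConGen.Rel.of _ _ (Knuth.xzy x y z h1 h2))

theorem knuth2 (x y z : A) (h1 : x < y) (h2 : y ≤ z) :
    gen y * gen x * gen z = gen y * gen z * gen x :=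
  Quotient.sound (ConGen.Rel.of _ _ (Knuth.yxz x y z h1 h2))

/-- the five equations are solvable iff there is a letter strictly between `a` and `b` -/
theorem between_iff (a b : A) (hab : a < b) :
    (∃ X : PL A, gen a * gen b * X = gen b * gen a * X ∧ X * gen a * gen b = X * gen b * gen a ∧
      gen a * X * gen a = X * gen a * gen a ∧ X * gen a * X = X * X * gen a ∧
      gen b * X * gen b = gen b * gen b * X) ↔ ∃ c, a < c ∧ c < b := by
  constructor
  · rintro ⟨X, h1, h2, h3, h4, h5⟩
    by_contra hno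
    have hno' : ∀ c, ¬ (a < c ∧ c < b) := fun c hc => hno ⟨c, hc⟩
    obtain ⟨f, hf⟩ : ∃ f, f = toM2 a b hab hno' := ⟨_, rfl⟩
    have fa : f (gen a) = ma := by rw [hf, toM2_a]
    have fb : f (gen b) = mb := by rw [hf, toM2_b]
    refine no_sol (f X) ?_ ?_ ?_ ?_ ?_
    · simpa only [map_mul, fa, fb] using congrArg f h1
    · simpa only [map_mul, fa, fb] using congrArg f h2
    · simpa only [map_mul, fa, fb] using congrArg f h3
    · simpa only [map_mul, fa, fb] using congrArg f h4
    · simpa only [map_mul, fa, fb] using congrArg f h5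
  · rintro ⟨c, h1, h2⟩
    exact ⟨gen c, knuth1 a c b h1.le h2, knuth2 a c b h1 h2.le, knuth1 a a c le_rfl h1,
      knuth2 a c c h1 le_rfl, (knuth2 c b b h2 le_rfl)⟩

end

/-! ### A recursive order of type `ω` with undecidable adjacency -/

open Nat.Partrec (Code)
open Nat.Partrec.Code

/-- the program `n` stops on input `0` within `s + 1` steps but not within `s` steps -/
def st (n s : ℕ) : Bool :=
  (evaln s (Denumerable.ofNat Code n) 0).isNone && (evaln (s + 1) (Denumerable.ofNat Code n) 0).isSome

theorem st_unique {n s s' : ℕ} (h : st n s = true) (h' : st n s' = true) : s = s' := by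
  have key : ∀ {s s' : ℕ}, st n s = true → st n s' = true → ¬ s < s' := by
    intro s s' h h' hlt
    simp only [st, Bool.and_eq_true, Option.isNone_iff_eq_none, Option.isSome_iff_exists] at h h'
    obtain ⟨-, x, hx⟩ := h
    have h2 := evaln_mono (show s + 1 ≤ s' from hlt) (show x ∈ evaln (s + 1) _ 0 from hx)
    rw [h'.1] at h2
    exact absurd h2 (by simp)
  rcases lt_trichotomy s s' with h1 | h1 | h1
  · exact absurd h1 (key h h')
  · exact h1
  · exact absurd h1 (key h' h)

theorem st_exists (n : ℕ) : (∃ s, st n s = true) ↔ (eval (Denumerable.ofNat Code n) 0).Dom := by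
  constructor
  · rintro ⟨s, hs⟩
    simp only [st, Bool.and_eq_true, Option.isNone_iff_eq_none, Option.isSome_iff_exists] at hs
    obtain ⟨-, x, hx⟩ := hs
    exact Part.dom_iff_mem.2 ⟨x, evaln_sound (show x ∈ evaln (s + 1) _ 0 from hx)⟩
  · intro h
    obtain ⟨x, hx⟩ := Part.dom_iff_mem.1 h
    obtain ⟨k, hk⟩ := evaln_complete.1 hx
    classical
    have hex : ∃ k, (evaln k (Denumerable.ofNat Code n) 0).isSome = true := ⟨k, by
      rw [Option.isSome_iff_exists]; exact ⟨x, hk⟩⟩
    obtain ⟨m, hm⟩ : ∃ m, m = Nat.find hex := ⟨_, rfl⟩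
    have h1 := Nat.find_spec hex
    have h2 : ∀ j < m, ¬ (evaln j (Denumerable.ofNat Code n) 0).isSome = true :=
      fun j hj => Nat.find_min hex (hm ▸ hj)
    rw [← hm] at h1
    rcases m with _ | m
    · simp [evaln] at h1
    · refine ⟨m, ?_⟩
      have h3 := h2 m (Nat.lt_succ_self m)
      simp only [st, Bool.and_eq_true]
      refine ⟨?_, h1⟩
      simpa using h3

/-- position of the natural number `x` in the order -/
def key (x : ℕ) : ℕ :=
  if x % 3 = 0 then 4 * (x / 3)
  else if x % 3 = 1 then 4 * (x / 3) + 2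
  else if st (x / 3).unpair.1 (x / 3).unpair.2 = true then 4 * (x / 3).unpair.1 + 1
  else 4 * (x / 3) + 3

theorem key_cases (x : ℕ) : (x % 3 = 0 ∧ key x = 4 * (x / 3)) ∨
    (x % 3 = 1 ∧ key x = 4 * (x / 3) + 2) ∨
    (x % 3 = 2 ∧ st (x / 3).unpair.1 (x / 3).unpair.2 = true ∧ key x = 4 * (x / 3).unpair.1 + 1) ∨
    (x % 3 = 2 ∧ key x = 4 * (x / 3) + 3) := by
  unfold key
  split_ifs with h1 h2 h3
  · exact Or.inl ⟨h1, rfl⟩
  · exact Or.inr (Or.inl ⟨h2, rfl⟩)
  · exact Or.inr (Or.inr (Or.inl ⟨by omega, h3, rfl⟩))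
  · exact Or.inr (Or.inr (Or.inr ⟨by omega, rfl⟩))

theorem key_injective : Function.Injective key := by
  intro x y h
  rcases key_cases x with ⟨a1, a2⟩ | ⟨a1, a2⟩ | ⟨a1, a2, a3⟩ | ⟨a1, a2⟩ <;>
    rcases key_cases y with ⟨b1, b2⟩ | ⟨b1, b2⟩ | ⟨b1, b2, b3⟩ | ⟨b1, b2⟩ <;> try omega
  have e1 : (x / 3).unpair.1 = (y / 3).unpair.1 := by omega
  rw [e1] at a2
  have e2 := st_unique a2 b2
  have e3 : x / 3 = y / 3 := by
    rw [← Nat.pair_unpair (x / 3), ← Nat.pair_unpair (y / 3), e1, e2]
  omega

/-- the order -/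
@[reducible] def ord : LinearOrder ℕ := LinearOrder.lift' key key_injective

theorem ord_lt (x y : ℕ) : @LT.lt ℕ ord.toLT x y ↔ key x < key y := Iff.rfl

theorem key_a (n : ℕ) : key (3 * n) = 4 * n := by
  unfold key
  rw [if_pos (by omega)]
  omega

theorem key_b (n : ℕ) : key (3 * n + 1) = 4 * n + 2 := by
  unfold key
  rw [if_neg (by omega), if_pos (by omega)]
  omega

theorem between_ord (n : ℕ) : (∃ c, key (3 * n) < key c ∧ key c < key (3 * n + 1)) ↔
    (eval (Denumerable.ofNat Code n) 0).Dom := by
  rw [key_a, key_b, ← st_exists]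
  constructor
  · rintro ⟨c, h1, h2⟩
    have h3 : key c = 4 * n + 1 := by omega
    unfold key at h3
    split_ifs at h3 with b1 b2 b3
    · omega
    · omega
    · have : (c / 3).unpair.1 = n := by omega
      rw [this] at b3
      exact ⟨_, b3⟩
    · omega
  · rintro ⟨s, hs⟩
    refine ⟨3 * Nat.pair n s + 2, ?_⟩
    have h1 : (3 * Nat.pair n s + 2) / 3 = Nat.pair n s := by omega
    have h2 : key (3 * Nat.pair n s + 2) = 4 * n + 1 := by
      unfold key
      rw [if_neg (by omega), if_neg (by omega), h1, Nat.unpair_pair, if_pos hs]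
    omega

theorem st_primrec : Primrec₂ st := by
  have h1 : Primrec fun p : ℕ × ℕ => evaln p.2 (Denumerable.ofNat Code p.1) 0 :=
    primrec_evaln.comp (Primrec.pair (Primrec.pair Primrec.snd
      ((Primrec.ofNat Code).comp Primrec.fst)) (Primrec.const 0))
  have h2 : Primrec fun p : ℕ × ℕ => evaln (p.2 + 1) (Denumerable.ofNat Code p.1) 0 :=
    primrec_evaln.comp (Primrec.pair (Primrec.pair (Primrec.succ.comp Primrec.snd)
      ((Primrec.ofNat Code).comp Primrec.fst)) (Primrec.const 0))
  have h3 : Primrec fun p : ℕ × ℕ => (evaln p.2 (Denumerable.ofNat Code p.1) 0).isSome :=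
    Primrec.option_isSome.comp h1
  have h4 : Primrec fun p : ℕ × ℕ => (evaln (p.2 + 1) (Denumerable.ofNat Code p.1) 0).isSome :=
    Primrec.option_isSome.comp h2
  refine (Primrec.and.comp (Primrec.not.comp h3) h4).of_eq fun p => ?_
  unfold st
  cases evaln p.2 (Denumerable.ofNat Code p.1) 0 <;> rfl

theorem key_primrec : Primrec key := by
  have hm : Primrec fun x : ℕ => x % 3 := Primrec.nat_mod.comp Primrec.id (Primrec.const 3)
  have hd : Primrec fun x : ℕ => x / 3 := Primrec.nat_div.comp Primrec.id (Primrec.const 3)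
  have hu : Primrec fun x : ℕ => (x / 3).unpair := Primrec.unpair.comp hd
  have hs : Primrec fun x : ℕ => st (x / 3).unpair.1 (x / 3).unpair.2 :=
    st_primrec.comp (Primrec.fst.comp hu) (Primrec.snd.comp hu)
  unfold key
  refine Primrec.ite (Primrec.eq.comp hm (Primrec.const 0))
    (Primrec.nat_mul.comp (Primrec.const 4) hd) ?_
  refine Primrec.ite (Primrec.eq.comp hm (Primrec.const 1))
    (Primrec.nat_add.comp (Primrec.nat_mul.comp (Primrec.const 4) hd) (Primrec.const 2)) ?_
  refine Primrec.ite (Primrec.eq.comp hs (Primrec.const true))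
    (Primrec.nat_add.comp (Primrec.nat_mul.comp (Primrec.const 4) (Primrec.fst.comp hu))
      (Primrec.const 1)) ?_
  exact Primrec.nat_add.comp (Primrec.nat_mul.comp (Primrec.const 4) hd) (Primrec.const 3)

theorem ord_computable : ComputablePred fun p : ℕ × ℕ => @LT.lt ℕ ord.toLT p.1 p.2 := by
  have h : PrimrecPred fun p : ℕ × ℕ => key p.1 < key p.2 :=
    Primrec.nat_lt.comp (key_primrec.comp Primrec.fst) (key_primrec.comp Primrec.snd)
  exact h.computablePred

/-- letters of the equations: `0`, `1` are the letters `a`, `b`, and `2` is the variable -/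
def lett (n : ℕ) (i : ℕ) : ℕ ⊕ ℕ :=
  if i = 0 then Sum.inr (3 * n) else if i = 1 then Sum.inr (3 * n + 1) else Sum.inl 0

def tmpl : List (List ℕ × List ℕ) :=
  [([0, 1, 2], [1, 0, 2]), ([2, 0, 1], [2, 1, 0]), ([0, 2, 0], [2, 0, 0]), ([2, 0, 2], [2, 2, 0]),
    ([1, 2, 1], [1, 1, 2])]

def sys (n : ℕ) : List Equation := tmpl.map fun q => (q.1.map (lett n), q.2.map (lett n))

theorem sys_primrec : Primrec sys := by
  have h1 : Primrec₂ lett := by
    unfold lett
    refine Primrec.ite (Primrec.eq.comp Primrec.snd (Primrec.const 0)) ?_ ?_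
    · exact Primrec.sumInr.comp (Primrec.nat_mul.comp (Primrec.const 3) Primrec.fst)
    · refine Primrec.ite (Primrec.eq.comp Primrec.snd (Primrec.const 1)) ?_ (Primrec.const _)
      exact Primrec.sumInr.comp (Primrec.nat_add.comp
        (Primrec.nat_mul.comp (Primrec.const 3) Primrec.fst) (Primrec.const 1))
  unfold sys
  refine Primrec.list_map (Primrec.const _) (Primrec.pair ?_ ?_)
  · exact Primrec.list_map (Primrec.fst.comp Primrec.snd)
      (h1.comp (Primrec.fst.comp Primrec.fst) Primrec.snd).to₂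
  · exact Primrec.list_map (Primrec.snd.comp Primrec.snd)
      (h1.comp (Primrec.fst.comp Primrec.fst) Primrec.snd).to₂

theorem sys_iff (n : ℕ) : Solvable ord (sys n) ↔ (eval (Denumerable.ofNat Code n) 0).Dom := by
  rw [← between_ord]
  let _ := ord
  have h := between_iff (A := ℕ) (3 * n) (3 * n + 1) (show key (3 * n) < key (3 * n + 1) by
    rw [key_a, key_b]; omega)
  refine Iff.trans ?_ h
  unfold Solvable sys tmpl
  simp only [List.map_cons, List.map_nil, List.mem_cons, List.not_mem_nil, or_false,
    forall_eq_or_imp, forall_eq, value, lett, if_true, one_ne_zero, if_false, OfNat.ofNat_ne_zero,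
    OfNat.ofNat_ne_one, Sum.elim_inl, Sum.elim_inr, List.prod_cons, List.prod_nil, mul_one,
    mul_assoc]
  constructor
  · rintro ⟨x, hx⟩
    exact ⟨x 0, hx⟩
  · rintro ⟨X, hX⟩
    exact ⟨fun _ => X, hX⟩

theorem not_computable : ¬ ComputablePred (Solvable ord) := by
  intro h
  have h1 : ComputablePred fun n => Solvable ord (sys n) :=
    ComputablePred.computable_of_manyOneReducible ⟨sys, sys_primrec.to_comp, fun _ => Iff.rfl⟩ h
  have h2 : ComputablePred fun n => (eval (Denumerable.ofNat Code n) 0).Dom :=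
    h1.of_eq fun n => sys_iff n
  obtain ⟨inst2, hc2⟩ := h2
  have h3 : ComputablePred (fun c : Code =>
      (eval (Denumerable.ofNat Code (Encodable.encode c)) 0).Dom) :=
    ⟨fun c => inst2 (Encodable.encode c), hc2.comp Computable.encode⟩
  apply ComputablePred.halting_problem 0
  apply h3.of_eq
  intro c
  rw [Denumerable.ofNat_encode]

/-- the order `ord` has order type `ω` -/
theorem ord_omega : ∃ f : ℕ ≃ ℕ, ∀ x y : ℕ, @LT.lt ℕ ord.toLT x y ↔ f x < f y := by
  classical
  have hinf : (Set.range key).Infinite := Set.infinite_range_of_injective key_injective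
  have : Infinite (Set.range key) := hinf.to_subtype
  let g : ℕ ≃ Set.range key := Equiv.ofInjective key key_injective
  let o : ℕ ≃o Set.range key := Nat.Subtype.orderIsoOfNat (Set.range key)
  refine ⟨g.trans o.symm.toEquiv, fun x y => ?_⟩
  rw [ord_lt]
  show _ ↔ o.symm (g x) < o.symm (g y)
  rw [o.symm.lt_iff_lt]
  exact Iff.rfl

end Pool.Agent.R570.PlacOrd
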