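import Pool.Agent.R570.XorDefs

/-!
# Combinatorics of the two-neighbour XOR cellular automaton on dilated configurations
-/

namespace Pool.R570.XorCA

/-- Translation by `m`. -/
def tr (m : ℤ) (x : ℤ → Bool) : ℤ → Bool := fun i => x (i + m)

theorem F_tr (m : ℤ) (x : ℤ → Bool) : F (tr m x) = tr m (F x) := by
  funext i; simp only [F, tr]; congr 2; ring

theorem iter_F_tr (n : ℕ) (m : ℤ) (x : ℤ → Bool) : F^[n] (tr m x) = tr m (F^[n] x) := by
  induction n generalizing x with
  | zero => rfl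
  | succ n ih => rw [Function.iterate_succ_apply, Function.iterate_succ_apply, F_tr, ih]

theorem F_pow_two (c : ℕ) (x : ℤ → Bool) (i : ℤ) :
    F^[2 ^ c] x i = xor (x i) (x (i + 2 ^ c)) := by
  induction c generalizing x i with
  | zero => simp [F]
  | succ c ih =>
    rw [pow_succ, mul_two, Function.iterate_add_apply, ih, ih, ih, pow_succ, mul_two, ← add_assoc]
    cases x i <;> cases x (i + 2 ^ c) <;> cases x (i + 2 ^ c + 2 ^ c) <;> rfl

/-- Dilation by `2 ^ c`, with zeros in between. -/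
def D (c : ℕ) (v : ℤ → Bool) : ℤ → Bool := fun i => decide ((2 : ℤ) ^ c ∣ i) && v (i / 2 ^ c)

theorem D_mul (c : ℕ) (v : ℤ → Bool) (k : ℤ) : D c v (k * 2 ^ c) = v k := by
  have h : (2 : ℤ) ^ c ≠ 0 := by positivity
  simp [D, h]

theorem D_of_not_dvd (c : ℕ) (v : ℤ → Bool) {i : ℤ} (h : ¬ (2 : ℤ) ^ c ∣ i) : D c v i = false := by
  simp [D, h]

theorem iter_D (c : ℕ) (v : ℤ → Bool) : F^[2 ^ c] (D c v) = D c (F v) := by
  have h0 : (2 : ℤ) ^ c ≠ 0 := by positivity
  funext i
  rw [F_pow_two]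
  by_cases h : (2 : ℤ) ^ c ∣ i
  · obtain ⟨k, rfl⟩ := h
    rw [mul_comm, D_mul, D_mul, ← add_one_mul, D_mul]
    rfl
  · have h' : ¬ (2 : ℤ) ^ c ∣ i + 2 ^ c := by
      rwa [dvd_add_self_right]
    rw [D_of_not_dvd c v h, D_of_not_dvd c v h', D_of_not_dvd c _ h]
    rfl

theorem iter_mul_D (c q : ℕ) (v : ℤ → Bool) : F^[2 ^ c * q] (D c v) = D c (F^[q] v) := by
  induction q generalizing v with
  | zero => simp
  | succ q ih =>
    rw [mul_add, mul_one, Function.iterate_add_apply, iter_D, ih, Function.iterate_succ_apply]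

theorem D_D (c d : ℕ) (v : ℤ → Bool) : D c (D d v) = D (c + d) v := by
  funext i
  by_cases h : (2 : ℤ) ^ c ∣ i
  · obtain ⟨k, rfl⟩ := h
    rw [mul_comm, D_mul]
    have h0 : (2 : ℤ) ^ c ≠ 0 := by positivity
    have e : k * 2 ^ c / 2 ^ (c + d) = k / 2 ^ d := by
      rw [pow_add, mul_comm ((2 : ℤ) ^ c), ]
      exact Int.mul_ediv_mul_of_pos_left _ _ (by positivity)
    have e2 : (2 : ℤ) ^ (c + d) ∣ k * 2 ^ c ↔ (2 : ℤ) ^ d ∣ k := by
      rw [pow_add, mul_comm ((2 : ℤ) ^ c)]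
      exact mul_dvd_mul_iff_right h0
    simp only [D, e]
    congr 1
    exact decide_eq_decide.2 e2.symm
  · rw [D_of_not_dvd c _ h, D_of_not_dvd]
    intro h2
    exact h ((pow_dvd_pow 2 (Nat.le_add_right c d)).trans h2)

/-- The main local lemma: for `r < 2 ^ c`, the configuration `F^r (D c v)`. -/
theorem iter_small (c : ℕ) (v : ℤ → Bool) (r : ℕ) (hr : r < 2 ^ c) (k : ℤ) :
    (∀ t : ℕ, r < t → t < 2 ^ c → F^[r] (D c v) (k * 2 ^ c - t) = false) ∧
    F^[r] (D c v) (k * 2 ^ c - r) = v k ∧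
    F^[r] (D c v) (k * 2 ^ c) = v k ∧
    (∀ t : ℕ, t < 2 ^ c → v k = false → F^[r] (D c v) (k * 2 ^ c - t) = false) := by
  induction r generalizing k with
  | zero =>
    have key : ∀ t : ℕ, 0 < t → t < 2 ^ c → D c v (k * 2 ^ c - t) = false := by
      intro t h0 h1
      apply D_of_not_dvd
      intro h
      have h2 : (2 : ℤ) ^ c ∣ t := by
        have := dvd_sub (Dvd.intro_left k rfl : (2 : ℤ) ^ c ∣ k * 2 ^ c) h
        simpa using this
      have h3 : (2 : ℕ) ^ c ∣ t := by exact_mod_cast h2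
      exact absurd (Nat.le_of_dvd h0 h3) (by omega)
    refine ⟨fun t h0 h1 => by simpa using key t h0 h1, by simp [D_mul], by simp [D_mul], ?_⟩
    intro t h1 hv
    rcases Nat.eq_zero_or_pos t with rfl | h0
    · simp [D_mul, hv]
    · simpa using key t h0 h1
  | succ r ih =>
    have hr' : r < 2 ^ c := by omega
    have ihk := ih hr'
    have step : ∀ i : ℤ, F^[r + 1] (D c v) i = xor (F^[r] (D c v) i) (F^[r] (D c v) (i + 1)) := by
      intro i
      rw [Function.iterate_succ_apply']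
      rfl
    have e : ∀ (k : ℤ) (t : ℕ), 0 < t → k * 2 ^ c - (t : ℤ) + 1 = k * 2 ^ c - ((t - 1 : ℕ) : ℤ) := by
      intro k t ht
      push_cast [Nat.cast_sub (show 1 ≤ t from ht)]
      ring
    have e2 : ∀ k : ℤ, F^[r] (D c v) (k * 2 ^ c + 1) = false := by
      intro k
      have h1 := (ihk (k + 1)).1 (2 ^ c - 1) (by omega) (by omega)
      rw [← h1]
      refine congrArg _ ?_
      push_cast [Nat.cast_sub (show 1 ≤ 2 ^ c from Nat.one_le_two_pow)]
      ring
    refine ⟨?_, ?_, ?_, ?_⟩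
    · intro t h0 h1
      rw [step, e k t (by omega), (ihk k).1 t (by omega) h1, (ihk k).1 (t - 1) (by omega) (by omega)]
      rfl
    · rw [step, e k (r + 1) (by omega), (ihk k).1 (r + 1) (by omega) hr, Nat.add_sub_cancel,
        (ihk k).2.1]
      simp
    · rw [step, (ihk k).2.2.1, e2]
      simp
    · intro t h1 hv
      rcases Nat.eq_zero_or_pos t with rfl | h0
      · rw [step]
        simp only [Nat.cast_zero, sub_zero]
        rw [(ihk k).2.2.1, e2, hv]
        rfl
      · rw [step, e k t h0, (ihk k).2.2.2 t h1 hv, (ihk k).2.2.2 (t - 1) (by omega) hv]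
        rfl

/-- `x` shows the dilated pattern `1101` at position `s`: ones at `s`, `s + 2^c`, `s + 3·2^c`
and zeros at all other positions of `[s, s + 3·2^c]`. -/
def Pat (c : ℕ) (x : ℤ → Bool) (s : ℤ) : Prop :=
  ∀ i : ℕ, i < 3 * 2 ^ c + 1 → x (s + i) = decide (i = 0 ∨ i = 2 ^ c ∨ i = 3 * 2 ^ c)

theorem exists_rep (c : ℕ) (s : ℤ) : ∃ (m : ℤ) (t : ℕ), t < 2 ^ c ∧ s = m * 2 ^ c - t := by
  have hp : (0 : ℤ) < 2 ^ c := by positivity
  refine ⟨-((-s) / 2 ^ c), ((-s) % 2 ^ c).toNat, ?_, ?_⟩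
  · have h1 := Int.emod_lt_of_pos (-s) hp
    have h2 := Int.emod_nonneg (-s) hp.ne'
    zify
    rw [Int.toNat_of_nonneg h2]
    exact h1
  · have h2 := Int.emod_nonneg (-s) hp.ne'
    rw [Int.toNat_of_nonneg h2]
    have := Int.emod_add_mul_ediv (-s) (2 ^ c)
    linarith

/-- If the dilated pattern occurs in `F^r (D c v)` with `r < 2 ^ c` then `r = 0` and `1101` occurs
in `v`. -/
theorem pat_small (c : ℕ) (v : ℤ → Bool) (r : ℕ) (hr : r < 2 ^ c) (s : ℤ)
    (h : Pat c (F^[r] (D c v)) s) :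
    r = 0 ∧ ∃ m : ℤ, v m = true ∧ v (m + 1) = true ∧ v (m + 2) = false ∧ v (m + 3) = true := by
  obtain ⟨m, t, ht, rfl⟩ := exists_rep c s
  have hp : 0 < 2 ^ c := Nat.pow_pos (by norm_num)
  have hs : F^[r] (D c v) (m * 2 ^ c - t) = true := by
    simpa using h 0 (by omega)
  have hvm : v m = true := by
    by_contra hc
    rw [(iter_small c v r hr m).2.2.2 t ht (by simpa using hc)] at hs
    exact absurd hs (by simp)
  have ht0 : t = 0 := by
    by_contra h0
    have h1 := h t (by omega)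
    rw [sub_add_cancel, (iter_small c v r hr m).2.2.1, hvm] at h1
    have h2 : t = 0 ∨ t = 2 ^ c ∨ t = 3 * 2 ^ c := by simpa using h1.symm
    omega
  subst ht0
  simp only [Nat.cast_zero, sub_zero] at h hs
  have hv1 : v (m + 1) = true := by
    have h1 := h (2 ^ c) (by omega)
    have e : m * 2 ^ c + ((2 ^ c : ℕ) : ℤ) = (m + 1) * 2 ^ c := by push_cast; ring
    rw [e, (iter_small c v r hr (m + 1)).2.2.1] at h1
    rw [h1]
    simp
  have hr0 : r = 0 := by
    by_contra h0
    have h1 := h (2 ^ c - r) (by omega)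
    have e : m * 2 ^ c + ((2 ^ c - r : ℕ) : ℤ) = (m + 1) * 2 ^ c - r := by
      push_cast [Nat.cast_sub hr.le]; ring
    rw [e, (iter_small c v r hr (m + 1)).2.1, hv1] at h1
    have h2 : 2 ^ c - r = 0 ∨ 2 ^ c - r = 2 ^ c ∨ 2 ^ c - r = 3 * 2 ^ c := by simpa using h1.symm
    omega
  refine ⟨hr0, m, hvm, hv1, ?_, ?_⟩
  · have h1 := h (2 * 2 ^ c) (by omega)
    have e : m * 2 ^ c + ((2 * 2 ^ c : ℕ) : ℤ) = (m + 2) * 2 ^ c := by push_cast; ring
    rw [e, (iter_small c v r hr (m + 2)).2.2.1] at h1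
    rw [h1]
    have : ¬ (2 * 2 ^ c = 0 ∨ 2 * 2 ^ c = 2 ^ c ∨ 2 * 2 ^ c = 3 * 2 ^ c) := by omega
    exact decide_eq_false this
  · have h1 := h (3 * 2 ^ c) (by omega)
    have e : m * 2 ^ c + ((3 * 2 ^ c : ℕ) : ℤ) = (m + 3) * 2 ^ c := by push_cast; ring
    rw [e, (iter_small c v r hr (m + 3)).2.2.1] at h1
    rw [h1]
    simp

/-- The configuration `y = (110)^∞`. -/
def y : ℤ → Bool := fun i => decide (i % 3 ≠ 2)

theorem F_y : F y = tr 2 y := by
  funext i
  simp only [F, y, tr]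
  have h1 : i % 3 = 0 ∨ i % 3 = 1 ∨ i % 3 = 2 := by omega
  rcases h1 with h | h | h
  · have h2 : (i + 1) % 3 = 1 := by omega
    have h3 : (i + 2) % 3 = 2 := by omega
    simp [h, h2, h3]
  · have h2 : (i + 1) % 3 = 2 := by omega
    have h3 : (i + 2) % 3 = 0 := by omega
    simp [h, h2, h3]
  · have h2 : (i + 1) % 3 = 0 := by omega
    have h3 : (i + 2) % 3 = 1 := by omega
    simp [h, h2, h3]

/-- The configuration `z_c = D_c y`. -/
def z (c : ℕ) : ℤ → Bool := D c y

theorem D_tr (c : ℕ) (m : ℤ) (v : ℤ → Bool) : D c (tr m v) = tr (m * 2 ^ c) (D c v) := by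
  have h0 : (2 : ℤ) ^ c ≠ 0 := by positivity
  funext i
  have e : ((2 : ℤ) ^ c ∣ i + m * 2 ^ c) ↔ (2 : ℤ) ^ c ∣ i :=
    Int.dvd_add_left (Dvd.intro_left m rfl) 
  have e2 : (i + m * 2 ^ c) / 2 ^ c = i / 2 ^ c + m := Int.add_mul_ediv_right _ _ h0
  simp only [D, tr, e2]
  congr 1
  exact decide_eq_decide.2 e.symm

theorem iter_z (c : ℕ) : F^[2 ^ c] (z c) = tr (2 * 2 ^ c) (z c) := by
  rw [z, iter_D, F_y, D_tr]

theorem tr_tr (m n : ℤ) (x : ℤ → Bool) : tr m (tr n x) = tr (m + n) x := by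
  funext i; simp only [tr, add_assoc]

theorem y_per : tr 3 y = y := by
  funext i
  simp only [tr, y]
  have : (i + 3) % 3 = i % 3 := by omega
  rw [this]

theorem z_per (c : ℕ) : tr (3 * 2 ^ c) (z c) = z c := by
  rw [z, ← D_tr, y_per]

theorem iter_z_per (c n : ℕ) : tr (3 * 2 ^ c) (F^[n] (z c)) = F^[n] (z c) := by
  rw [← iter_F_tr, z_per]

/-- If the pattern of scale `c` occurs in `F^n z_{c'}` then `c' = c` and `n ≡ 0 mod 2^c`. -/
theorem pat_z (c c' n : ℕ) (s : ℤ) (h : Pat c (F^[n] (z c')) s) : c' = c ∧ 2 ^ c ∣ n := by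
  have hp : 0 < 2 ^ c := Nat.pow_pos (by norm_num)
  have hdiv : n % 2 ^ c + 2 ^ c * (n / 2 ^ c) = n := Nat.mod_add_div n (2 ^ c)
  have hlt : n % 2 ^ c < 2 ^ c := Nat.mod_lt _ hp
  rcases lt_trichotomy c' c with hlt' | rfl | hgt
  · -- small period
    exfalso
    have h1 : F^[n] (z c') s = true := by simpa using h 0 (by omega)
    have hper : ∀ (k : ℕ) (i : ℤ), F^[n] (z c') (i + k * (3 * 2 ^ c')) = F^[n] (z c') i := by
      intro k
      induction k with
      | zero => intro i; simp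
      | succ k ih =>
        intro i
        have h2 := congrFun (iter_z_per c' n) (i + k * (3 * 2 ^ c'))
        rw [ih] at h2
        rw [← h2]
        simp only [tr]
        refine congrArg _ ?_
        push_cast; ring
    -- `2^c ≥ 2 * 2^c'`; find a multiple of the period in the open zero block
    have h2c : 2 * 2 ^ c' ≤ 2 ^ c := by
      calc 2 * 2 ^ c' = 2 ^ (c' + 1) := by ring
        _ ≤ 2 ^ c := Nat.pow_le_pow_right (by norm_num) hlt'
    have hp' : 0 < 2 ^ c' := Nat.pow_pos (by norm_num)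
    set P := 3 * 2 ^ c' with hP
    -- multiple `k * P` with `2 ^ c < k * P < 3 * 2 ^ c`
    obtain ⟨k, hk1, hk2⟩ : ∃ k, 2 ^ c < k * P ∧ k * P < 3 * 2 ^ c := by
      refine ⟨2 ^ c / P + 1, ?_, ?_⟩
      · have := Nat.lt_div_mul_add (a := 2 ^ c) (b := P) (by omega)
        rw [add_mul, one_mul]
        exact this
      · have := Nat.div_mul_le_self (2 ^ c) P
        rw [add_mul, one_mul]
        omega
    have h3 := h (k * P) (by omega)
    have h4 := hper k s
    rw [show (s + ((k * P : ℕ) : ℤ)) = s + k * (3 * 2 ^ c') by push_cast [hP]; ring, h4, h1] at h3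
    have h5 : k * P = 0 ∨ k * P = 2 ^ c ∨ k * P = 3 * 2 ^ c := by simpa using h3.symm
    omega
  · refine ⟨rfl, ?_⟩
    rw [← hdiv, Function.iterate_add_apply, z, iter_mul_D] at h
    have h1 := (pat_small c' _ _ hlt s h).1
    exact Nat.dvd_of_mod_eq_zero h1
  · exfalso
    obtain ⟨d, rfl⟩ : ∃ d, c' = c + (1 + d) := ⟨c' - c - 1, by omega⟩
    rw [← hdiv, Function.iterate_add_apply, z, ← D_D, iter_mul_D] at h
    obtain ⟨-, m, h0, h1, h2, h3⟩ := pat_small c _ _ hlt s h
    set q := n / 2 ^ c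
    rw [← D_D] at h0 h1 h2 h3
    set u := D d y
    rcases Nat.even_or_odd' q with ⟨q', hq | hq⟩
    · have e : F^[q] (D 1 u) = D 1 (F^[q'] u) := by
        rw [hq]
        exact iter_mul_D 1 q' u
      rw [e] at h0 h1 h2 h3
      have key : ∀ i : ℤ, D 1 (F^[q'] u) i = true → i % 2 = 0 := by
        intro i hi
        by_contra hc
        rw [D_of_not_dvd] at hi
        · exact absurd hi (by simp)
        · rw [pow_one]
          omega
      have a := key _ h0
      have b := key _ h1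
      omega
    · have e : F^[q] (D 1 u) = F (D 1 (F^[q'] u)) := by
        rw [hq, Function.iterate_succ_apply']
        congr 1
        exact iter_mul_D 1 q' u
      rw [e] at h0 h1 h2 h3
      set w := F^[q'] u
      -- `v (2m'+1) = v (2m'+2)`
      have key : ∀ i : ℤ, i % 2 = 1 → F (D 1 w) i = F (D 1 w) (i + 1) := by
        intro i hi
        have a : D 1 w i = false := D_of_not_dvd 1 w (by rw [pow_one]; omega)
        have b : D 1 w (i + 1 + 1) = false := D_of_not_dvd 1 w (by rw [pow_one]; omega)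
        simp only [F, a, b]
        simp
      rcases Int.emod_two_eq_zero_or_one m with hm | hm
      · have := key (m + 1) (by omega)
        rw [show m + 1 + 1 = m + 2 by ring, h1, h2] at this
        exact absurd this (by simp)
      · have := key (m + 2) (by omega)
        rw [show m + 2 + 1 = m + 3 by ring, h3, h2] at this
        exact absurd this (by simp)

theorem pat_z_zero (c : ℕ) : Pat c (z c) 0 := by
  have hp : 0 < 2 ^ c := Nat.pow_pos (by norm_num)
  intro i hi
  rw [zero_add]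
  by_cases hd : 2 ^ c ∣ i
  · obtain ⟨k, rfl⟩ := hd
    have hk : k < 4 := by
      by_contra hk
      rw [not_lt] at hk
      have := Nat.mul_le_mul_left (2 ^ c) hk
      omega
    have e : (((2 ^ c * k : ℕ)) : ℤ) = (k : ℤ) * 2 ^ c := by push_cast; ring
    rw [z, e, D_mul]
    interval_cases k
    · simp [y]
    · simp [y]
    · have : ¬ (2 ^ c * 2 = 0 ∨ 2 ^ c * 2 = 2 ^ c ∨ 2 ^ c * 2 = 3 * 2 ^ c) := by omega
      simp only [this]
      simp [y]
    · simp [y, mul_comm]
  · rw [z, D_of_not_dvd]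
    · have : ¬ (i = 0 ∨ i = 2 ^ c ∨ i = 3 * 2 ^ c) := by
        rintro (rfl | rfl | rfl)
        · exact hd (dvd_zero _)
        · exact hd dvd_rfl
        · exact hd (Dvd.intro_left _ rfl)
      simp [this]
    · intro h
      exact hd (by exact_mod_cast h)

end Pool.R570.XorCA
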