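import Pool.Agent.R570.XorMeas

/-!
# Computability of the mixture, and non-computable limit points
-/

namespace Pool.R570.XorCA

open MeasureTheory Filter Topology Nat.Partrec

/-! ## Primitive recursive evaluation of `cnt c 0 w` -/

theorem primrec_pow2 : Primrec (fun c : ℕ => 2 ^ c) := by
  have h : Primrec₂ (fun a b : ℕ => a ^ b) := Primrec₂.unpaired'.1 Nat.Primrec.pow
  exact h.comp (Primrec.const 2) Primrec.id

/-- The bit of `z_c` at a natural position. -/
def bit (c n : ℕ) : Bool := decide (n % 2 ^ c = 0) && decide ((n / 2 ^ c) % 3 ≠ 2)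

theorem z_nat (c n : ℕ) : z c (n : ℤ) = bit c n := by
  unfold z D bit y
  congr 1
  · apply decide_eq_decide.2
    rw [← Nat.dvd_iff_mod_eq_zero]
    exact ⟨fun h => by exact_mod_cast h, fun h => by exact_mod_cast h⟩
  · apply decide_eq_decide.2
    have : ((n : ℤ) / 2 ^ c) % 3 = (((n / 2 ^ c) % 3 : ℕ) : ℤ) := by push_cast; rfl
    rw [this]
    constructor
    · intro h h2; exact h (by rw [h2]; rfl)
    · intro h h2; exact h (by exact_mod_cast h2)

theorem primrec_bit : Primrec₂ bit := by
  unfold bit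
  have hp : Primrec (fun p : ℕ × ℕ => 2 ^ p.1) := primrec_pow2.comp Primrec.fst
  refine Primrec.and.comp ?_ ?_
  · exact (Primrec.eq.comp (Primrec.nat_mod.comp Primrec.snd hp) (Primrec.const 0)).decide
  · exact (PrimrecPred.not (Primrec.eq.comp (Primrec.nat_mod.comp (Primrec.nat_div.comp
      Primrec.snd hp) (Primrec.const 3)) (Primrec.const 2))).decide

/-- The word of length `n` read in `z_c` at position `s`. -/
def zword (c s n : ℕ) : List Bool := (List.range n).map (fun i => bit c (s + i))

theorem word_z (c s n : ℕ) : word (z c) (s : ℤ) n = zword c s n := by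
  unfold word zword
  refine List.map_congr_left fun i _ => ?_
  rw [← z_nat]
  push_cast
  rfl

theorem primrec_zword : Primrec (fun p : (ℕ × ℕ) × ℕ => zword p.1.1 p.1.2 p.2) := by
  unfold zword
  refine Primrec.list_map (Primrec.list_range.comp Primrec.snd) ?_
  refine Primrec₂.mk ?_
  exact primrec_bit.comp (Primrec.fst.comp (Primrec.fst.comp Primrec.fst))
    (Primrec.nat_add.comp (Primrec.snd.comp (Primrec.fst.comp Primrec.fst)) Primrec.snd)

/-- executable count -/
def zcnt (c : ℕ) (w : List Bool) : ℕ :=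
  ((List.range (3 * 2 ^ c)).filter (fun s => decide (zword c s w.length = w))).length

theorem primrec_zcnt : Primrec₂ zcnt := by
  unfold zcnt
  have hR : PrimrecRel (fun (s : ℕ) (p : ℕ × List Bool) => zword p.1 s p.2.length = p.2) := by
    refine Primrec.eq.comp ?_ (Primrec.snd.comp Primrec.snd)
    exact primrec_zword.comp ((Primrec.pair (Primrec.fst.comp Primrec.snd) Primrec.fst).pair
      (Primrec.list_length.comp (Primrec.snd.comp Primrec.snd)))
  have h1 := PrimrecRel.listFilter hR
  have h2 : Primrec (fun p : ℕ × List Bool => List.range (3 * 2 ^ p.1)) :=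
    Primrec.list_range.comp (Primrec.nat_mul.comp (Primrec.const 3) (primrec_pow2.comp Primrec.fst))
  exact Primrec.list_length.comp (h1.comp h2 Primrec.id)

theorem cnt_zero_eq (c : ℕ) (w : List Bool) : cnt c 0 w = zcnt c w := by
  classical
  unfold cnt zcnt
  have h1 : ∀ s : ℕ, tr (s : ℤ) (F^[0] (z c)) ∈ cyl w ↔ zword c s w.length = w := by
    intro s
    rw [mem_cyl_iff, Function.iterate_zero_apply, word_z]
  simp only [h1]
  rw [← List.toFinset_card_of_nodup (List.nodup_range.filter _), List.toFinset_filter,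
    List.toFinset_range]
  congr 1
  ext s
  simp

/-! ## Partial sums -/

/-- denominators of the terms -/
def den (a : ℕ → ℕ) (j : ℕ) : ℕ := 2 ^ (j + 1) * (3 * 2 ^ a j)

/-- numerators/denominators of partial sums -/
def psum (a : ℕ → ℕ) (w : List Bool) : ℕ → ℕ × ℕ
  | 0 => (0, 1)
  | j + 1 => ((psum a w j).1 * den a j + zcnt (a j) w * (psum a w j).2, (psum a w j).2 * den a j)

theorem den_pos (a : ℕ → ℕ) (j : ℕ) : 0 < den a j := by unfold den; positivity

theorem psum_pos (a : ℕ → ℕ) (w : List Bool) (j : ℕ) : 0 < (psum a w j).2 := by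
  induction j with
  | zero => exact one_pos
  | succ j ih => exact Nat.mul_pos ih (den_pos a j)

theorem psum_eq (a : ℕ → ℕ) (w : List Bool) (j : ℕ) :
    ((psum a w j).1 : ℝ) / (psum a w j).2 =
      ∑ k ∈ Finset.range j, (1 / 2 : ℝ) ^ (k + 1) * wt (a k) 0 w := by
  induction j with
  | zero => simp [psum]
  | succ j ih =>
    rw [Finset.sum_range_succ, ← ih]
    have h1 : ((psum a w j).2 : ℝ) ≠ 0 := by exact_mod_cast (psum_pos a w j).ne'
    have h2 : ((den a j : ℕ) : ℝ) ≠ 0 := by exact_mod_cast (den_pos a j).ne'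
    have h3 : (1 / 2 : ℝ) ^ (j + 1) * wt (a j) 0 w = (zcnt (a j) w : ℝ) / (den a j : ℕ) := by
      unfold wt den
      rw [cnt_zero_eq, one_div, inv_pow]
      push_cast
      field_simp
    rw [h3]
    simp only [psum]
    push_cast
    field_simp

theorem primrec_den {a : ℕ → ℕ} (ha : Primrec a) : Primrec (den a) := by
  unfold den
  exact Primrec.nat_mul.comp (primrec_pow2.comp Primrec.succ)
    (Primrec.nat_mul.comp (Primrec.const 3) (primrec_pow2.comp ha))

theorem primrec_psum {a : ℕ → ℕ} (ha : Primrec a) : Primrec₂ (psum a) := by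
  have hd := primrec_den ha
  have step : Primrec₂ (fun (w : List Bool) (p : ℕ × (ℕ × ℕ)) =>
      (p.2.1 * den a p.1 + zcnt (a p.1) w * p.2.2, p.2.2 * den a p.1)) := by
    refine Primrec₂.mk ?_
    have e1 : Primrec (fun q : List Bool × ℕ × ℕ × ℕ => q.2.2.1) :=
      Primrec.fst.comp (Primrec.snd.comp Primrec.snd)
    have e2 : Primrec (fun q : List Bool × ℕ × ℕ × ℕ => q.2.2.2) :=
      Primrec.snd.comp (Primrec.snd.comp Primrec.snd)
    have e3 : Primrec (fun q : List Bool × ℕ × ℕ × ℕ => q.2.1) :=
      Primrec.fst.comp Primrec.snd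
    refine Primrec.pair ?_ ?_
    · refine Primrec.nat_add.comp (Primrec.nat_mul.comp e1 (hd.comp e3)) ?_
      exact Primrec.nat_mul.comp (primrec_zcnt.comp (ha.comp e3) Primrec.fst) e2
    · exact Primrec.nat_mul.comp e2 (hd.comp e3)
  have h := Primrec.nat_rec (f := fun _ : List Bool => ((0, 1) : ℕ × ℕ)) (Primrec.const _) step
  refine h.of_eq fun w j => ?_
  induction j with
  | zero => rfl
  | succ j ih =>
    simp only [psum]
    rw [← ih]

theorem encode_natCast_int (n : ℕ) : Encodable.encode ((n : ℕ) : ℤ) = 2 * n := by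
  rfl

theorem primrec_natCast : Primrec (fun n : ℕ => (n : ℤ)) := by
  rw [← Primrec.encode_iff]
  exact Primrec.nat_double.of_eq fun n => (encode_natCast_int n).symm

/-- The mixture with `τ = 0` and a primitive recursive `a` is computable. -/
theorem comp_M {a : ℕ → ℕ} (ha : Primrec a) : CompFun (fun w => (M a (fun _ => 0)).real (cyl w)) := by
  refine ⟨fun p => (((psum a p.1 p.2).1 : ℤ), (psum a p.1 p.2).2 - 1), ?_, ?_⟩
  · have h := (primrec_psum ha)
    have h1 : Primrec (fun p : List Bool × ℕ => psum a p.1 p.2) := h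
    refine Primrec.to_comp (Primrec.pair ?_ ?_)
    · exact primrec_natCast.comp (Primrec.fst.comp h1)
    · exact Primrec.nat_sub.comp (Primrec.snd.comp h1) (Primrec.const 1)
  · intro w k
    have e : (((psum a w k).2 - 1 : ℕ) : ℝ) + 1 = ((psum a w k).2 : ℕ) := by
      rw [Nat.cast_sub (psum_pos a w k)]
      push_cast; ring
    simp only [e, Int.cast_natCast]
    rw [psum_eq, M_cyl, ← (summable_M a (fun _ => 0) w).sum_add_tsum_nat_add k, add_sub_cancel_left]
    have hs : Summable fun j : ℕ => (1 / 2 : ℝ) ^ j * ((1 / 2 : ℝ) ^ (k + 1)) :=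
      summable_geometric_two.mul_right _
    have hs0 := (summable_nat_add_iff k).2 (summable_M a (fun _ => 0) w)
    have hle : ∀ j : ℕ, (1 / 2 : ℝ) ^ (j + k + 1) * wt (a (j + k)) 0 w ≤
        (1 / 2 : ℝ) ^ j * ((1 / 2 : ℝ) ^ (k + 1)) := by
      intro j
      rw [← pow_add, ← add_assoc]
      exact mul_le_of_le_one_right (by positivity) (wt_le_one _ _ _)
    rw [abs_of_nonneg (tsum_nonneg fun j => mul_nonneg (by positivity) (wt_nonneg _ _ _))]
    refine (hs0.tsum_le_tsum hle hs).trans ?_
    rw [tsum_mul_right, tsum_geometric_two, pow_succ]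
    rw [show (2 : ℝ)⁻¹ = 1 / 2 by norm_num]
    linarith

/-! ## Countably many computable functions -/

theorem countable_computable {α β : Type} [Primcodable α] [Primcodable β] :
    {f : α → β | Computable f}.Countable := by
  have h : ∀ f : {f : α → β | Computable f}, ∃ c : Code, c.eval =
      fun n => Part.bind (Encodable.decode (α := α) n : Part α)
        fun a => ((Part.some (f.1 a)).map Encodable.encode) := fun f => Code.exists_code.1 f.2
  choose c hc using h
  refine (Set.countable_coe_iff).1 (Function.Injective.countable (f := c) ?_)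
  intro f g hfg
  apply Subtype.ext
  funext a
  have h1 := hc f
  rw [hfg, hc g] at h1
  have h2 := congrFun h1 (Encodable.encode a)
  simpa using h2.symm

theorem countable_compFun : {Q : List Bool → ℝ | CompFun Q}.Countable := by
  have h : ∀ Q : {Q : List Bool → ℝ | CompFun Q}, ∃ f : {f : List Bool × ℕ → ℤ × ℕ | Computable f},
      ∀ (w : List Bool) (k : ℕ),
        |Q.1 w - ((f.1 (w, k)).1 : ℝ) / ((f.1 (w, k)).2 + 1)| ≤ (2 : ℝ)⁻¹ ^ k := by
    rintro ⟨Q, f, hf, h⟩
    exact ⟨⟨f, hf⟩, h⟩
  choose f hf using h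
  have hc : Countable {f : List Bool × ℕ → ℤ × ℕ | Computable f} :=
    (Set.countable_coe_iff).2 countable_computable
  refine (Set.countable_coe_iff).1 (Function.Injective.countable (f := f) ?_)
  intro Q Q' h
  apply Subtype.ext
  funext w
  have h1 := hf Q w
  have h2 := hf Q' w
  rw [← h] at h2
  have h3 : ∀ k : ℕ, |Q.1 w - Q'.1 w| ≤ 2 * (2 : ℝ)⁻¹ ^ k := by
    intro k
    have a := h1 k
    have b := h2 k
    rw [abs_le] at a b ⊢
    constructor <;> linarith [a.1, a.2, b.1, b.2]
  have h4 : Tendsto (fun k : ℕ => 2 * (2 : ℝ)⁻¹ ^ k) atTop (𝓝 (2 * 0)) :=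
    (tendsto_pow_atTop_nhds_zero_of_lt_one (by norm_num) (by norm_num)).const_mul 2
  have h5 := ge_of_tendsto' h4 h3
  rw [mul_zero] at h5
  exact sub_eq_zero.1 (abs_eq_zero.1 (le_antisymm h5 (abs_nonneg _)))

/-! ## The limit points -/

/-- `t_b(c) = ∑_{i<c} b_i 2^i`. -/
def tb (b : ℕ → Bool) : ℕ → ℕ
  | 0 => 0
  | c + 1 => tb b c + (if b c then 2 ^ c else 0)

theorem tb_lt (b : ℕ → Bool) (c : ℕ) : tb b c < 2 ^ c := by
  induction c with
  | zero => simp [tb]
  | succ c ih =>
    simp only [tb, pow_succ]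
    split_ifs <;> omega

theorem tb_mod (b : ℕ → Bool) (c d : ℕ) : tb b (c + d) % 2 ^ c = tb b c := by
  induction d with
  | zero => exact Nat.mod_eq_of_lt (tb_lt b c)
  | succ d ih =>
    rw [← add_assoc]
    simp only [tb]
    split_ifs
    · rw [pow_add, Nat.add_mul_mod_self_left, ih]
    · exact ih

theorem tb_inj (b b' : ℕ → Bool) (c : ℕ) (h : tb b c = tb b' c) : ∀ i < c, b i = b' i := by
  induction c with
  | zero => intro i hi; exact absurd hi (by omega)
  | succ c ih =>
    have h1 : tb b c = tb b' c := by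
      have : tb b (c + 1) % 2 ^ c = tb b' (c + 1) % 2 ^ c := by rw [h]
      rwa [tb_mod b c 1, tb_mod b' c 1] at this
    intro i hi
    rcases Nat.lt_succ_iff_lt_or_eq.1 hi with h2 | rfl
    · exact ih h1 i h2
    · simp only [tb] at h
      rw [h1] at h
      have hp : 0 < 2 ^ i := by positivity
      rcases hb : b i <;> rcases hb' : b' i <;> simp [hb, hb'] at h ⊢

/-- time steps converging to `b` 2-adically -/
def nb (b : ℕ → Bool) (j : ℕ) : ℕ := tb b j + 2 ^ j

theorem nb_mono (b : ℕ → Bool) : StrictMono (nb b) := by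
  refine strictMono_nat_of_lt_succ fun j => ?_
  unfold nb
  have h1 : tb b j ≤ tb b (j + 1) := by simp [tb]
  have : 2 ^ j < 2 ^ (j + 1) := by
    rw [pow_succ]; have : 0 < 2 ^ j := by positivity
    omega
  omega

theorem nb_mod (b : ℕ → Bool) (c j : ℕ) (h : c ≤ j) : nb b j % 2 ^ c = tb b c % 2 ^ c := by
  obtain ⟨d, rfl⟩ := Nat.exists_eq_add_of_le h
  unfold nb
  rw [pow_add, Nat.add_mul_mod_self_left, tb_mod, Nat.mod_eq_of_lt (tb_lt b c)]

/-- `F^m` on `[0, L)` depends only on `[0, L + m)`. -/
theorem iter_congr (m : ℕ) (x x' : ℤ → Bool) (L : ℕ) (h : ∀ i : ℕ, i < L + m → x i = x' i) :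
    ∀ i : ℕ, i < L → F^[m] x i = F^[m] x' i := by
  induction m generalizing x x' with
  | zero => intro i hi; exact h i hi
  | succ m ih =>
    intro i hi
    rw [Function.iterate_succ_apply, Function.iterate_succ_apply]
    refine ih (F x) (F x') ?_ i hi
    intro j hj
    simp only [F]
    rw [h j (by omega)]
    have := h (j + 1) (by omega)
    push_cast at this
    rw [this]

theorem limit_inj (a : ℕ → ℕ) (ha : (Set.range a).Infinite) (b b' : ℕ → Bool)
    (h : ∀ w, (M a (tb b)).real (cyl w) = (M a (tb b')).real (cyl w)) : b = b' := by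
  classical
  by_contra hne
  obtain ⟨i, hi⟩ := Function.ne_iff.1 hne
  obtain ⟨c, ⟨k, hk⟩, hc⟩ := ha.exists_gt i
  -- time to complete to a multiple of `2 ^ c`
  set m := 2 ^ c - tb b c with hm
  have hmb : m + tb b c = 2 ^ c := by
    have := tb_lt b c
    omega
  set L := (pw c).length with hL
  -- a position at which the pattern occurs in `F^(2^c) z_c`
  have hpos : 0 < cnt c (m + tb b c) (pw c) := by
    rw [hmb, cnt_modEq (n' := 0) (by simp)]
    exact cnt_pw_zero_pos c
  obtain ⟨s, hs⟩ : ∃ s, s ∈ (Finset.range (3 * 2 ^ c)).filter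
      (fun s : ℕ => tr (s : ℤ) (F^[m + tb b c] (z c)) ∈ cyl (pw c)) := by
    unfold cnt at hpos
    exact Finset.card_pos.1 hpos
  rw [Finset.mem_filter] at hs
  obtain ⟨hs1, hs2⟩ := hs
  -- the word of length `L + m`
  set x := tr (s : ℤ) (F^[tb b c] (z c)) with hx
  set u := word x 0 (L + m) with hu
  have hul : u.length = L + m := by simp [hu, word]
  have hxu : x ∈ cyl u := by
    have : tr 0 x ∈ cyl u := by
      rw [mem_cyl_iff, hul]
    have e : tr 0 x = x := by funext i; simp [tr]
    rwa [e] at this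
  have hFm : F^[m] x ∈ cyl (pw c) := by
    rw [hx, iter_F_tr, ← Function.iterate_add_apply]
    exact hs2
  have hcyl : ∀ x' ∈ cyl u, F^[m] x' ∈ cyl (pw c) := by
    intro x' hx' i hi
    rw [← hFm i hi]
    refine iter_congr m x' x L ?_ i hi
    intro j hj
    rw [hx' j (by rw [hul]; exact hj), hxu j (by rw [hul]; exact hj)]
  have hposu : 0 < (M a (tb b)).real (cyl u) := by
    refine lt_of_lt_of_le ?_ (M_ge a (tb b) u k)
    rw [hk]
    have : 0 < cnt c (tb b c) u := by
      unfold cnt
      rw [Finset.card_pos]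
      exact ⟨s, Finset.mem_filter.2 ⟨hs1, hxu⟩⟩
    unfold wt
    positivity
  have hzero : (M a (tb b')).real (cyl u) = 0 := by
    rw [M_cyl]
    convert tsum_zero with j
    have : cnt (a j) (tb b' (a j)) u = 0 := by
      unfold cnt
      rw [Finset.card_eq_zero, Finset.filter_eq_empty_iff]
      intro s' _ hs'
      have h1 := hcyl _ hs'
      rw [iter_F_tr, ← Function.iterate_add_apply, mem_cyl_pw] at h1
      obtain ⟨h2, h3⟩ := pat_z c (a j) _ _ h1
      rw [h2] at h3
      have h4 : tb b c = tb b' c := by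
        have h5 := tb_lt b c
        have h6 := tb_lt b' c
        obtain ⟨q, hq⟩ := h3
        have h7 : q = 1 := by
          rcases q with _ | _ | q
          · omega
          · rfl
          · exfalso
            have : 2 ^ c * (q + 1 + 1) = 2 ^ c * q + 2 ^ c + 2 ^ c := by ring
            omega
        rw [h7] at hq
        omega
      exact hi (tb_inj b b' c h4 i hc)
    simp [wt, this]
  rw [h u, hzero] at hposu
  exact lt_irrefl _ hposu

theorem exists_noncomputable (a : ℕ → ℕ) (ha : (Set.range a).Infinite) :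
    ∃ b : ℕ → Bool, ¬ CompFun (fun w => (M a (tb b)).real (cyl w)) := by
  by_contra hcon
  push Not at hcon
  have hinj : Function.Injective (fun b : ℕ → Bool =>
      (⟨fun w => (M a (tb b)).real (cyl w), hcon b⟩ : {Q : List Bool → ℝ | CompFun Q})) := by
    intro b b' h
    have h1 := congrArg Subtype.val h
    exact limit_inj a ha b b' fun w => congrFun h1 w
  have hc : Countable {Q : List Bool → ℝ | CompFun Q} := (Set.countable_coe_iff).2 countable_compFun
  have h2 : Countable (ℕ → Bool) := hinj.countable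
  have h3 : Countable (Set ℕ) := by
    have e : Function.Injective (fun (s : Set ℕ) (n : ℕ) => @decide (n ∈ s) (Classical.dec _)) := by
      intro s t h
      ext n
      have := congrFun h n
      simpa using this
    exact e.countable
  obtain ⟨f, hf⟩ := exists_injective_nat (Set ℕ)
  exact Function.cantor_injective f hf

end Pool.R570.XorCA
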