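import Mathlib

/-!
# The two-neighbour XOR cellular automaton: the notions used in the statements

Configurations are functions `ℤ → Bool` (`false = 0`, `true = 1`); `ℤ → Bool` carries the product
σ-algebra.
-/

namespace Pool.R570.XorCA

open MeasureTheory Filter Topology

/-- The two-neighbour XOR cellular automaton `F(x)_i = x_i + x_{i+1}` on `{0,1}^ℤ`
(`0 = false`, `1 = true`). -/
def F (x : ℤ → Bool) : ℤ → Bool := fun i => xor (x i) (x (i + 1))

/-- The shift. -/
def shift (x : ℤ → Bool) : ℤ → Bool := fun i => x (i + 1)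

/-- The cylinder `[w]` at position `0`. -/
def cyl (w : List Bool) : Set (ℤ → Bool) := {x | ∀ (i : ℕ) (h : i < w.length), x (i : ℤ) = w[i]}

/-- `Q` (a function of words) is computable: an algorithm outputs, given `w` and `k`, a pair
`(p, q) ∈ ℤ × ℕ` such that the rational `p / (q + 1)` is within `2^{-k}` of `Q w`. -/
def CompFun (Q : List Bool → ℝ) : Prop :=
  ∃ f : List Bool × ℕ → ℤ × ℕ, Computable f ∧
    ∀ (w : List Bool) (k : ℕ), |Q w - ((f (w, k)).1 : ℝ) / ((f (w, k)).2 + 1)| ≤ (2 : ℝ)⁻¹ ^ k

/-- A measure is computable when an algorithm outputs, given `w` and `k`, a rational within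
`2^{-k}` of the measure of the cylinder `[w]`. -/
def ComputableMeasure (μ : Measure (ℤ → Bool)) : Prop := CompFun (fun w => μ.real (cyl w))

/-- `ν` is a limit point of `(F^n μ)`: along some subsequence the measures of all cylinders
converge to those of `ν`. -/
def IsLimitPoint (μ ν : Measure (ℤ → Bool)) : Prop :=
  ∃ φ : ℕ → ℕ, StrictMono φ ∧
    ∀ w, Tendsto (fun j => (μ.map F^[φ j]).real (cyl w)) atTop (𝓝 (ν.real (cyl w)))

/-- The `μ`-limit language: the words `w` with `(F^n μ)([w])` not tending to `0`. -/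
def limitLanguage (μ : Measure (ℤ → Bool)) : Set (List Bool) :=
  {w | ¬ Tendsto (fun n => (μ.map F^[n]).real (cyl w)) atTop (𝓝 0)}

end Pool.R570.XorCA
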