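import Pool.Agent.R570.XorComp

/-!
# Limit measures and limit languages of the XOR cellular automaton: the notions and the example
-/

namespace Pool.R570.XorCA

open MeasureTheory Filter Topology Nat.Partrec

/-- The enumeration: `2c+1` is listed iff the program `c` halts on input `0`; infinitely many
even numbers are listed as well. -/
def en (k : ℕ) : ℕ :=
  if (Code.evaln k.unpair.2 (Denumerable.ofNat Code k.unpair.1) 0).isSome then
    2 * k.unpair.1 + 1 else 2 * k

theorem primrec_en : Primrec en := by
  unfold en
  refine Primrec.ite ?_ ?_ Primrec.nat_double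
  · have h1 : Primrec (fun k : ℕ => k.unpair.1) := Primrec.fst.comp Primrec.unpair
    have h2 : Primrec (fun k : ℕ => k.unpair.2) := Primrec.snd.comp Primrec.unpair
    have h3 : Primrec (fun k : ℕ => Code.evaln k.unpair.2 (Denumerable.ofNat Code k.unpair.1) 0) :=
      Code.primrec_evaln.comp ((h2.pair ((Primrec.ofNat Code).comp h1)).pair (Primrec.const 0))
    exact Primrec.eq.comp (Primrec.option_isSome.comp h3) (Primrec.const true)
  · exact Primrec.nat_double_succ.comp (Primrec.fst.comp Primrec.unpair)

theorem en_infinite : (Set.range en).Infinite := by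
  refine Set.infinite_of_injective_forall_mem (f := fun c : ℕ => 2 * Nat.pair c 0) ?_ ?_
  · intro c c' h
    have h1 : Nat.pair c 0 = Nat.pair c' 0 := by
      have : 2 * Nat.pair c 0 = 2 * Nat.pair c' 0 := h
      omega
    exact (Nat.pair_eq_pair.1 h1).1
  · intro c
    refine ⟨Nat.pair c 0, ?_⟩
    simp [en, Code.evaln]

theorem odd_mem_en (c : Code) : 2 * Encodable.encode c + 1 ∈ Set.range en ↔ (c.eval 0).Dom := by
  constructor
  · rintro ⟨k, hk⟩
    unfold en at hk
    split_ifs at hk with h
    · have h1 : k.unpair.1 = Encodable.encode c := by omega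
      rw [h1, Denumerable.ofNat_encode] at h
      obtain ⟨x, hx⟩ := Option.isSome_iff_exists.1 h
      exact Part.dom_iff_mem.2 ⟨x, Code.evaln_sound hx⟩
    · omega
  · intro h
    obtain ⟨x, hx⟩ := Part.dom_iff_mem.1 h
    obtain ⟨k, hk⟩ := Code.evaln_complete.1 hx
    refine ⟨Nat.pair (Encodable.encode c) k, ?_⟩
    unfold en
    rw [Nat.unpair_pair]
    simp only [Denumerable.ofNat_encode]
    rw [if_pos]
    exact Option.isSome_iff_exists.2 ⟨x, hk⟩

/-- The example measure. -/
noncomputable def mu : Measure (ℤ → Bool) := M en (fun _ => 0)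

theorem mu_computable : ComputableMeasure mu := comp_M primrec_en

theorem mu_shift : mu.map shift = mu := map_M_shift _ _

theorem exists_limitPoint : ∃ ν : Measure (ℤ → Bool), IsProbabilityMeasure ν ∧
    IsLimitPoint mu ν ∧ ¬ ComputableMeasure ν := by
  obtain ⟨b, hb⟩ := exists_noncomputable en en_infinite
  refine ⟨M en (tb b), inferInstance, ⟨nb b, nb_mono b, fun w => ?_⟩, hb⟩
  have h := tendsto_M en (tb b) (nb b)
    (fun c => (eventually_ge_atTop c).mono fun j hj => nb_mod b c j hj) w
  refine h.congr fun j => ?_
  rw [mu, map_M_iter]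
  simp only [add_zero]

theorem primrec_pw : Primrec pw := by
  unfold pw
  have h1 : Primrec (fun c : ℕ => List.range (3 * 2 ^ c + 1)) :=
    Primrec.list_range.comp (Primrec.succ.comp (Primrec.nat_mul.comp (Primrec.const 3) primrec_pow2))
  refine Primrec.list_map h1 ?_
  refine Primrec₂.mk ?_
  have hp : Primrec (fun p : ℕ × ℕ => 2 ^ p.1) := primrec_pow2.comp Primrec.fst
  refine PrimrecPred.decide ?_
  refine PrimrecPred.or (Primrec.eq.comp Primrec.snd (Primrec.const 0)) ?_
  exact PrimrecPred.or (Primrec.eq.comp Primrec.snd hp)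
    (Primrec.eq.comp Primrec.snd (Primrec.nat_mul.comp (Primrec.const 3) hp))

theorem limitLanguage_noncomputable : ¬ ComputablePred (fun w => w ∈ limitLanguage mu) := by
  intro h
  refine ComputablePred.halting_problem 0 (ComputablePred.computable_of_manyOneReducible ?_ h)
  refine ⟨fun c => pw (2 * Encodable.encode c + 1), ?_, fun c => ?_⟩
  · exact (primrec_pw.comp (Primrec.nat_double_succ.comp Primrec.encode)).to_comp
  · exact (odd_mem_en c).symm.trans (pw_mem_iff en _).symm

end Pool.R570.XorCA
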