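import Pool.Agent.R570.XorComb

/-!
# Measures for the XOR cellular automaton: mixtures of periodic orbits of dilated configurations
-/

namespace Pool.R570.XorCA

open MeasureTheory Filter Topology

/-- The word of length `n` read in `x` at position `s`. -/
def word (x : ℤ → Bool) (s : ℤ) (n : ℕ) : List Bool :=
  (List.range n).map (fun i : ℕ => x (s + (i : ℤ)))

theorem mem_cyl_iff (x : ℤ → Bool) (s : ℤ) (w : List Bool) :
    tr s x ∈ cyl w ↔ word x s w.length = w := by
  constructor
  · intro h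
    apply List.ext_getElem
    · simp [word]
    · intro i h1 h2
      simp only [word, List.getElem_map, List.getElem_range]
      rw [← h i h2]
      simp [tr, add_comm]
  · intro h i hi
    have h1 : (word x s w.length)[i]'(by rw [h]; exact hi) = w[i] := by
      simp only [h]
    rw [← h1]
    simp [word, tr, add_comm]

theorem cyl_measurable (w : List Bool) : MeasurableSet (cyl w) := by
  have : cyl w = ⋂ (i : ℕ), ⋂ (h : i < w.length), (fun x : ℤ → Bool => x (i : ℤ)) ⁻¹' {w[i]} := by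
    ext x; simp [cyl]
  rw [this]
  exact MeasurableSet.iInter fun i => MeasurableSet.iInter fun h =>
    measurable_pi_apply (i : ℤ) (MeasurableSet.singleton _)

theorem measurable_F : Measurable F := by
  refine measurable_pi_lambda _ fun i => ?_
  have h1 : Measurable (fun p : Bool × Bool => xor p.1 p.2) := measurable_of_countable _
  have h2 : Measurable (fun x : ℤ → Bool => (x i, x (i + 1))) :=
    (measurable_pi_apply i).prodMk (measurable_pi_apply (i + 1))
  exact h1.comp h2

theorem measurable_iter (n : ℕ) : Measurable F^[n] := measurable_F.iterate n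

theorem measurable_shift : Measurable shift :=
  measurable_pi_lambda _ fun i => measurable_pi_apply (i + 1)

/-- The uniform measure on the `F^n`-image of the shift orbit of `z_c`. -/
noncomputable def kap (c n : ℕ) : Measure (ℤ → Bool) :=
  ∑ s ∈ Finset.range (3 * 2 ^ c),
    ((3 * 2 ^ c : ℕ) : ENNReal)⁻¹ • Measure.dirac (tr (s : ℤ) (F^[n] (z c)))

open Classical in
/-- Number of positions `s < 3·2^c` at which `w` occurs in `F^n z_c`. -/
noncomputable def cnt (c n : ℕ) (w : List Bool) : ℕ :=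
  ((Finset.range (3 * 2 ^ c)).filter (fun s : ℕ => tr (s : ℤ) (F^[n] (z c)) ∈ cyl w)).card

theorem cnt_le (c n : ℕ) (w : List Bool) : cnt c n w ≤ 3 * 2 ^ c := by
  classical
  unfold cnt
  refine (Finset.card_filter_le _ _).trans ?_
  simp

theorem kap_cyl (c n : ℕ) (w : List Bool) :
    kap c n (cyl w) = ((3 * 2 ^ c : ℕ) : ENNReal)⁻¹ * cnt c n w := by
  classical
  simp only [kap, Measure.coe_finsetSum, Finset.sum_apply, Measure.smul_apply, smul_eq_mul,
    Measure.dirac_apply' _ (cyl_measurable w), cnt]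
  rw [← Finset.mul_sum, Finset.card_filter]
  congr 1
  push_cast
  refine Finset.sum_congr rfl fun s _ => ?_
  by_cases h : tr (s : ℤ) (F^[n] (z c)) ∈ cyl w <;> simp [h]

theorem kap_univ (c n : ℕ) : kap c n Set.univ = 1 := by
  simp only [kap, Measure.coe_finsetSum, Finset.sum_apply, Measure.smul_apply, smul_eq_mul,
    measure_univ, mul_one, Finset.sum_const, Finset.card_range, nsmul_eq_mul]
  exact ENNReal.mul_inv_cancel (by positivity) (ENNReal.natCast_ne_top _)

theorem map_kap (c n : ℕ) (G : (ℤ → Bool) → (ℤ → Bool)) (hG : Measurable G) :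
    (kap c n).map G = ∑ s ∈ Finset.range (3 * 2 ^ c),
      ((3 * 2 ^ c : ℕ) : ENNReal)⁻¹ • Measure.dirac (G (tr (s : ℤ) (F^[n] (z c)))) := by
  ext A hA
  rw [Measure.map_apply hG hA]
  simp only [kap, Measure.coe_finsetSum, Finset.sum_apply, Measure.smul_apply, smul_eq_mul,
    Measure.dirac_apply' _ hA, Measure.dirac_apply' _ (hG hA)]
  rfl

theorem map_kap_iter (c n m : ℕ) : (kap c n).map F^[m] = kap c (m + n) := by
  rw [map_kap c n _ (measurable_iter m), kap]
  refine Finset.sum_congr rfl fun s _ => ?_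
  rw [iter_F_tr, ← Function.iterate_add_apply]

/-- summing a periodic function over a shifted period -/
theorem sum_shift_period {A : Type*} [AddCommMonoid A] (f : ℤ → A) (P : ℕ)
    (hP : ∀ i, f (i + P) = f i) (m : ℕ) :
    ∑ s ∈ Finset.range P, f ((s : ℤ) + m) = ∑ s ∈ Finset.range P, f (s : ℤ) := by
  induction m with
  | zero => simp
  | succ m ih =>
    rw [← ih]
    have h1 := Finset.sum_range_succ (fun s : ℕ => f ((s : ℤ) + m)) P
    have h2 := Finset.sum_range_succ' (fun s : ℕ => f ((s : ℤ) + m)) P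
    rcases P with _ | P
    · simp
    · rw [Finset.sum_range_succ, Finset.sum_range_succ' (fun s : ℕ => f ((s : ℤ) + m))]
      congr 1
      · refine Finset.sum_congr rfl fun s _ => ?_
        refine congrArg f ?_
        push_cast; ring
      · have := hP m
        rw [← show ((P : ℤ) + ((m + 1 : ℕ) : ℤ)) = m + ((P + 1 : ℕ) : ℤ) by push_cast; ring] at this
        rw [this]
        simp

theorem tr_period (c n : ℕ) (i : ℤ) :
    tr (i + ((3 * 2 ^ c : ℕ) : ℤ)) (F^[n] (z c)) = tr i (F^[n] (z c)) := by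
  rw [← tr_tr]
  congr 1
  have := iter_z_per c n
  push_cast
  exact this

theorem map_kap_shift (c n : ℕ) : (kap c n).map shift = kap c n := by
  rw [map_kap c n _ measurable_shift, kap]
  have h := sum_shift_period (fun i : ℤ => ((3 * 2 ^ c : ℕ) : ENNReal)⁻¹ •
    Measure.dirac (tr i (F^[n] (z c)))) (3 * 2 ^ c) (fun i => by rw [tr_period]) 1
  rw [← h]
  refine Finset.sum_congr rfl fun s _ => ?_
  congr 2
  funext i
  simp only [shift, tr]
  refine congrArg _ ?_
  push_cast; ring

theorem kap_add (c n q : ℕ) : kap c (n + 2 ^ c * q) = kap c n := by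
  induction q with
  | zero => simp
  | succ q ih =>
    rw [← ih]
    have e : F^[n + 2 ^ c * (q + 1)] (z c) = tr (((2 * 2 ^ c : ℕ)) : ℤ) (F^[n + 2 ^ c * q] (z c)) := by
      rw [mul_add, mul_one, ← add_assoc, Function.iterate_add_apply, iter_z, iter_F_tr]
      push_cast
      rfl
    simp only [kap]
    rw [e]
    have h := sum_shift_period (fun i : ℤ => ((3 * 2 ^ c : ℕ) : ENNReal)⁻¹ •
      Measure.dirac (tr i (F^[n + 2 ^ c * q] (z c)))) (3 * 2 ^ c)
      (fun i => by rw [tr_period]) (2 * 2 ^ c)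
    rw [← h]
    refine Finset.sum_congr rfl fun s _ => ?_
    rw [tr_tr]

theorem cnt_eq_of_kap {c n n' : ℕ} (h : kap c n = kap c n') (w : List Bool) :
    cnt c n w = cnt c n' w := by
  have h1 := kap_cyl c n w
  rw [h, kap_cyl c n' w] at h1
  have h2 : ((3 * 2 ^ c : ℕ) : ENNReal)⁻¹ ≠ 0 := ENNReal.inv_ne_zero.2 (ENNReal.natCast_ne_top _)
  have h3 : ((3 * 2 ^ c : ℕ) : ENNReal)⁻¹ ≠ ⊤ := ENNReal.inv_ne_top.2 (by positivity)
  have h4 := (ENNReal.mul_right_inj h2 h3).1 h1
  exact_mod_cast h4.symm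

theorem cnt_modEq {c n n' : ℕ} (h : n % 2 ^ c = n' % 2 ^ c) (w : List Bool) :
    cnt c n w = cnt c n' w := by
  apply cnt_eq_of_kap
  rw [← Nat.mod_add_div n (2 ^ c), ← Nat.mod_add_div n' (2 ^ c), kap_add, kap_add, h]

/-- The mixture `∑_k 2^{-(k+1)} κ_{a k, τ (a k)}`. -/
noncomputable def M (a τ : ℕ → ℕ) : Measure (ℤ → Bool) :=
  Measure.sum fun k => (2⁻¹ : ENNReal) ^ (k + 1) • kap (a k) (τ (a k))

theorem tsum_half : ∑' k : ℕ, (2⁻¹ : ENNReal) ^ (k + 1) = 1 := by
  simp only [pow_succ]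
  rw [ENNReal.tsum_mul_right, ENNReal.tsum_geometric, ENNReal.one_sub_inv_two, inv_inv]
  exact ENNReal.mul_inv_cancel (by norm_num) (by norm_num)

instance M_prob (a τ : ℕ → ℕ) : IsProbabilityMeasure (M a τ) := by
  constructor
  rw [M, Measure.sum_apply _ MeasurableSet.univ]
  simp only [Measure.smul_apply, kap_univ, smul_eq_mul, mul_one]
  exact tsum_half

theorem map_M_iter (a τ : ℕ → ℕ) (m : ℕ) : (M a τ).map F^[m] = M a (fun c => m + τ c) := by
  rw [M, Measure.map_sum (measurable_iter m).aemeasurable, M]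
  congr 1
  funext k
  rw [Measure.map_smul, map_kap_iter]

theorem map_M_shift (a τ : ℕ → ℕ) : (M a τ).map shift = M a τ := by
  rw [M, Measure.map_sum measurable_shift.aemeasurable]
  congr 1
  funext k
  rw [Measure.map_smul, map_kap_shift]

/-- The weight of `[w]` in `κ_{c,n}`. -/
noncomputable def wt (c n : ℕ) (w : List Bool) : ℝ := (cnt c n w : ℝ) / (3 * 2 ^ c)

theorem wt_nonneg (c n : ℕ) (w : List Bool) : 0 ≤ wt c n w := by
  unfold wt; positivity

theorem wt_le_one (c n : ℕ) (w : List Bool) : wt c n w ≤ 1 := by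
  unfold wt
  rw [div_le_one (by positivity)]
  exact_mod_cast cnt_le c n w

theorem M_cyl (a τ : ℕ → ℕ) (w : List Bool) :
    (M a τ).real (cyl w) = ∑' k : ℕ, (1 / 2 : ℝ) ^ (k + 1) * wt (a k) (τ (a k)) w := by
  rw [Measure.real, M, Measure.sum_apply _ (cyl_measurable w)]
  rw [ENNReal.tsum_toReal_eq]
  · refine tsum_congr fun k => ?_
    rw [Measure.smul_apply, kap_cyl, smul_eq_mul, ENNReal.toReal_mul, ENNReal.toReal_mul,
      ENNReal.toReal_pow, ENNReal.toReal_inv, ENNReal.toReal_inv, wt]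
    simp only [ENNReal.toReal_ofNat, ENNReal.toReal_natCast, one_div]
    push_cast
    ring
  · intro k
    rw [Measure.smul_apply, kap_cyl, smul_eq_mul]
    refine ENNReal.mul_ne_top (ENNReal.pow_ne_top (by norm_num)) (ENNReal.mul_ne_top
      (ENNReal.inv_ne_top.2 (by positivity)) (ENNReal.natCast_ne_top _))

theorem summable_M (a τ : ℕ → ℕ) (w : List Bool) :
    Summable fun k : ℕ => (1 / 2 : ℝ) ^ (k + 1) * wt (a k) (τ (a k)) w := by
  refine Summable.of_nonneg_of_le (fun k => mul_nonneg (by positivity) (wt_nonneg _ _ _))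
    (fun k => ?_) ((summable_geometric_two).mul_right (1 / 2))
  rw [← pow_succ]
  exact mul_le_of_le_one_right (by positivity) (wt_le_one _ _ _)

theorem tendsto_M (a τ : ℕ → ℕ) (n : ℕ → ℕ)
    (h : ∀ c, ∀ᶠ j in atTop, n j % 2 ^ c = τ c % 2 ^ c) (w : List Bool) :
    Tendsto (fun j => (M a (fun _ => n j)).real (cyl w)) atTop (𝓝 ((M a τ).real (cyl w))) := by
  simp only [M_cyl]
  refine tendsto_tsum_of_dominated_convergence (bound := fun k : ℕ => (1 / 2 : ℝ) ^ k * (1 / 2))
    ((summable_geometric_two).mul_right (1 / 2)) ?_ ?_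
  · intro k
    refine tendsto_const_nhds.congr' ?_
    filter_upwards [h (a k)] with j hj
    simp only [wt]
    rw [cnt_modEq hj]
  · refine Eventually.of_forall fun j k => ?_
    rw [Real.norm_of_nonneg (mul_nonneg (by positivity) (wt_nonneg _ _ _)), ← pow_succ]
    exact mul_le_of_le_one_right (by positivity) (wt_le_one _ _ _)

/-- The word version of the pattern. -/
def pw (c : ℕ) : List Bool :=
  (List.range (3 * 2 ^ c + 1)).map (fun i => decide (i = 0 ∨ i = 2 ^ c ∨ i = 3 * 2 ^ c))

theorem mem_cyl_pw (c : ℕ) (x : ℤ → Bool) (s : ℤ) : tr s x ∈ cyl (pw c) ↔ Pat c x s := by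
  constructor
  · intro h i hi
    have := h i (by simpa [pw] using hi)
    rw [show x (s + i) = tr s x i by simp [tr, add_comm], this]
    simp [pw]
  · intro h i hi
    have hi' : i < 3 * 2 ^ c + 1 := by simpa [pw] using hi
    have := h i hi'
    rw [show tr s x i = x (s + i) by simp [tr, add_comm], this]
    simp [pw]

theorem cnt_pw_eq_zero {c c' n : ℕ} (h : ¬ (c' = c ∧ 2 ^ c ∣ n)) : cnt c' n (pw c) = 0 := by
  classical
  unfold cnt
  rw [Finset.card_eq_zero, Finset.filter_eq_empty_iff]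
  intro s _ hs
  exact h (pat_z c c' n s ((mem_cyl_pw _ _ _).1 hs))

theorem cnt_pw_zero_pos (c : ℕ) : 0 < cnt c 0 (pw c) := by
  classical
  unfold cnt
  rw [Finset.card_pos]
  refine ⟨0, Finset.mem_filter.2 ⟨Finset.mem_range.2 (by positivity), ?_⟩⟩
  exact (mem_cyl_pw _ _ _).2 (pat_z_zero c)

theorem wt_pw_eq_zero {c c' n : ℕ} (h : ¬ (c' = c ∧ 2 ^ c ∣ n)) : wt c' n (pw c) = 0 := by
  simp [wt, cnt_pw_eq_zero h]

theorem M_pw_eq_zero (a τ : ℕ → ℕ) (c : ℕ) (h : c ∉ Set.range a) :
    (M a τ).real (cyl (pw c)) = 0 := by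
  rw [M_cyl]
  convert tsum_zero with k
  rw [wt_pw_eq_zero, mul_zero]
  rintro ⟨h1, -⟩
  exact h ⟨k, h1⟩

theorem M_ge (a τ : ℕ → ℕ) (w : List Bool) (k : ℕ) :
    (1 / 2 : ℝ) ^ (k + 1) * wt (a k) (τ (a k)) w ≤ (M a τ).real (cyl w) := by
  rw [M_cyl]
  exact (summable_M a τ w).le_tsum k fun j _ => mul_nonneg (by positivity) (wt_nonneg _ _ _)

/-- The pattern word of scale `c` is in the limit language iff `c` is in the range of `a`. -/
theorem pw_mem_iff (a : ℕ → ℕ) (c : ℕ) :
    (¬ Tendsto (fun n => ((M a (fun _ => 0)).map F^[n]).real (cyl (pw c))) atTop (𝓝 0)) ↔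
      c ∈ Set.range a := by
  simp only [map_M_iter]
  constructor
  · intro h
    by_contra hc
    refine h (tendsto_const_nhds.congr fun n => ?_)
    rw [M_pw_eq_zero a _ c hc]
  · rintro ⟨k, rfl⟩ h
    have h1 : Tendsto (fun q : ℕ => 2 ^ a k * q) atTop atTop :=
      tendsto_id.const_mul_atTop' (by positivity)
    have h2 := h.comp h1
    have h3 : ∀ q : ℕ, (1 / 2 : ℝ) ^ (k + 1) * wt (a k) 0 (pw (a k)) ≤
        ((fun n => (M a (fun _ => n + 0)).real (cyl (pw (a k)))) ∘ (fun q : ℕ => 2 ^ a k * q)) q := by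
      intro q
      have := M_ge a (fun _ => 2 ^ a k * q + 0) (pw (a k)) k
      refine le_trans (le_of_eq ?_) this
      congr 1
      simp only [wt]
      rw [cnt_modEq (c := a k) (n := 0) (n' := 2 ^ a k * q + 0) (by simp)]
    have h4 := ge_of_tendsto' h2 h3
    have h5 : 0 < wt (a k) 0 (pw (a k)) := by
      unfold wt
      have := cnt_pw_zero_pos (a k)
      positivity
    have : 0 < (1 / 2 : ℝ) ^ (k + 1) * wt (a k) 0 (pw (a k)) := by positivity
    linarith

end Pool.R570.XorCA
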